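import Pool.Agent.V11290.VW.M2

set_option autoImplicit false

/-! Zeta sums at typical dilates, for measures with Fourier decay. -/

namespace Pool.Agent.V11290.VW

open Finset MeasureTheory ComplexConjugate

/-- an exponential sum with arbitrary frequencies -/
noncomputable def EW {ι : Type} (s : Finset ι) (ω : ι → ℝ) (α : ℝ) : ℂ :=
  ∑ m ∈ s, Complex.exp (((ω m : ℝ) : ℂ) * α * Complex.I)

lemma EW_sq {ι : Type} (s : Finset ι) (ω : ι → ℝ) (α : ℝ) : ((‖EW s ω α‖ ^ 2 : ℝ) : ℂ) =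
    ∑ m ∈ s, ∑ n ∈ s, Complex.exp (((ω m - ω n : ℝ) : ℂ) * α * Complex.I) := by
  rw [Complex.ofReal_pow, ← Complex.mul_conj']
  unfold EW
  rw [map_sum, sum_mul_sum]
  apply sum_congr rfl
  intro m _
  apply sum_congr rfl
  intro n _
  rw [← Complex.exp_conj]
  have e1 : conj ((((ω n : ℝ) : ℂ) * α * Complex.I)) = -(((ω n : ℝ) : ℂ) * α * Complex.I) := by
    rw [map_mul, map_mul, Complex.conj_ofReal, Complex.conj_ofReal, Complex.conj_I]
    ring
  rw [e1, ← Complex.exp_add]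
  congr 1
  push_cast
  ring

lemma EW_int {ι : Type} (μ : Measure ℝ) [IsProbabilityMeasure μ] (s : Finset ι) (ω : ι → ℝ) :
    Integrable (fun α => ‖EW s ω α‖ ^ 2) μ := by
  have h : Integrable (fun α : ℝ => ((‖EW s ω α‖ ^ 2 : ℝ) : ℂ)) μ := by
    have e : (fun α : ℝ => ((‖EW s ω α‖ ^ 2 : ℝ) : ℂ)) = fun α : ℝ => ∑ m ∈ s, ∑ n ∈ s,
        Complex.exp (((ω m - ω n : ℝ) : ℂ) * α * Complex.I) := by
      ext α
      exact EW_sq s ω α
    rw [e]
    exact integrable_finsetSum _ fun m _ => integrable_finsetSum _ fun n _ => exp_int μ _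
  have e : (fun α => ‖EW s ω α‖ ^ 2) = fun α => (((‖EW s ω α‖ ^ 2 : ℝ) : ℂ)).re := by
    ext α
    rw [Complex.ofReal_re]
  rw [e]
  exact h.re

lemma EW_moment {ι : Type} (μ : Measure ℝ) [IsProbabilityMeasure μ] (s : Finset ι) (ω : ι → ℝ) :
    ∫ α, ‖EW s ω α‖ ^ 2 ∂μ ≤ ∑ m ∈ s, ∑ n ∈ s, ‖charFun μ (ω m - ω n)‖ := by
  have h0 : 0 ≤ ∫ α, ‖EW s ω α‖ ^ 2 ∂μ := integral_nonneg fun α => by positivity
  have h1 : ((∫ α, ‖EW s ω α‖ ^ 2 ∂μ : ℝ) : ℂ) = ∑ m ∈ s, ∑ n ∈ s, charFun μ (ω m - ω n) := by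
    rw [← integral_complex_ofReal]
    simp_rw [EW_sq]
    rw [integral_finsetSum _ fun m _ => integrable_finsetSum _ fun n _ => exp_int μ _]
    apply sum_congr rfl
    intro m _
    rw [integral_finsetSum _ fun n _ => exp_int μ _]
    apply sum_congr rfl
    intro n _
    rw [charFun_apply_real]
  have h2 : ∫ α, ‖EW s ω α‖ ^ 2 ∂μ = ‖((∫ α, ‖EW s ω α‖ ^ 2 ∂μ : ℝ) : ℂ)‖ := by
    rw [Complex.norm_real, Real.norm_eq_abs, abs_of_nonneg h0]
  rw [h2, h1]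
  exact (norm_sum_le _ _).trans (sum_le_sum fun m _ => norm_sum_le _ _)

lemma log_gap (N m n : ℕ) (hm : 1 ≤ m) (hmn : m < n) (hn : n ≤ N) : ((n : ℝ) - m) / N ≤ Real.log n - Real.log m := by
  have hm0 : (0 : ℝ) < m := by exact_mod_cast hm
  have hn0 : (0 : ℝ) < n := by exact_mod_cast (by omega : 0 < n)
  have hN0 : (0 : ℝ) < N := by exact_mod_cast (by omega : 0 < N)
  have hnN : (n : ℝ) ≤ N := by exact_mod_cast hn
  have hmn' : (m : ℝ) < n := by exact_mod_cast hmn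
  rw [← Real.log_div hn0.ne' hm0.ne']
  have h1 := Real.one_sub_inv_le_log_of_pos (show (0 : ℝ) < (n : ℝ) / m by positivity)
  refine le_trans ?_ h1
  rw [inv_div]
  have h2 : 1 - (m : ℝ) / n = ((n : ℝ) - m) / n := by field_simp
  rw [h2]
  exact div_le_div_of_nonneg_left (by linarith) hn0 hnN

/-- **the second moment of a zeta sum over a measure with Fourier decay** -/
theorem zeta_moment (μ : Measure ℝ) [IsProbabilityMeasure μ] (C σ : ℝ) (hσ0 : 0 < σ) (hσ1 : σ < 1)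
    (hdec : ∀ ξ : ℝ, 1 ≤ |ξ| → ‖charFun μ ξ‖ ≤ C * |ξ| ^ (-σ)) (N : ℕ) (τ : ℝ) (hτ : τ ≠ 0) :
    ∫ α, ‖EW (Icc 1 N) (fun n : ℕ => τ * Real.log n) α‖ ^ 2 ∂μ ≤ N + 2 * (|C| + 1) / (1 - σ) * (N : ℝ) ^ 2 * |τ| ^ (-σ) := by
  have hτ0 : 0 < |τ| := abs_pos.2 hτ
  have hσ' : 0 < 1 - σ := by linarith
  rcases Nat.eq_zero_or_pos N with hN | hN
  · subst hN
    have : ∫ α, ‖EW (Icc 1 0) (fun n : ℕ => τ * Real.log n) α‖ ^ 2 ∂μ = 0 := by
      have e : ∀ α, ‖EW (Icc 1 0) (fun n : ℕ => τ * Real.log n) α‖ ^ 2 = 0 := by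
        intro α
        unfold EW
        simp
      rw [integral_congr_ae (ae_of_all μ e), integral_zero]
    rw [this]
    positivity
  have hN0 : (0 : ℝ) < N := by exact_mod_cast hN
  obtain ⟨D, hD⟩ : ∃ D : ℝ, D = (|C| + 1) * |τ| ^ (-σ) * (N : ℝ) ^ σ := ⟨_, rfl⟩
  have hD0 : 0 ≤ D := by rw [hD]; positivity
  have hgap : ∀ m n : ℕ, 1 ≤ m → m < n → n ≤ N → ∀ ξ : ℝ, |ξ| = |τ| * (Real.log n - Real.log m) →
      ‖charFun μ ξ‖ ≤ D * ((n : ℝ) - m) ^ (-σ) := by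
    intro m n hm hmn hn ξ hξ
    have h1 := log_gap N m n hm hmn hn
    have h2 : (0 : ℝ) < (n : ℝ) - m := by
      have : (m : ℝ) < n := by exact_mod_cast hmn
      linarith
    have h3 : 0 < ((n : ℝ) - m) / N := by positivity
    have h4 : |τ| * (((n : ℝ) - m) / N) ≤ |ξ| := by
      rw [hξ]
      exact mul_le_mul_of_nonneg_left h1 hτ0.le
    have h5 : 0 < |ξ| := lt_of_lt_of_le (by positivity) h4
    refine (char_bound μ hσ0.le hdec ξ (abs_pos.1 h5)).trans ?_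
    have h6 : |ξ| ^ (-σ) ≤ (|τ| * (((n : ℝ) - m) / N)) ^ (-σ) := Real.rpow_le_rpow_of_nonpos (by positivity) h4 (by linarith)
    have h7 : (|τ| * (((n : ℝ) - m) / N)) ^ (-σ) = |τ| ^ (-σ) * (((n : ℝ) - m) ^ (-σ) * (N : ℝ) ^ σ) := by
      rw [Real.mul_rpow hτ0.le h3.le, Real.div_rpow h2.le hN0.le, Real.rpow_neg hN0.le, div_inv_eq_mul]
    rw [h7] at h6
    calc (|C| + 1) * |ξ| ^ (-σ) ≤ (|C| + 1) * (|τ| ^ (-σ) * (((n : ℝ) - m) ^ (-σ) * (N : ℝ) ^ σ)) :=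
          mul_le_mul_of_nonneg_left h6 (by positivity)
      _ = _ := by rw [hD]; ring
  obtain ⟨G, hG⟩ : ∃ G : ℕ → ℕ → ℝ, G = fun m n : ℕ => if m < n then D * ((n : ℝ) - m) ^ (-σ) else 0 := ⟨_, rfl⟩
  obtain ⟨H, hH⟩ : ∃ H : ℕ → ℕ → ℝ, H = fun m n => if m = n then (1 : ℝ) else 0 := ⟨_, rfl⟩
  have hpt : ∀ m ∈ Icc 1 N, ∀ n ∈ Icc 1 N, ‖charFun μ (τ * Real.log m - τ * Real.log n)‖ ≤ G m n + G n m + H m n := by
    intro m hm n hn
    rw [mem_Icc] at hm hn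
    have hm0 : (0 : ℝ) < m := by exact_mod_cast hm.1
    have hn0 : (0 : ℝ) < n := by exact_mod_cast hn.1
    rcases lt_trichotomy m n with h | h | h
    · have h3 := hgap m n hm.1 h hn.2 (τ * Real.log m - τ * Real.log n) (by
        rw [← mul_sub, abs_mul, abs_sub_comm, abs_of_nonneg (a := Real.log n - Real.log m)]
        have : Real.log m ≤ Real.log n := Real.log_le_log hm0 (by exact_mod_cast h.le)
        linarith)
      have hG1 : G m n = D * ((n : ℝ) - m) ^ (-σ) := by rw [hG]; simp only; rw [if_pos h]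
      have hG2 : G n m = 0 := by rw [hG]; simp only; rw [if_neg (by omega)]
      have hH1 : H m n = 0 := by rw [hH]; simp only; rw [if_neg (by omega)]
      rw [hG1, hG2, hH1, add_zero, add_zero]
      exact h3
    · subst h
      have hG1 : G m m = 0 := by rw [hG]; simp only; rw [if_neg (by omega)]
      have hH1 : H m m = 1 := by rw [hH]; simp only; rw [if_pos trivial]
      rw [hG1, hH1, zero_add, zero_add]
      exact norm_charFun_le_one _
    · have h3 := hgap n m hn.1 h hm.2 (τ * Real.log m - τ * Real.log n) (by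
        rw [← mul_sub, abs_mul, abs_of_nonneg (a := Real.log m - Real.log n)]
        have : Real.log n ≤ Real.log m := Real.log_le_log hn0 (by exact_mod_cast h.le)
        linarith)
      have hG1 : G n m = D * ((m : ℝ) - n) ^ (-σ) := by rw [hG]; simp only; rw [if_pos h]
      have hG2 : G m n = 0 := by rw [hG]; simp only; rw [if_neg (by omega)]
      have hH1 : H m n = 0 := by rw [hH]; simp only; rw [if_neg (by omega)]
      rw [hG1, hG2, hH1, add_zero, zero_add]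
      exact h3
  have hin : ∀ n ∈ Icc 1 N, ∑ m ∈ Icc 1 N, G m n ≤ D * ((N : ℝ) ^ (1 - σ) / (1 - σ)) := by
    intro n hn
    rw [mem_Icc] at hn
    have e1 : ∑ m ∈ Icc 1 N, G m n = ∑ m ∈ Ico 1 n, D * ((n : ℝ) - m) ^ (-σ) := by
      rw [hG]
      simp only
      rw [← sum_filter]
      apply sum_congr _ fun _ _ => rfl
      ext m
      simp only [mem_filter, mem_Icc, mem_Ico]
      omega
    have e2 : ∑ m ∈ Ico 1 n, ((n : ℝ) - m) ^ (-σ) = ∑ m ∈ Ico 1 n, (m : ℝ) ^ (-σ) := by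
      apply sum_nbij' (fun m => n - m) (fun m => n - m)
      · intro m hm
        rw [mem_Ico] at hm ⊢
        omega
      · intro m hm
        rw [mem_Ico] at hm ⊢
        omega
      · intro m hm
        rw [mem_Ico] at hm
        omega
      · intro m hm
        rw [mem_Ico] at hm
        omega
      · intro m hm
        rw [mem_Ico] at hm
        rw [Nat.cast_sub hm.2.le]
    rw [e1, ← mul_sum, e2]
    apply mul_le_mul_of_nonneg_left _ hD0
    refine le_trans (sum_le_sum_of_subset_of_nonneg (t := Icc 1 N) ?_ fun i _ _ => by positivity) (sum_pow σ hσ0.le hσ1 N)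
    intro m hm
    rw [mem_Ico] at hm
    rw [mem_Icc]
    omega
  have hdi : ∀ n ∈ Icc 1 N, ∑ m ∈ Icc 1 N, H m n = 1 := by
    intro n hn
    rw [hH]
    simp only
    rw [sum_ite_eq', if_pos hn]
  refine (EW_moment μ _ _).trans ?_
  calc ∑ m ∈ Icc 1 N, ∑ n ∈ Icc 1 N, ‖charFun μ (τ * Real.log m - τ * Real.log n)‖
      ≤ ∑ m ∈ Icc 1 N, ∑ n ∈ Icc 1 N, (G m n + G n m + H m n) := sum_le_sum fun m hm => sum_le_sum fun n hn => hpt m hm n hn
    _ = (∑ m ∈ Icc 1 N, ∑ n ∈ Icc 1 N, G m n) + (∑ m ∈ Icc 1 N, ∑ n ∈ Icc 1 N, G n m) + ∑ m ∈ Icc 1 N, ∑ n ∈ Icc 1 N, H m n := by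
        simp only [sum_add_distrib]
    _ = 2 * (∑ n ∈ Icc 1 N, ∑ m ∈ Icc 1 N, G m n) + ∑ n ∈ Icc 1 N, ∑ m ∈ Icc 1 N, H m n := by
        rw [sum_comm (f := fun m n => G m n), sum_comm (f := fun m n => H m n)]
        ring
    _ ≤ 2 * (∑ _n ∈ Icc 1 N, D * ((N : ℝ) ^ (1 - σ) / (1 - σ))) + ∑ _n ∈ Icc 1 N, (1 : ℝ) :=
        add_le_add (mul_le_mul_of_nonneg_left (sum_le_sum hin) (by norm_num)) (le_of_eq (sum_congr rfl hdi))
    _ = N + 2 * (|C| + 1) / (1 - σ) * (N : ℝ) ^ 2 * |τ| ^ (-σ) := by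
        rw [sum_const, sum_const, Nat.card_Icc, Nat.add_sub_cancel, nsmul_eq_mul, nsmul_eq_mul, mul_one, hD]
        have e3 : (N : ℝ) ^ σ * (N : ℝ) ^ (1 - σ) = N := by
          rw [← Real.rpow_add hN0]
          have : σ + (1 - σ) = 1 := by ring
          rw [this, Real.rpow_one]
        calc 2 * ((N : ℝ) * ((|C| + 1) * |τ| ^ (-σ) * (N : ℝ) ^ σ * ((N : ℝ) ^ (1 - σ) / (1 - σ)))) + N
            = N + 2 * (|C| + 1) / (1 - σ) * (N * ((N : ℝ) ^ σ * (N : ℝ) ^ (1 - σ))) * |τ| ^ (-σ) := by ring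
          _ = _ := by rw [e3]; ring

end Pool.Agent.V11290.VW
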