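import Pool.Agent.V11290.VW.D1

set_option autoImplicit false

/-! A large sieve inequality for Dirichlet polynomials at typical dilates of arbitrary well-spaced sets. -/

namespace Pool.Agent.V11290.VW

open Finset MeasureTheory ComplexConjugate

/-- the sum over one side of a spaced set -/
lemma side_sum (S : Finset ℝ) (Δ σ : ℝ) (hΔ : 0 < Δ) (hσ0 : 0 < σ) (hσ1 : σ < 1) (s : ℝ) (R : ℕ)
    (hR : S.card ≤ R) (hS : ∀ x ∈ S, Δ ≤ |x - s|) (hsgn : (∀ x ∈ S, s < x) ∨ (∀ x ∈ S, x < s))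
    (hsep : ∀ x ∈ S, ∀ y ∈ S, x ≠ y → Δ ≤ |x - y|) :
    ∑ x ∈ S, |x - s| ^ (-σ) ≤ 2 / (1 - σ) * Δ ^ (-σ) * (R : ℝ) ^ (1 - σ) := by
  classical
  have hσ' : 0 < 1 - σ := by linarith
  obtain ⟨f, hf⟩ : ∃ f : ℝ → ℕ, f = fun x => ⌊|x - s| / Δ⌋₊ := ⟨_, rfl⟩
  have hf1 : ∀ x ∈ S, 1 ≤ f x := by
    intro x hx
    rw [hf]
    apply Nat.le_floor
    rw [Nat.cast_one, le_div_iff₀ hΔ]
    linarith [hS x hx]
  have hf2 : ∀ x ∈ S, |x - s| ^ (-σ) ≤ Δ ^ (-σ) * (f x : ℝ) ^ (-σ) := by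
    intro x hx
    have h1 : (f x : ℝ) ≤ |x - s| / Δ := by
      rw [hf]
      exact Nat.floor_le (by positivity)
    have h2 : (0 : ℝ) < f x := by exact_mod_cast hf1 x hx
    rw [le_div_iff₀ hΔ] at h1
    rw [← Real.mul_rpow hΔ.le h2.le]
    exact Real.rpow_le_rpow_of_nonpos (by positivity) (by linarith) (by linarith)
  have hinj : Set.InjOn f S := by
    intro x hx y hy hxy
    by_contra hne
    have h1 := hsep x hx y hy hne
    rw [hf] at hxy
    simp only at hxy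
    have a1 := Nat.floor_le (show 0 ≤ |x - s| / Δ by positivity)
    have a2 := Nat.lt_floor_add_one (|x - s| / Δ)
    have b1 := Nat.floor_le (show 0 ≤ |y - s| / Δ by positivity)
    have b2 := Nat.lt_floor_add_one (|y - s| / Δ)
    rw [hxy] at a1 a2
    obtain ⟨k, hk⟩ : ∃ k : ℕ, k = ⌊|y - s| / Δ⌋₊ := ⟨_, rfl⟩
    rw [← hk] at a1 a2 b1 b2
    rw [le_div_iff₀ hΔ] at a1 b1
    rw [div_lt_iff₀ hΔ] at a2 b2
    have h3 : |x - y| < Δ := by
      rcases hsgn with h | h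
      · rw [abs_of_pos (by linarith [h x hx])] at a1 a2
        rw [abs_of_pos (by linarith [h y hy])] at b1 b2
        rw [abs_lt]
        constructor <;> nlinarith
      · rw [abs_of_neg (by linarith [h x hx])] at a1 a2
        rw [abs_of_neg (by linarith [h y hy])] at b1 b2
        rw [abs_lt]
        constructor <;> nlinarith
    linarith
  have h3 : ∑ x ∈ S, (f x : ℝ) ^ (-σ) ≤ 2 / (1 - σ) * (R : ℝ) ^ (1 - σ) := by
    rw [← sum_image (f := fun k : ℕ => (k : ℝ) ^ (-σ)) hinj]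
    obtain ⟨A, hA⟩ : ∃ A, A = S.image f := ⟨_, rfl⟩
    rw [← hA]
    have hAc : A.card ≤ R := by rw [hA]; exact card_image_le.trans hR
    have hA1 : ∀ k ∈ A, 1 ≤ k := by
      intro k hk
      rw [hA, mem_image] at hk
      obtain ⟨x, hx, rfl⟩ := hk
      exact hf1 x hx
    rw [← sum_filter_add_sum_filter_not A (fun k => k ≤ R)]
    have p1 : ∑ k ∈ A.filter (fun k => k ≤ R), (k : ℝ) ^ (-σ) ≤ (R : ℝ) ^ (1 - σ) / (1 - σ) := by
      refine le_trans (sum_le_sum_of_subset_of_nonneg (t := Icc 1 R) ?_ fun i _ _ => by positivity) (sum_pow σ hσ0.le hσ1 R)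
      intro k hk
      rw [mem_filter] at hk
      rw [mem_Icc]
      exact ⟨hA1 k hk.1, hk.2⟩
    have p2 : ∑ k ∈ A.filter (fun k => ¬ k ≤ R), (k : ℝ) ^ (-σ) ≤ (R : ℝ) ^ (1 - σ) := by
      rcases Nat.eq_zero_or_pos R with hR0 | hR0
      · have : A = ∅ := by
          rw [← card_eq_zero]
          omega
        rw [this]
        simp
        positivity
      have hRr : (0 : ℝ) < R := by exact_mod_cast hR0
      calc ∑ k ∈ A.filter (fun k => ¬ k ≤ R), (k : ℝ) ^ (-σ) ≤ ∑ _k ∈ A.filter (fun k => ¬ k ≤ R), (R : ℝ) ^ (-σ) := by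
            apply sum_le_sum
            intro k hk
            rw [mem_filter] at hk
            have : (R : ℝ) ≤ k := by
              have := hk.2
              exact_mod_cast (by omega : R ≤ k)
            exact Real.rpow_le_rpow_of_nonpos hRr this (by linarith)
        _ = ((A.filter (fun k => ¬ k ≤ R)).card : ℝ) * (R : ℝ) ^ (-σ) := by rw [sum_const, nsmul_eq_mul]
        _ ≤ R * (R : ℝ) ^ (-σ) := by
            apply mul_le_mul_of_nonneg_right _ (by positivity)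
            exact_mod_cast (card_filter_le _ _).trans hAc
        _ = _ := by
            rw [mul_comm, ← Real.rpow_add_one hRr.ne']
            congr 1
            ring
    have p3 : (1 : ℝ) ≤ 1 / (1 - σ) := by
      rw [le_div_iff₀ hσ']
      linarith
    have p4 : 0 ≤ (R : ℝ) ^ (1 - σ) := by positivity
    calc _ ≤ (R : ℝ) ^ (1 - σ) / (1 - σ) + (R : ℝ) ^ (1 - σ) := add_le_add p1 p2
      _ ≤ (R : ℝ) ^ (1 - σ) / (1 - σ) + 1 / (1 - σ) * (R : ℝ) ^ (1 - σ) := by nlinarith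
      _ = _ := by ring
  calc ∑ x ∈ S, |x - s| ^ (-σ) ≤ ∑ x ∈ S, Δ ^ (-σ) * (f x : ℝ) ^ (-σ) := sum_le_sum hf2
    _ = Δ ^ (-σ) * ∑ x ∈ S, (f x : ℝ) ^ (-σ) := by rw [mul_sum]
    _ ≤ Δ ^ (-σ) * (2 / (1 - σ) * (R : ℝ) ^ (1 - σ)) := mul_le_mul_of_nonneg_left h3 (by positivity)
    _ = _ := by ring

/-- the sum over all the other points of a spaced set -/
lemma other_sum (S : Finset ℝ) (Δ σ : ℝ) (hΔ : 0 < Δ) (hσ0 : 0 < σ) (hσ1 : σ < 1)
    (hsep : ∀ x ∈ S, ∀ y ∈ S, x ≠ y → Δ ≤ |x - y|) (s : ℝ) (hs : s ∈ S) :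
    ∑ x ∈ S.erase s, |x - s| ^ (-σ) ≤ 4 / (1 - σ) * Δ ^ (-σ) * (S.card : ℝ) ^ (1 - σ) := by
  classical
  rw [← sum_filter_add_sum_filter_not (S.erase s) (fun x => s < x)]
  have h1 := side_sum ((S.erase s).filter (fun x => s < x)) Δ σ hΔ hσ0 hσ1 s S.card
    ((card_filter_le _ _).trans (card_le_card (erase_subset _ _)))
    (fun x hx => by
      rw [mem_filter, mem_erase] at hx
      exact hsep x hx.1.2 s hs hx.1.1)
    (Or.inl fun x hx => by
      rw [mem_filter] at hx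
      exact hx.2)
    (fun x hx y hy => by
      rw [mem_filter, mem_erase] at hx hy
      exact hsep x hx.1.2 y hy.1.2)
  have h2 := side_sum ((S.erase s).filter (fun x => ¬ s < x)) Δ σ hΔ hσ0 hσ1 s S.card
    ((card_filter_le _ _).trans (card_le_card (erase_subset _ _)))
    (fun x hx => by
      rw [mem_filter, mem_erase] at hx
      exact hsep x hx.1.2 s hs hx.1.1)
    (Or.inr fun x hx => by
      rw [mem_filter, mem_erase] at hx
      exact lt_of_le_of_ne (not_lt.1 hx.2) hx.1.1)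
    (fun x hx y hy => by
      rw [mem_filter, mem_erase] at hx hy
      exact hsep x hx.1.2 y hy.1.2)
  calc _ ≤ 2 / (1 - σ) * Δ ^ (-σ) * (S.card : ℝ) ^ (1 - σ) + 2 / (1 - σ) * Δ ^ (-σ) * (S.card : ℝ) ^ (1 - σ) := add_le_add h1 h2
    _ = _ := by ring

/-- the Hilbert-Schmidt norm (squared) of the off-diagonal part of the Gram matrix -/
noncomputable def HS2 (N : ℕ) (S : Finset ℝ) (α : ℝ) : ℝ :=
  ∑ s ∈ S, ∑ x ∈ S.erase s, ‖EW (Icc 1 N) (fun n : ℕ => (x - s) * Real.log n) α‖ ^ 2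

/-- **its mean over the dilations** -/
theorem hs_mean (μ : Measure ℝ) [IsProbabilityMeasure μ] (C σ : ℝ) (hσ0 : 0 < σ) (hσ1 : σ < 1)
    (hdec : ∀ ξ : ℝ, 1 ≤ |ξ| → ‖charFun μ ξ‖ ≤ C * |ξ| ^ (-σ)) (N : ℕ) (S : Finset ℝ) (Δ : ℝ) (hΔ : 0 < Δ)
    (hsep : ∀ x ∈ S, ∀ y ∈ S, x ≠ y → Δ ≤ |x - y|) :
    Integrable (HS2 N S) μ ∧
    ∫ α, HS2 N S α ∂μ ≤ (S.card : ℝ) ^ 2 * N + 8 * (|C| + 1) / (1 - σ) ^ 2 * (N : ℝ) ^ 2 * Δ ^ (-σ) * (S.card : ℝ) ^ (2 - σ) := by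
  classical
  have hσ' : 0 < 1 - σ := by linarith
  have hint : ∀ s ∈ S, Integrable (fun α => ∑ x ∈ S.erase s, ‖EW (Icc 1 N) (fun n : ℕ => (x - s) * Real.log n) α‖ ^ 2) μ :=
    fun s _ => integrable_finsetSum _ fun x _ => EW_int μ _ _
  refine ⟨integrable_finsetSum _ hint, ?_⟩
  have e1 : ∫ α, HS2 N S α ∂μ = ∑ s ∈ S, ∑ x ∈ S.erase s, ∫ α, ‖EW (Icc 1 N) (fun n : ℕ => (x - s) * Real.log n) α‖ ^ 2 ∂μ := by
    unfold HS2
    rw [integral_finsetSum _ hint]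
    apply sum_congr rfl
    intro s _
    rw [integral_finsetSum _ fun x _ => EW_int μ _ _]
  rw [e1]
  rcases S.eq_empty_or_nonempty with hS0 | hS0
  · subst hS0
    simp
    positivity
  have hR0 : (0 : ℝ) < (S.card : ℝ) := by exact_mod_cast hS0.card_pos
  have hin : ∀ s ∈ S, ∑ x ∈ S.erase s, ∫ α, ‖EW (Icc 1 N) (fun n : ℕ => (x - s) * Real.log n) α‖ ^ 2 ∂μ ≤
      S.card * N + 8 * (|C| + 1) / (1 - σ) ^ 2 * (N : ℝ) ^ 2 * Δ ^ (-σ) * (S.card : ℝ) ^ (1 - σ) := by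
    intro s hs
    calc ∑ x ∈ S.erase s, ∫ α, ‖EW (Icc 1 N) (fun n : ℕ => (x - s) * Real.log n) α‖ ^ 2 ∂μ
        ≤ ∑ x ∈ S.erase s, ((N : ℝ) + 2 * (|C| + 1) / (1 - σ) * (N : ℝ) ^ 2 * |x - s| ^ (-σ)) := by
          apply sum_le_sum
          intro x hx
          rw [mem_erase] at hx
          exact zeta_moment μ C σ hσ0 hσ1 hdec N (x - s) (sub_ne_zero.2 hx.1)
      _ = ((S.erase s).card : ℝ) * N + 2 * (|C| + 1) / (1 - σ) * (N : ℝ) ^ 2 * ∑ x ∈ S.erase s, |x - s| ^ (-σ) := by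
          rw [sum_add_distrib, sum_const, nsmul_eq_mul, mul_sum]
      _ ≤ S.card * N + 2 * (|C| + 1) / (1 - σ) * (N : ℝ) ^ 2 * (4 / (1 - σ) * Δ ^ (-σ) * (S.card : ℝ) ^ (1 - σ)) := by
          apply add_le_add
          · apply mul_le_mul_of_nonneg_right _ (Nat.cast_nonneg _)
            exact_mod_cast card_le_card (erase_subset _ _)
          · exact mul_le_mul_of_nonneg_left (other_sum S Δ σ hΔ hσ0 hσ1 hsep s hs) (by positivity)
      _ = _ := by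
          field_simp
          ring
  calc _ ≤ ∑ _s ∈ S, (S.card * N + 8 * (|C| + 1) / (1 - σ) ^ 2 * (N : ℝ) ^ 2 * Δ ^ (-σ) * (S.card : ℝ) ^ (1 - σ)) := sum_le_sum hin
    _ = _ := by
        rw [sum_const, nsmul_eq_mul]
        have e2 : (S.card : ℝ) ^ (2 - σ) = S.card * (S.card : ℝ) ^ (1 - σ) := by
          rw [mul_comm, ← Real.rpow_add_one hR0.ne']
          congr 1
          ring
        rw [e2]
        ring

end Pool.Agent.V11290.VW
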