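import Pool.Agent.V11290.VW.D2

set_option autoImplicit false

/-! Duality: the large sieve inequality in terms of the Hilbert-Schmidt norm. -/

namespace Pool.Agent.V11290.VW

open Finset MeasureTheory ComplexConjugate

lemma npow_exp (n : ℕ) (hn : 1 ≤ n) (t : ℝ) :
    (n : ℂ) ^ (-((t : ℂ) * Complex.I)) = Complex.exp (((-(t * Real.log n) : ℝ) : ℂ) * Complex.I) := by
  have hn0 : (n : ℂ) ≠ 0 := by exact_mod_cast (by omega : n ≠ 0)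
  rw [Complex.cpow_def_of_ne_zero hn0, ← Complex.natCast_log]
  congr 1
  push_cast
  ring

/-- **the large sieve inequality** -/
theorem dual_ls (N : ℕ) (S : Finset ℝ) (α τ : ℝ) (a : ℕ → ℂ) :
    ∑ s ∈ S, ‖∑ n ∈ Icc 1 N, a n * (n : ℂ) ^ (-(((τ + α * s : ℝ) : ℂ) * Complex.I))‖ ^ 2 ≤
      (N + √(HS2 N S α)) * ∑ n ∈ Icc 1 N, ‖a n‖ ^ 2 := by
  classical
  obtain ⟨u, hu⟩ : ∃ u : ℝ → ℕ → ℂ, u = fun (s : ℝ) (n : ℕ) => (n : ℂ) ^ (-(((τ + α * s : ℝ) : ℂ) * Complex.I)) := ⟨_, rfl⟩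
  obtain ⟨P, hP⟩ : ∃ P : ℝ → ℂ, P = fun s => ∑ n ∈ Icc 1 N, a n * u s n := ⟨_, rfl⟩
  have eP : ∑ s ∈ S, ‖∑ n ∈ Icc 1 N, a n * (n : ℂ) ^ (-(((τ + α * s : ℝ) : ℂ) * Complex.I))‖ ^ 2 = ∑ s ∈ S, ‖P s‖ ^ 2 := by
    rw [hP, hu]
  rw [eP]
  obtain ⟨X, hX⟩ : ∃ X : ℝ, X = ∑ s ∈ S, ‖P s‖ ^ 2 := ⟨_, rfl⟩
  obtain ⟨Y, hY⟩ : ∃ Y : ℝ, Y = ∑ n ∈ Icc 1 N, ‖a n‖ ^ 2 := ⟨_, rfl⟩
  rw [← hX, ← hY]
  have hX0 : 0 ≤ X := by rw [hX]; exact sum_nonneg fun s _ => by positivity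
  have hY0 : 0 ≤ Y := by rw [hY]; exact sum_nonneg fun s _ => by positivity
  obtain ⟨H, hH⟩ : ∃ H : ℝ, H = HS2 N S α := ⟨_, rfl⟩
  have hH0 : 0 ≤ H := by
    rw [hH]
    exact sum_nonneg fun s _ => sum_nonneg fun x _ => by positivity
  rw [← hH]
  obtain ⟨W, hW⟩ : ∃ W : ℕ → ℂ, W = fun n => ∑ s ∈ S, conj (P s) * u s n := ⟨_, rfl⟩
  -- the correlations of the columns
  have hcol : ∀ s x : ℝ, ∑ n ∈ Icc 1 N, u s n * conj (u x n) = EW (Icc 1 N) (fun n : ℕ => (x - s) * Real.log n) α := by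
    intro s x
    unfold EW
    apply sum_congr rfl
    intro n hn
    rw [mem_Icc] at hn
    rw [hu]
    simp only
    rw [npow_exp n hn.1, npow_exp n hn.1, ← Complex.exp_conj, ← Complex.exp_add]
    congr 1
    rw [map_mul, Complex.conj_ofReal, Complex.conj_I]
    push_cast
    ring
  have hdiag : ∀ s : ℝ, ∑ n ∈ Icc 1 N, u s n * conj (u s n) = (N : ℂ) := by
    intro s
    rw [hcol s s]
    unfold EW
    simp
  -- duality
  have d1 : (X : ℂ) = ∑ n ∈ Icc 1 N, a n * W n := by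
    have e1 : (X : ℂ) = ∑ s ∈ S, conj (P s) * P s := by
      rw [hX]
      push_cast
      apply sum_congr rfl
      intro s _
      rw [Complex.conj_mul']
    rw [e1]
    have e2 : ∀ s ∈ S, conj (P s) * P s = ∑ n ∈ Icc 1 N, a n * (conj (P s) * u s n) := by
      intro s _
      conv_lhs => rw [show P s = ∑ n ∈ Icc 1 N, a n * u s n by rw [hP]]
      rw [mul_sum]
      apply sum_congr rfl
      intro n _
      rw [hP]
      ring
    rw [sum_congr rfl e2, sum_comm]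
    apply sum_congr rfl
    intro n _
    rw [hW]
    simp only
    rw [mul_sum]
  have d2 : X ^ 2 ≤ Y * ∑ n ∈ Icc 1 N, ‖W n‖ ^ 2 := by
    have e1 : X ≤ ∑ n ∈ Icc 1 N, ‖a n‖ * ‖W n‖ := by
      calc X = ‖(X : ℂ)‖ := by rw [Complex.norm_real, Real.norm_eq_abs, abs_of_nonneg hX0]
        _ ≤ ∑ n ∈ Icc 1 N, ‖a n * W n‖ := by rw [d1]; exact norm_sum_le _ _
        _ = _ := sum_congr rfl fun n _ => norm_mul _ _
    calc X ^ 2 ≤ (∑ n ∈ Icc 1 N, ‖a n‖ * ‖W n‖) ^ 2 := pow_le_pow_left₀ hX0 e1 2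
      _ ≤ (∑ n ∈ Icc 1 N, ‖a n‖ ^ 2) * ∑ n ∈ Icc 1 N, ‖W n‖ ^ 2 := sum_mul_sq_le_sq_mul_sq _ _ _
      _ = _ := by rw [hY]
  -- the norm of `W`
  have d3 : ((∑ n ∈ Icc 1 N, ‖W n‖ ^ 2 : ℝ) : ℂ) = ∑ s ∈ S, ∑ x ∈ S, conj (P s) * P x * ∑ n ∈ Icc 1 N, u s n * conj (u x n) := by
    push_cast
    have e1 : ∀ n ∈ Icc 1 N, ((‖W n‖ : ℂ)) ^ 2 = ∑ s ∈ S, ∑ x ∈ S, conj (P s) * P x * (u s n * conj (u x n)) := by
      intro n _
      rw [← Complex.mul_conj', hW]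
      simp only
      rw [map_sum, sum_mul_sum]
      apply sum_congr rfl
      intro s _
      apply sum_congr rfl
      intro x _
      rw [map_mul, Complex.conj_conj]
      ring
    rw [sum_congr rfl e1, sum_comm]
    apply sum_congr rfl
    intro s _
    rw [sum_comm]
    apply sum_congr rfl
    intro x _
    rw [mul_sum]
  have d4 : ∑ n ∈ Icc 1 N, ‖W n‖ ^ 2 ≤ N * X + ∑ s ∈ S, ∑ x ∈ S.erase s, (‖P s‖ * ‖P x‖) *
      ‖EW (Icc 1 N) (fun n : ℕ => (x - s) * Real.log n) α‖ := by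
    have h0 : 0 ≤ ∑ n ∈ Icc 1 N, ‖W n‖ ^ 2 := sum_nonneg fun n _ => by positivity
    have e0 : ∀ s ∈ S, ‖∑ x ∈ S, conj (P s) * P x * ∑ n ∈ Icc 1 N, u s n * conj (u x n)‖ ≤
        N * ‖P s‖ ^ 2 + ∑ x ∈ S.erase s, (‖P s‖ * ‖P x‖) * ‖EW (Icc 1 N) (fun n : ℕ => (x - s) * Real.log n) α‖ := by
      intro s hs
      rw [← add_sum_erase S _ hs, hdiag s]
      refine (norm_add_le _ _).trans (add_le_add ?_ ?_)
      · rw [norm_mul, norm_mul, RCLike.norm_conj, Complex.norm_natCast]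
        exact le_of_eq (by ring)
      · refine (norm_sum_le _ _).trans (le_of_eq ?_)
        apply sum_congr rfl
        intro x _
        rw [hcol s x, norm_mul, norm_mul, RCLike.norm_conj]
    calc ∑ n ∈ Icc 1 N, ‖W n‖ ^ 2 = ‖((∑ n ∈ Icc 1 N, ‖W n‖ ^ 2 : ℝ) : ℂ)‖ := by
          rw [Complex.norm_real, Real.norm_eq_abs, abs_of_nonneg h0]
      _ ≤ ∑ s ∈ S, ‖∑ x ∈ S, conj (P s) * P x * ∑ n ∈ Icc 1 N, u s n * conj (u x n)‖ := by
          rw [d3]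
          exact norm_sum_le _ _
      _ ≤ ∑ s ∈ S, (N * ‖P s‖ ^ 2 + ∑ x ∈ S.erase s, (‖P s‖ * ‖P x‖) *
            ‖EW (Icc 1 N) (fun n : ℕ => (x - s) * Real.log n) α‖) := sum_le_sum e0
      _ = _ := by rw [sum_add_distrib, ← mul_sum, ← hX]
  have d5 : ∑ s ∈ S, ∑ x ∈ S.erase s, (‖P s‖ * ‖P x‖) * ‖EW (Icc 1 N) (fun n : ℕ => (x - s) * Real.log n) α‖ ≤ X * √H := by
    have h1 := sum_mul_sq_le_sq_mul_sq (S.sigma fun s => S.erase s) (fun p : (_ : ℝ) × ℝ => ‖P p.1‖ * ‖P p.2‖)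
      (fun p => ‖EW (Icc 1 N) (fun n : ℕ => (p.2 - p.1) * Real.log n) α‖)
    rw [sum_sigma, sum_sigma, sum_sigma] at h1
    simp only at h1
    have h2 : ∑ s ∈ S, ∑ x ∈ S.erase s, (‖P s‖ * ‖P x‖) ^ 2 ≤ X ^ 2 := by
      calc ∑ s ∈ S, ∑ x ∈ S.erase s, (‖P s‖ * ‖P x‖) ^ 2 ≤ ∑ s ∈ S, ∑ x ∈ S, (‖P s‖ * ‖P x‖) ^ 2 :=
            sum_le_sum fun s _ => sum_le_sum_of_subset_of_nonneg (erase_subset _ _) fun x _ _ => by positivity
        _ = X ^ 2 := by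
            rw [hX, sq, sum_mul_sum]
            apply sum_congr rfl
            intro s _
            apply sum_congr rfl
            intro x _
            ring
    have h3 : ∑ s ∈ S, ∑ x ∈ S.erase s, ‖EW (Icc 1 N) (fun n : ℕ => (x - s) * Real.log n) α‖ ^ 2 = H := by
      rw [hH]
      rfl
    rw [h3] at h1
    apply le_of_sq_le_sq _ (by positivity)
    rw [mul_pow, Real.sq_sqrt hH0]
    exact h1.trans (mul_le_mul_of_nonneg_right h2 hH0)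
  rcases hX0.lt_or_eq with hXp | hXz
  · have h1 : X ^ 2 ≤ (Y * (N + √H)) * X := by
      calc X ^ 2 ≤ Y * ∑ n ∈ Icc 1 N, ‖W n‖ ^ 2 := d2
        _ ≤ Y * (N * X + X * √H) := mul_le_mul_of_nonneg_left (d4.trans (by linarith)) hY0
        _ = _ := by ring
    rw [sq] at h1
    have h2 := le_of_mul_le_mul_right h1 hXp
    linarith
  · rw [← hXz]
    have := Real.sqrt_nonneg H
    positivity

end Pool.Agent.V11290.VW
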