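import Pool.Agent.V11290.VW.D3

set_option autoImplicit false

/-! Large values of Dirichlet polynomials at typical dilates of well-spaced sets. -/

namespace Pool.Agent.V11290.VW

open Finset MeasureTheory

/-- the constant -/
noncomputable def K₀ (C σ : ℝ) : ℝ := 8 * (|C| + 1) / (1 - σ) ^ 2

lemma K₀_nonneg (C σ : ℝ) : 0 ≤ K₀ C σ := by
  unfold K₀
  positivity

/-- the Hilbert-Schmidt norm is small outside a set of small measure -/
theorem hs_meas (μ : Measure ℝ) [IsProbabilityMeasure μ] (C σ : ℝ) (hσ0 : 0 < σ) (hσ1 : σ < 1)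
    (hdec : ∀ ξ : ℝ, 1 ≤ |ξ| → ‖charFun μ ξ‖ ≤ C * |ξ| ^ (-σ)) (N : ℕ) (S : Finset ℝ) (Δ : ℝ) (hΔ : 0 < Δ)
    (hsep : ∀ x ∈ S, ∀ y ∈ S, x ≠ y → Δ ≤ |x - y|) (M : ℝ) (hM : 0 < M) :
    μ {α | ¬ √(HS2 N S α) ≤ √M * (S.card * √N + √(K₀ C σ) * N * Δ ^ (-(σ / 2)) * (S.card : ℝ) ^ (1 - σ / 2))} ≤
      ENNReal.ofReal (1 / M) := by
  obtain ⟨h1, h2⟩ := hs_mean μ C σ hσ0 hσ1 hdec N S Δ hΔ hsep
  obtain ⟨Q, hQ⟩ : ∃ Q : ℝ, Q = (S.card : ℝ) ^ 2 * N + K₀ C σ * (N : ℝ) ^ 2 * Δ ^ (-σ) * (S.card : ℝ) ^ (2 - σ) := ⟨_, rfl⟩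
  have h3 : ∫ α, HS2 N S α ∂μ ≤ Q := by
    rw [hQ]
    exact h2
  have hK := K₀_nonneg C σ
  have hQ0 : 0 ≤ Q := by rw [hQ]; positivity
  have hH0 : ∀ α, 0 ≤ HS2 N S α := fun α => sum_nonneg fun s _ => sum_nonneg fun x _ => by positivity
  -- if `Q = 0` the integral vanishes
  have hsub : {α | ¬ √(HS2 N S α) ≤ √M * (S.card * √N + √(K₀ C σ) * N * Δ ^ (-(σ / 2)) * (S.card : ℝ) ^ (1 - σ / 2))} ⊆
      {α | M * Q < HS2 N S α} := by
    intro α hα
    by_contra hcon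
    apply hα
    have hcon' : HS2 N S α ≤ M * Q := not_lt.1 hcon
    have e1 : √(HS2 N S α) ≤ √(M * Q) := Real.sqrt_le_sqrt hcon'
    refine e1.trans ?_
    rw [Real.sqrt_mul hM.le]
    apply mul_le_mul_of_nonneg_left _ (Real.sqrt_nonneg M)
    have hR : (0 : ℝ) ≤ S.card := Nat.cast_nonneg _
    have g1 : √((S.card : ℝ) ^ 2 * N) = S.card * √N := by
      rw [Real.sqrt_mul (by positivity), Real.sqrt_sq hR]
    have g2 : √(K₀ C σ * (N : ℝ) ^ 2 * Δ ^ (-σ) * (S.card : ℝ) ^ (2 - σ)) =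
        √(K₀ C σ) * N * Δ ^ (-(σ / 2)) * (S.card : ℝ) ^ (1 - σ / 2) := by
      rw [Real.sqrt_mul (by positivity), Real.sqrt_mul (by positivity), Real.sqrt_mul hK, Real.sqrt_sq (Nat.cast_nonneg N)]
      congr 1
      · congr 1
        rw [Real.sqrt_eq_rpow, ← Real.rpow_mul hΔ.le]
        congr 1
        ring
      · rw [Real.sqrt_eq_rpow, ← Real.rpow_mul hR]
        congr 1
        ring
    rw [hQ, ← g1, ← g2]
    obtain ⟨x, hx⟩ : ∃ x : ℝ, x = (S.card : ℝ) ^ 2 * N := ⟨_, rfl⟩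
    obtain ⟨y, hy⟩ : ∃ y : ℝ, y = K₀ C σ * (N : ℝ) ^ 2 * Δ ^ (-σ) * (S.card : ℝ) ^ (2 - σ) := ⟨_, rfl⟩
    have hx0 : 0 ≤ x := by rw [hx]; positivity
    have hy0 : 0 ≤ y := by rw [hy]; positivity
    rw [← hx, ← hy]
    rw [Real.sqrt_le_iff]
    refine ⟨by positivity, ?_⟩
    have i1 := Real.sq_sqrt hx0
    have i2 := Real.sq_sqrt hy0
    have i3 : 0 ≤ √x * √y := by positivity
    nlinarith
  refine (measure_mono hsub).trans ?_
  rcases hQ0.lt_or_eq with hQp | hQz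
  · have hmark := mul_meas_ge_le_integral_of_nonneg (μ := μ) (f := HS2 N S) (Filter.Eventually.of_forall hH0) h1 (M * Q)
    have hsub2 : {α | M * Q < HS2 N S α} ⊆ {α | M * Q ≤ HS2 N S α} := by
      intro α hα
      have hα' : M * Q < HS2 N S α := hα
      exact hα'.le
    refine (measure_mono hsub2).trans ?_
    rw [← ofReal_measureReal]
    apply ENNReal.ofReal_le_ofReal
    rw [le_div_iff₀ hM]
    have h4 := hmark.trans h3
    have h5 : (μ.real {α | M * Q ≤ HS2 N S α} * M) * Q ≤ 1 * Q := by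
      calc _ = M * Q * μ.real {α | M * Q ≤ HS2 N S α} := by ring
        _ ≤ Q := h4
        _ = _ := by ring
    exact le_of_mul_le_mul_right h5 hQp
  · have h4 : ∫ α, HS2 N S α ∂μ = 0 := le_antisymm (by rw [hQz]; exact h3) (integral_nonneg hH0)
    rw [integral_eq_zero_iff_of_nonneg hH0 h1] at h4
    have h5 : μ {α | M * Q < HS2 N S α} = 0 := by
      refine measure_mono_null ?_ h4
      intro α hα
      rw [← hQz, mul_zero] at hα
      exact ne_of_gt hα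
    rw [h5]
    exact zero_le

end Pool.Agent.V11290.VW
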