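import Mathlib

set_option autoImplicit false

/-! The dyadic decomposition of partial sums (copied from the starting file `Pool.Agent.Y933.KI.Dyad`). -/

namespace Pool.Agent.V11290.VW

lemma dyad_step (z : ℕ → ℂ) {p L l : ℕ} (hp : p ≤ 2 ^ L) (hl : l ≤ L) :
    ‖∑ k ∈ Finset.range (p / 2 ^ l * 2 ^ l), z k -
      ∑ k ∈ Finset.range (p / 2 ^ (l + 1) * 2 ^ (l + 1)), z k‖ ^ 2 ≤
    ∑ j ∈ Finset.range (2 ^ (L - l)), ‖∑ i ∈ Finset.range (2 ^ l), z (j * 2 ^ l + i)‖ ^ 2 := by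
  have h1 : p / 2 ^ (l + 1) = p / 2 ^ l / 2 := by
    rw [Nat.div_div_eq_div_mul, pow_succ]
  rw [h1]
  set t := p / 2 ^ l with ht
  rcases Nat.even_or_odd' t with ⟨s, hs | hs⟩
  · have h2 : t / 2 * 2 ^ (l + 1) = t * 2 ^ l := by
      rw [hs, Nat.mul_div_cancel_left _ (by norm_num), pow_succ]
      ring
    rw [h2, sub_self]
    simp only [norm_zero]
    rw [zero_pow (by norm_num)]
    exact Finset.sum_nonneg (fun i _ => by positivity)
  · have h2 : t / 2 * 2 ^ (l + 1) = 2 * s * 2 ^ l := by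
      have : t / 2 = s := by omega
      rw [this, pow_succ]
      ring
    have h3 : t * 2 ^ l = 2 * s * 2 ^ l + 2 ^ l := by
      rw [hs]
      ring
    rw [h2, h3, Finset.sum_range_add, add_sub_cancel_left]
    have h4 : 2 * s ∈ Finset.range (2 ^ (L - l)) := by
      rw [Finset.mem_range]
      have h5 : t * 2 ^ l ≤ p := Nat.div_mul_le_self p (2 ^ l)
      have h6 : 2 ^ L = 2 ^ (L - l) * 2 ^ l := by
        rw [← pow_add, Nat.sub_add_cancel hl]
      have h7 : t ≤ 2 ^ (L - l) := by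
        have : t * 2 ^ l ≤ 2 ^ (L - l) * 2 ^ l := by
          rw [← h6]
          exact h5.trans hp
        exact Nat.le_of_mul_le_mul_right this (by positivity)
      omega
    exact Finset.single_le_sum (f := fun j => ‖∑ i ∈ Finset.range (2 ^ l), z (j * 2 ^ l + i)‖ ^ 2)
      (fun i _ => by positivity) h4

/-- The initial sums of length at most `2 ^ L`. -/
lemma dyad (z : ℕ → ℂ) {p L : ℕ} (hp : p ≤ 2 ^ L) :
    ‖∑ k ∈ Finset.range p, z k‖ ^ 2 ≤ (L + 1) * ∑ l ∈ Finset.range (L + 1),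
      ∑ j ∈ Finset.range (2 ^ (L - l)), ‖∑ i ∈ Finset.range (2 ^ l), z (j * 2 ^ l + i)‖ ^ 2 := by
  have e := Finset.sum_range_sub' (fun l => ∑ k ∈ Finset.range (p / 2 ^ l * 2 ^ l), z k) (L + 1)
  have e2 : p / 2 ^ (L + 1) = 0 := by
    apply Nat.div_eq_of_lt
    refine hp.trans_lt (Nat.pow_lt_pow_right (by norm_num) (Nat.lt_succ_self L))
  simp only [pow_zero, Nat.div_one, mul_one, e2, zero_mul, Finset.range_zero, Finset.sum_empty,
    sub_zero] at e
  rw [← e]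
  calc ‖∑ l ∈ Finset.range (L + 1), (∑ k ∈ Finset.range (p / 2 ^ l * 2 ^ l), z k -
          ∑ k ∈ Finset.range (p / 2 ^ (l + 1) * 2 ^ (l + 1)), z k)‖ ^ 2
      ≤ (∑ l ∈ Finset.range (L + 1), ‖∑ k ∈ Finset.range (p / 2 ^ l * 2 ^ l), z k -
          ∑ k ∈ Finset.range (p / 2 ^ (l + 1) * 2 ^ (l + 1)), z k‖) ^ 2 :=
        pow_le_pow_left₀ (norm_nonneg _) (norm_sum_le _ _) 2
    _ ≤ ((Finset.range (L + 1)).card : ℝ) * ∑ l ∈ Finset.range (L + 1),
          ‖∑ k ∈ Finset.range (p / 2 ^ l * 2 ^ l), z k -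
          ∑ k ∈ Finset.range (p / 2 ^ (l + 1) * 2 ^ (l + 1)), z k‖ ^ 2 :=
        sq_sum_le_card_mul_sum_sq
    _ ≤ _ := by
        rw [Finset.card_range]
        push_cast
        refine mul_le_mul_of_nonneg_left (Finset.sum_le_sum (fun l hl => ?_)) (by positivity)
        exact dyad_step z hp (by have := Finset.mem_range.mp hl; omega)


end Pool.Agent.V11290.VW
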