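import Pool.Agent.V11290.VW.D1
import Pool.Agent.V11290.VW.E0

set_option autoImplicit false

/-! Exponential sums with coefficients and separated frequencies: second moments over measures with Fourier decay. -/

namespace Pool.Agent.V11290.VW

open Finset MeasureTheory ComplexConjugate

/-- an exponential sum with coefficients -/
noncomputable def EC (H : ℕ) (c : ℕ → ℂ) (ω : ℕ → ℝ) (α : ℝ) : ℂ :=
  ∑ m ∈ range H, c m * Complex.exp (((ω m : ℝ) : ℂ) * α * Complex.I)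

lemma EC_sq (H : ℕ) (c : ℕ → ℂ) (ω : ℕ → ℝ) (α : ℝ) : ((‖EC H c ω α‖ ^ 2 : ℝ) : ℂ) =
    ∑ m ∈ range H, ∑ n ∈ range H, c m * conj (c n) * Complex.exp (((ω m - ω n : ℝ) : ℂ) * α * Complex.I) := by
  rw [Complex.ofReal_pow, ← Complex.mul_conj']
  unfold EC
  rw [map_sum, sum_mul_sum]
  apply sum_congr rfl
  intro m _
  apply sum_congr rfl
  intro n _
  rw [map_mul, ← Complex.exp_conj]
  have e1 : conj ((((ω n : ℝ) : ℂ) * α * Complex.I)) = -(((ω n : ℝ) : ℂ) * α * Complex.I) := by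
    rw [map_mul, map_mul, Complex.conj_ofReal, Complex.conj_ofReal, Complex.conj_I]
    ring
  rw [e1]
  have e2 : c m * Complex.exp (((ω m : ℝ) : ℂ) * α * Complex.I) * (conj (c n) * Complex.exp (-(((ω n : ℝ) : ℂ) * α * Complex.I))) =
      c m * conj (c n) * (Complex.exp (((ω m : ℝ) : ℂ) * α * Complex.I) * Complex.exp (-(((ω n : ℝ) : ℂ) * α * Complex.I))) := by ring
  rw [e2, ← Complex.exp_add]
  congr 2
  push_cast
  ring

lemma EC_int (μ : Measure ℝ) [IsProbabilityMeasure μ] (H : ℕ) (c : ℕ → ℂ) (ω : ℕ → ℝ) :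
    Integrable (fun α => ‖EC H c ω α‖ ^ 2) μ := by
  have h : Integrable (fun α : ℝ => ((‖EC H c ω α‖ ^ 2 : ℝ) : ℂ)) μ := by
    have e : (fun α : ℝ => ((‖EC H c ω α‖ ^ 2 : ℝ) : ℂ)) = fun α : ℝ => ∑ m ∈ range H, ∑ n ∈ range H,
        c m * conj (c n) * Complex.exp (((ω m - ω n : ℝ) : ℂ) * α * Complex.I) := by
      ext α
      exact EC_sq H c ω α
    rw [e]
    exact integrable_finsetSum _ fun m _ => integrable_finsetSum _ fun n _ => (exp_int μ _).const_mul _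
  have e : (fun α => ‖EC H c ω α‖ ^ 2) = fun α => (((‖EC H c ω α‖ ^ 2 : ℝ) : ℂ)).re := by
    ext α
    rw [Complex.ofReal_re]
  rw [e]
  exact h.re

lemma EC_moment (μ : Measure ℝ) [IsProbabilityMeasure μ] (H : ℕ) (c : ℕ → ℂ) (ω : ℕ → ℝ) :
    ∫ α, ‖EC H c ω α‖ ^ 2 ∂μ ≤ ∑ m ∈ range H, ∑ n ∈ range H, ‖c m‖ * ‖c n‖ * ‖charFun μ (ω m - ω n)‖ := by
  have h0 : 0 ≤ ∫ α, ‖EC H c ω α‖ ^ 2 ∂μ := integral_nonneg fun α => by positivity
  have h1 : ((∫ α, ‖EC H c ω α‖ ^ 2 ∂μ : ℝ) : ℂ) = ∑ m ∈ range H, ∑ n ∈ range H, c m * conj (c n) * charFun μ (ω m - ω n) := by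
    rw [← integral_complex_ofReal]
    simp_rw [EC_sq]
    rw [integral_finsetSum _ fun m _ => integrable_finsetSum _ fun n _ => (exp_int μ _).const_mul _]
    apply sum_congr rfl
    intro m _
    rw [integral_finsetSum _ fun n _ => (exp_int μ _).const_mul _]
    apply sum_congr rfl
    intro n _
    rw [integral_const_mul, charFun_apply_real]
  have h2 : ∫ α, ‖EC H c ω α‖ ^ 2 ∂μ = ‖((∫ α, ‖EC H c ω α‖ ^ 2 ∂μ : ℝ) : ℂ)‖ := by
    rw [Complex.norm_real, Real.norm_eq_abs, abs_of_nonneg h0]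
  rw [h2, h1]
  refine (norm_sum_le _ _).trans (sum_le_sum fun m _ => (norm_sum_le _ _).trans (sum_le_sum fun n _ => ?_))
  rw [norm_mul, norm_mul, RCLike.norm_conj]

/-- the constant in the moments -/
noncomputable def K₁ (C σ : ℝ) : ℝ := 2 * (|C| + 1) / (1 - σ)

lemma EC_block (μ : Measure ℝ) [IsProbabilityMeasure μ] (C σ : ℝ) (hσ0 : 0 < σ) (hσ1 : σ < 1)
    (hdec : ∀ ξ : ℝ, 1 ≤ |ξ| → ‖charFun μ ξ‖ ≤ C * |ξ| ^ (-σ)) (H : ℕ) (c : ℕ → ℂ) (ω : ℕ → ℝ) (g : ℝ) (hg : 0 < g)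
    (hc : ∀ n, ‖c n‖ ≤ 1) (hgap : ∀ m n : ℕ, m < n → n < H → c m ≠ 0 → c n ≠ 0 → g * ((n : ℝ) - m) ≤ |ω m - ω n|) :
    ∫ α, ‖EC H c ω α‖ ^ 2 ∂μ ≤ H + K₁ C σ * g ^ (-σ) * (H : ℝ) ^ (2 - σ) := by
  have hσ' : 0 < 1 - σ := by linarith
  obtain ⟨D, hD⟩ : ∃ D : ℝ, D = (|C| + 1) * g ^ (-σ) := ⟨_, rfl⟩
  have hD0 : 0 ≤ D := by rw [hD]; positivity
  have hg1 : ∀ m n : ℕ, m < n → n < H → c m ≠ 0 → c n ≠ 0 → ∀ ξ : ℝ, |ξ| = |ω m - ω n| → ‖charFun μ ξ‖ ≤ D * ((n : ℝ) - m) ^ (-σ) := by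
    intro m n hmn hn h1 h2 ξ hξ
    have h3 := hgap m n hmn hn h1 h2
    have h4 : (0 : ℝ) < (n : ℝ) - m := by
      have : (m : ℝ) < n := by exact_mod_cast hmn
      linarith
    rw [← hξ] at h3
    have h5 : 0 < |ξ| := lt_of_lt_of_le (by positivity) h3
    refine (char_bound μ hσ0.le hdec ξ (abs_pos.1 h5)).trans ?_
    have h6 : |ξ| ^ (-σ) ≤ (g * ((n : ℝ) - m)) ^ (-σ) := Real.rpow_le_rpow_of_nonpos (by positivity) h3 (by linarith)
    rw [Real.mul_rpow hg.le h4.le] at h6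
    calc (|C| + 1) * |ξ| ^ (-σ) ≤ (|C| + 1) * (g ^ (-σ) * ((n : ℝ) - m) ^ (-σ)) := mul_le_mul_of_nonneg_left h6 (by positivity)
      _ = _ := by rw [hD]; ring
  obtain ⟨G, hG⟩ : ∃ G : ℕ → ℕ → ℝ, G = fun m n : ℕ => if m < n then D * ((n : ℝ) - m) ^ (-σ) else 0 := ⟨_, rfl⟩
  obtain ⟨E, hE⟩ : ∃ E : ℕ → ℕ → ℝ, E = fun m n => if m = n then (1 : ℝ) else 0 := ⟨_, rfl⟩
  have hG0 : ∀ m n, 0 ≤ G m n := by
    intro m n
    rw [hG]
    simp only
    split_ifs with h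
    · have : (0 : ℝ) ≤ (n : ℝ) - m := by
        have : (m : ℝ) < n := by exact_mod_cast h
        linarith
      positivity
    · exact le_rfl
  have hE0 : ∀ m n, 0 ≤ E m n := by
    intro m n
    rw [hE]
    simp only
    split_ifs <;> norm_num
  have hpt : ∀ m ∈ range H, ∀ n ∈ range H, ‖c m‖ * ‖c n‖ * ‖charFun μ (ω m - ω n)‖ ≤ G m n + G n m + E m n := by
    intro m hm n hn
    rw [mem_range] at hm hn
    have hx0 := hG0 m n
    have hx1 := hG0 n m
    have hx2 := hE0 m n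
    by_cases hcm : c m = 0
    · rw [hcm, norm_zero, zero_mul, zero_mul]
      linarith
    by_cases hcn : c n = 0
    · rw [hcn, norm_zero, mul_zero, zero_mul]
      linarith
    have hcc : ‖c m‖ * ‖c n‖ * ‖charFun μ (ω m - ω n)‖ ≤ ‖charFun μ (ω m - ω n)‖ := by
      have h1 : ‖c m‖ * ‖c n‖ ≤ 1 := mul_le_one₀ (hc m) (norm_nonneg _) (hc n)
      exact mul_le_of_le_one_left (norm_nonneg _) h1
    refine hcc.trans ?_
    rcases lt_trichotomy m n with h | h | h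
    · have h3 := hg1 m n h hn hcm hcn (ω m - ω n) rfl
      have hG1 : G m n = D * ((n : ℝ) - m) ^ (-σ) := by rw [hG]; simp only; rw [if_pos h]
      rw [← hG1] at h3
      linarith
    · subst h
      have hH1 : E m m = 1 := by rw [hE]; simp only; rw [if_pos trivial]
      have := norm_charFun_le_one (μ := μ) (ω m - ω m)
      linarith
    · have h3 := hg1 n m h hm hcn hcm (ω m - ω n) (abs_sub_comm _ _)
      have hG1 : G n m = D * ((m : ℝ) - n) ^ (-σ) := by rw [hG]; simp only; rw [if_pos h]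
      rw [← hG1] at h3
      linarith
  have hin : ∀ n ∈ range H, ∑ m ∈ range H, G m n ≤ D * ((H : ℝ) ^ (1 - σ) / (1 - σ)) := by
    intro n hn
    rw [mem_range] at hn
    have e1 : ∑ m ∈ range H, G m n = ∑ m ∈ range n, D * ((n : ℝ) - m) ^ (-σ) := by
      rw [hG]
      simp only
      rw [← sum_filter]
      apply sum_congr _ fun _ _ => rfl
      ext m
      simp only [mem_filter, mem_range]
      omega
    have e2 : ∑ m ∈ range n, ((n : ℝ) - m) ^ (-σ) = ∑ m ∈ Icc 1 n, (m : ℝ) ^ (-σ) := by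
      apply sum_nbij' (fun m => n - m) (fun m => n - m)
      · intro m hm
        rw [mem_range] at hm
        rw [mem_Icc]
        omega
      · intro m hm
        rw [mem_Icc] at hm
        rw [mem_range]
        omega
      · intro m hm
        rw [mem_range] at hm
        omega
      · intro m hm
        rw [mem_Icc] at hm
        omega
      · intro m hm
        rw [mem_range] at hm
        rw [Nat.cast_sub hm.le]
    rw [e1, ← mul_sum, e2]
    apply mul_le_mul_of_nonneg_left _ hD0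
    refine (sum_pow σ hσ0.le hσ1 n).trans ?_
    apply div_le_div_of_nonneg_right _ hσ'.le
    exact Real.rpow_le_rpow (Nat.cast_nonneg _) (by exact_mod_cast hn.le) hσ'.le
  have hdi : ∀ n ∈ range H, ∑ m ∈ range H, E m n = 1 := by
    intro n hn
    rw [hE]
    simp only
    rw [sum_ite_eq', if_pos hn]
  refine (EC_moment μ _ _ _).trans ?_
  calc ∑ m ∈ range H, ∑ n ∈ range H, ‖c m‖ * ‖c n‖ * ‖charFun μ (ω m - ω n)‖
      ≤ ∑ m ∈ range H, ∑ n ∈ range H, (G m n + G n m + E m n) := sum_le_sum fun m hm => sum_le_sum fun n hn => hpt m hm n hn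
    _ = (∑ m ∈ range H, ∑ n ∈ range H, G m n) + (∑ m ∈ range H, ∑ n ∈ range H, G n m) + ∑ m ∈ range H, ∑ n ∈ range H, E m n := by
        simp only [sum_add_distrib]
    _ = 2 * (∑ n ∈ range H, ∑ m ∈ range H, G m n) + ∑ n ∈ range H, ∑ m ∈ range H, E m n := by
        rw [sum_comm (f := fun m n => G m n), sum_comm (f := fun m n => E m n)]
        ring
    _ ≤ 2 * (∑ _n ∈ range H, D * ((H : ℝ) ^ (1 - σ) / (1 - σ))) + ∑ _n ∈ range H, (1 : ℝ) :=
        add_le_add (mul_le_mul_of_nonneg_left (sum_le_sum hin) (by norm_num)) (le_of_eq (sum_congr rfl hdi))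
    _ = _ := by
        rw [sum_const, sum_const, card_range, nsmul_eq_mul, nsmul_eq_mul, mul_one, hD]
        unfold K₁
        rcases Nat.eq_zero_or_pos H with h | h
        · rw [h, Nat.cast_zero, Real.zero_rpow (ne_of_gt (show (0 : ℝ) < 1 - σ by linarith)),
            Real.zero_rpow (ne_of_gt (show (0 : ℝ) < 2 - σ by linarith))]
          ring
        · have hH0 : (0 : ℝ) < H := by exact_mod_cast h
          have e3 : (H : ℝ) ^ (2 - σ) = H * (H : ℝ) ^ (1 - σ) := by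
            rw [show (2 - σ) = 1 + (1 - σ) by ring, Real.rpow_add hH0, Real.rpow_one]
          rw [e3]
          ring

end Pool.Agent.V11290.VW
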