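import Pool.Agent.V11290.VW.E1

set_option autoImplicit false

/-! The maximal inequality for exponential sums over measures with Fourier decay. -/

namespace Pool.Agent.V11290.VW

open Finset MeasureTheory ComplexConjugate

/-- the square function -/
noncomputable def SQ (L : ℕ) (c : ℕ → ℂ) (ω : ℕ → ℝ) (α : ℝ) : ℝ :=
  ∑ l ∈ range (L + 1), ∑ j ∈ range (2 ^ (L - l)), ‖EC (2 ^ l) (fun i => c (j * 2 ^ l + i)) (fun i => ω (j * 2 ^ l + i)) α‖ ^ 2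

lemma SQ_nonneg (L : ℕ) (c : ℕ → ℂ) (ω : ℕ → ℝ) (α : ℝ) : 0 ≤ SQ L c ω α :=
  sum_nonneg fun _ _ => sum_nonneg fun _ _ => by positivity

lemma SQ_int (μ : Measure ℝ) [IsProbabilityMeasure μ] (L : ℕ) (c : ℕ → ℂ) (ω : ℕ → ℝ) : Integrable (SQ L c ω) μ := by
  unfold SQ
  exact integrable_finsetSum _ fun l _ => integrable_finsetSum _ fun j _ => EC_int μ _ _ _

lemma SQ_moment (μ : Measure ℝ) [IsProbabilityMeasure μ] (C σ : ℝ) (hσ0 : 0 < σ) (hσ1 : σ < 1)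
    (hdec : ∀ ξ : ℝ, 1 ≤ |ξ| → ‖charFun μ ξ‖ ≤ C * |ξ| ^ (-σ)) (L : ℕ) (c : ℕ → ℂ) (ω : ℕ → ℝ) (g : ℝ) (hg : 0 < g)
    (hc : ∀ n, ‖c n‖ ≤ 1) (hgap : ∀ m n : ℕ, m < n → c m ≠ 0 → c n ≠ 0 → g * ((n : ℝ) - m) ≤ |ω m - ω n|) :
    ∫ α, SQ L c ω α ∂μ ≤ (L + 1) * (2 ^ L + K₁ C σ * g ^ (-σ) * ((2 : ℝ) ^ L) ^ (2 - σ)) := by
  have hK : 0 ≤ K₁ C σ := by
    unfold K₁
    have : 0 < 1 - σ := by linarith
    positivity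
  unfold SQ
  rw [integral_finsetSum _ fun l _ => integrable_finsetSum _ fun j _ => EC_int μ _ _ _]
  have h1 : ∀ l ∈ range (L + 1), ∫ α, ∑ j ∈ range (2 ^ (L - l)), ‖EC (2 ^ l) (fun i => c (j * 2 ^ l + i)) (fun i => ω (j * 2 ^ l + i)) α‖ ^ 2 ∂μ ≤
      2 ^ L + K₁ C σ * g ^ (-σ) * ((2 : ℝ) ^ L) ^ (2 - σ) := by
    intro l hl
    rw [mem_range] at hl
    rw [integral_finsetSum _ fun j _ => EC_int μ _ _ _]
    have h2 : ∀ j ∈ range (2 ^ (L - l)), ∫ α, ‖EC (2 ^ l) (fun i => c (j * 2 ^ l + i)) (fun i => ω (j * 2 ^ l + i)) α‖ ^ 2 ∂μ ≤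
        2 ^ l + K₁ C σ * g ^ (-σ) * ((2 : ℝ) ^ l) ^ (2 - σ) := by
      intro j _
      have h3 := EC_block μ C σ hσ0 hσ1 hdec (2 ^ l) (fun i => c (j * 2 ^ l + i)) (fun i => ω (j * 2 ^ l + i)) g hg (fun n => hc _) (by
        intro m n hmn _ h1 h2
        have := hgap (j * 2 ^ l + m) (j * 2 ^ l + n) (by omega) h1 h2
        refine le_trans (le_of_eq ?_) this
        push_cast
        ring)
      push_cast at h3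
      exact h3
    refine (sum_le_sum h2).trans ?_
    rw [sum_const, card_range, nsmul_eq_mul]
    push_cast
    have e1 : (2 : ℝ) ^ (L - l) * 2 ^ l = 2 ^ L := by
      rw [← pow_add]
      congr 1
      omega
    have h4 : ((2 : ℝ) ^ l) ^ (2 - σ) ≤ 2 ^ l * ((2 : ℝ) ^ L) ^ (1 - σ) := by
      have h5 : (0 : ℝ) < 2 ^ l := by positivity
      rw [show (2 - σ) = 1 + (1 - σ) by ring, Real.rpow_add h5, Real.rpow_one]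
      apply mul_le_mul_of_nonneg_left _ h5.le
      apply Real.rpow_le_rpow h5.le _ (by linarith)
      exact pow_le_pow_right₀ (by norm_num) (by omega)
    have h6 : ((2 : ℝ) ^ L) ^ (2 - σ) = 2 ^ L * ((2 : ℝ) ^ L) ^ (1 - σ) := by
      have h5 : (0 : ℝ) < 2 ^ L := by positivity
      rw [show (2 - σ) = 1 + (1 - σ) by ring, Real.rpow_add h5, Real.rpow_one]
    calc (2 : ℝ) ^ (L - l) * (2 ^ l + K₁ C σ * g ^ (-σ) * ((2 : ℝ) ^ l) ^ (2 - σ)) ≤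
          (2 : ℝ) ^ (L - l) * (2 ^ l + K₁ C σ * g ^ (-σ) * (2 ^ l * ((2 : ℝ) ^ L) ^ (1 - σ))) := by gcongr
      _ = (2 : ℝ) ^ (L - l) * 2 ^ l + K₁ C σ * g ^ (-σ) * (((2 : ℝ) ^ (L - l) * 2 ^ l) * ((2 : ℝ) ^ L) ^ (1 - σ)) := by ring
      _ = _ := by rw [e1, h6]
  refine (sum_le_sum h1).trans (le_of_eq ?_)
  rw [sum_const, card_range, nsmul_eq_mul]
  push_cast
  ring

/-- all the sums over intervals -/
lemma interval_le (L : ℕ) (c : ℕ → ℂ) (ω : ℕ → ℝ) (α : ℝ) (P Q : ℕ) (hPQ : P ≤ Q) (hQ : Q ≤ 2 ^ L) :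
    ‖∑ k ∈ Ico P Q, c k * Complex.exp (((ω k : ℝ) : ℂ) * α * Complex.I)‖ ^ 2 ≤ 4 * (L + 1) * SQ L c ω α := by
  obtain ⟨z, hz⟩ : ∃ z : ℕ → ℂ, z = fun k => c k * Complex.exp (((ω k : ℝ) : ℂ) * α * Complex.I) := ⟨_, rfl⟩
  have key : ∀ p : ℕ, p ≤ 2 ^ L → ‖∑ k ∈ range p, z k‖ ^ 2 ≤ (L + 1) * SQ L c ω α := by
    intro p hp
    refine (dyad z hp).trans (le_of_eq ?_)
    rw [hz]
    rfl
  have h1 := key P (hPQ.trans hQ)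
  have h2 := key Q hQ
  have e1 : ∑ k ∈ Ico P Q, c k * Complex.exp (((ω k : ℝ) : ℂ) * α * Complex.I) = ∑ k ∈ range Q, z k - ∑ k ∈ range P, z k := by
    rw [sum_Ico_eq_sub _ hPQ, hz]
  rw [e1]
  have h3 : ‖∑ k ∈ range Q, z k - ∑ k ∈ range P, z k‖ ≤ ‖∑ k ∈ range Q, z k‖ + ‖∑ k ∈ range P, z k‖ := norm_sub_le _ _
  calc ‖∑ k ∈ range Q, z k - ∑ k ∈ range P, z k‖ ^ 2 ≤ (‖∑ k ∈ range Q, z k‖ + ‖∑ k ∈ range P, z k‖) ^ 2 :=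
        pow_le_pow_left₀ (norm_nonneg _) h3 2
    _ ≤ 2 * ‖∑ k ∈ range Q, z k‖ ^ 2 + 2 * ‖∑ k ∈ range P, z k‖ ^ 2 := by nlinarith [sq_nonneg (‖∑ k ∈ range Q, z k‖ - ‖∑ k ∈ range P, z k‖)]
    _ ≤ _ := by linarith

/-- the measure of the exceptional set -/
theorem max_meas (μ : Measure ℝ) [IsProbabilityMeasure μ] (C σ : ℝ) (hσ0 : 0 < σ) (hσ1 : σ < 1)
    (hdec : ∀ ξ : ℝ, 1 ≤ |ξ| → ‖charFun μ ξ‖ ≤ C * |ξ| ^ (-σ)) (L : ℕ) (c : ℕ → ℂ) (ω : ℕ → ℝ) (g : ℝ) (hg : 0 < g)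
    (hc : ∀ n, ‖c n‖ ≤ 1) (hgap : ∀ m n : ℕ, m < n → c m ≠ 0 → c n ≠ 0 → g * ((n : ℝ) - m) ≤ |ω m - ω n|) (lam : ℝ) (hlam : 0 < lam) :
    μ {α : ℝ | ∃ P Q : ℕ, P ≤ Q ∧ Q ≤ 2 ^ L ∧ lam < ‖∑ k ∈ Ico P Q, c k * Complex.exp (((ω k : ℝ) : ℂ) * α * Complex.I)‖} ≤
      ENNReal.ofReal (4 * (L + 1) ^ 2 * (2 ^ L + K₁ C σ * g ^ (-σ) * ((2 : ℝ) ^ L) ^ (2 - σ)) / lam ^ 2) := by
  have h1 := SQ_moment μ C σ hσ0 hσ1 hdec L c ω g hg hc hgap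
  have hint := SQ_int μ L c ω
  have hL : (0 : ℝ) < 4 * (L + 1) := by positivity
  have hsub : {α : ℝ | ∃ P Q : ℕ, P ≤ Q ∧ Q ≤ 2 ^ L ∧ lam < ‖∑ k ∈ Ico P Q, c k * Complex.exp (((ω k : ℝ) : ℂ) * α * Complex.I)‖} ⊆
      {α : ℝ | lam ^ 2 / (4 * (L + 1)) ≤ SQ L c ω α} := by
    rintro α ⟨P, Q, hPQ, hQ, h⟩
    rw [Set.mem_ofPred_eq, div_le_iff₀ hL, mul_comm]
    refine le_trans ?_ (interval_le L c ω α P Q hPQ hQ)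
    exact pow_le_pow_left₀ hlam.le h.le 2
  refine (measure_mono hsub).trans ?_
  have h2 := mul_meas_ge_le_integral_of_nonneg (μ := μ) (f := SQ L c ω) (Filter.Eventually.of_forall fun α => SQ_nonneg L c ω α) hint (lam ^ 2 / (4 * (L + 1)))
  have hpos : 0 < lam ^ 2 / (4 * ((L : ℝ) + 1)) := by positivity
  have h3 : μ.real {α : ℝ | lam ^ 2 / (4 * ((L : ℝ) + 1)) ≤ SQ L c ω α} ≤ 4 * (L + 1) ^ 2 * (2 ^ L + K₁ C σ * g ^ (-σ) * ((2 : ℝ) ^ L) ^ (2 - σ)) / lam ^ 2 := by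
    have h4 := h2.trans h1
    rw [mul_comm, ← le_div_iff₀ hpos] at h4
    refine h4.trans (le_of_eq ?_)
    field_simp
  rw [← ENNReal.ofReal_toReal (measure_ne_top μ _)]
  exact ENNReal.ofReal_le_ofReal h3

end Pool.Agent.V11290.VW
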