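import Pool.Agent.V11290.VW.E2

set_option autoImplicit false

/-! Exponential sums `∑ a_n e(α f(n))` at typical amplitudes `α`, for measures with Fourier decay. -/

namespace Pool.Agent.V11290.VW

open Finset MeasureTheory ComplexConjugate

lemma mvt_gap (N c : ℝ) (f : ℝ → ℝ) (hf : ContinuousOn f (Set.Icc N (2 * N)))
    (hf' : ∀ x ∈ Set.Ioo N (2 * N), DifferentiableAt ℝ f x ∧ c ≤ |deriv f x|) (x y : ℝ) (hx : N ≤ x) (hxy : x < y) (hy : y ≤ 2 * N) :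
    c * (y - x) ≤ |f x - f y| := by
  obtain ⟨ξ, hξ, h⟩ := exists_deriv_eq_slope f hxy (hf.mono (Set.Icc_subset_Icc hx hy)) (fun z hz =>
    ((hf' z ⟨lt_of_le_of_lt hx hz.1, lt_of_lt_of_le hz.2 hy⟩).1).differentiableWithinAt)
  have h1 := (hf' ξ ⟨lt_of_le_of_lt hx hξ.1, lt_of_lt_of_le hξ.2 hy⟩).2
  have h2 : 0 < y - x := by linarith
  rw [h, abs_div, abs_of_pos h2, le_div_iff₀ h2, abs_sub_comm] at h1
  exact h1

theorem exp_meas (μ : Measure ℝ) [IsProbabilityMeasure μ] (C σ : ℝ) (hσ0 : 0 < σ) (hσ1 : σ < 1)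
    (hdec : ∀ ξ : ℝ, 1 ≤ |ξ| → ‖charFun μ ξ‖ ≤ C * |ξ| ^ (-σ)) (c₁ : ℝ) (hc₁ : 0 < c₁) (N F : ℝ) (hN : 2 ≤ N) (hF : 0 < F)
    (f : ℝ → ℝ) (hgap : ∀ x y : ℝ, N ≤ x → x < y → y ≤ 2 * N → c₁ * F / N * (y - x) ≤ |f x - f y|)
    (a : ℕ → ℂ) (ha : ∀ n, ‖a n‖ ≤ 1) (V : ℝ) (hV : 0 < V) :
    μ {α : ℝ | ∃ N1 N2 : ℕ, N ≤ N1 ∧ (N2 : ℝ) ≤ 2 * N ∧
      N ^ (1 / 2 : ℝ) * V < ‖∑ n ∈ Icc N1 N2, a n * Complex.exp (2 * Real.pi * Complex.I * ((α * f n : ℝ) : ℂ))‖} ≤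
      ENNReal.ofReal (36 * (4 + 16 * K₁ C σ * (2 * Real.pi * c₁) ^ (-σ)) * (1 + Real.log N) ^ 2 * (1 + N * F ^ (-σ)) / V ^ 2) := by
  have hN0 : 0 < N := by linarith
  have hK : 0 ≤ K₁ C σ := by
    unfold K₁
    have : 0 < 1 - σ := by linarith
    positivity
  obtain ⟨n₀, hn1, hn2⟩ := exists_nat_pow_near (show (1 : ℝ) ≤ N + 1 by linarith) (show (1 : ℝ) < 2 by norm_num)
  obtain ⟨q, hq⟩ : ∃ q, q = ⌈N⌉₊ := ⟨_, rfl⟩
  have hqN : N ≤ q := by rw [hq]; exact Nat.le_ceil _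
  obtain ⟨c, hc⟩ : ∃ c : ℕ → ℂ, c = fun k => if ((q + k : ℕ) : ℝ) ≤ 2 * N then a (q + k) else 0 := ⟨_, rfl⟩
  obtain ⟨ω, hω⟩ : ∃ ω : ℕ → ℝ, ω = fun k => 2 * Real.pi * f ((q + k : ℕ) : ℝ) := ⟨_, rfl⟩
  obtain ⟨g, hg⟩ : ∃ g : ℝ, g = 2 * Real.pi * c₁ * (F / N) := ⟨_, rfl⟩
  have hg0 : 0 < g := by rw [hg]; have := Real.pi_pos; positivity
  have hc1 : ∀ n, ‖c n‖ ≤ 1 := by
    intro n
    rw [hc]
    simp only
    split_ifs
    · exact ha _
    · rw [norm_zero]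
      exact zero_le_one
  have hgap' : ∀ m n : ℕ, m < n → c m ≠ 0 → c n ≠ 0 → g * ((n : ℝ) - m) ≤ |ω m - ω n| := by
    intro m n hmn hm hn
    have hn2N : ((q + n : ℕ) : ℝ) ≤ 2 * N := by
      by_contra hcon
      apply hn
      rw [hc]
      simp only
      rw [if_neg hcon]
    have h1 := hgap ((q + m : ℕ) : ℝ) ((q + n : ℕ) : ℝ) (by push_cast; have : (0 : ℝ) ≤ m := Nat.cast_nonneg _; linarith)
      (by exact_mod_cast (by omega : q + m < q + n)) hn2N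
    rw [hω, hg]
    simp only
    rw [← mul_sub, abs_mul, abs_of_pos (by have := Real.pi_pos; positivity : (0 : ℝ) < 2 * Real.pi)]
    have h2 : ((q + n : ℕ) : ℝ) - ((q + m : ℕ) : ℝ) = (n : ℝ) - m := by push_cast; ring
    rw [h2] at h1
    calc 2 * Real.pi * c₁ * (F / N) * ((n : ℝ) - m) = 2 * Real.pi * (c₁ * F / N * ((n : ℝ) - m)) := by ring
      _ ≤ _ := mul_le_mul_of_nonneg_left h1 (by have := Real.pi_pos; positivity)
  have hlam : 0 < N ^ (1 / 2 : ℝ) * V := by positivity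
  have hmain := max_meas μ C σ hσ0 hσ1 hdec (n₀ + 1) c ω g hg0 hc1 hgap' (N ^ (1 / 2 : ℝ) * V) hlam
  refine (measure_mono ?_).trans (hmain.trans (ENNReal.ofReal_le_ofReal ?_))
  · rintro α ⟨N1, N2, h1, h2, h3⟩
    have hle : N1 ≤ N2 := by
      by_contra hcon
      rw [Icc_eq_empty (by omega), sum_empty, norm_zero] at h3
      linarith
    have hqN1 : q ≤ N1 := by rw [hq]; exact Nat.ceil_le.2 h1
    refine ⟨N1 - q, N2 + 1 - q, by omega, ?_, ?_⟩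
    · have h4 : ((N2 + 1 - q : ℕ) : ℝ) ≤ N + 1 := by
        rw [Nat.cast_sub (by omega)]
        push_cast
        linarith
      have h5 : ((N2 + 1 - q : ℕ) : ℝ) < (2 : ℝ) ^ (n₀ + 1) := lt_of_le_of_lt h4 hn2
      have h6 : N2 + 1 - q < 2 ^ (n₀ + 1) := by exact_mod_cast h5
      exact h6.le
    · refine lt_of_lt_of_eq h3 ?_
      congr 1
      symm
      apply sum_nbij' (fun k => q + k) (fun n => n - q)
      · intro k hk
        rw [mem_Ico] at hk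
        rw [mem_Icc]
        omega
      · intro n hn
        rw [mem_Icc] at hn
        rw [mem_Ico]
        omega
      · intro k hk
        omega
      · intro n hn
        rw [mem_Icc] at hn
        omega
      · intro k hk
        rw [mem_Ico] at hk
        have h7 : ((q + k : ℕ) : ℝ) ≤ 2 * N := by
          have : ((q + k : ℕ) : ℝ) ≤ N2 := by exact_mod_cast (by omega : q + k ≤ N2)
          linarith
        rw [hc, hω]
        simp only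
        rw [if_pos h7]
        congr 2
        push_cast
        ring
  · have hL1 : (2 : ℝ) ^ (n₀ + 1) ≤ 4 * N := by
      rw [pow_succ]
      linarith
    have hlog2 : (1 : ℝ) / 2 ≤ Real.log 2 := by
      have := Real.log_two_gt_d9
      linarith
    have hlogN : 0 ≤ Real.log N := Real.log_nonneg (by linarith)
    have hn₀ : (n₀ : ℝ) ≤ 1 + 2 * Real.log N := by
      have h1 : (n₀ : ℝ) * Real.log 2 ≤ Real.log 2 + Real.log N := by
        rw [← Real.log_pow, ← Real.log_mul (by norm_num) hN0.ne']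
        exact Real.log_le_log (by positivity) (by linarith)
      have h2 : (n₀ : ℝ) - 1 ≤ Real.log N / Real.log 2 := by
        rw [le_div_iff₀ (by linarith)]
        linarith
      have h3 : Real.log N / Real.log 2 ≤ Real.log N / (1 / 2) := div_le_div_of_nonneg_left hlogN (by norm_num) hlog2
      linarith
    have hL2 : (((n₀ + 1 : ℕ) : ℝ) + 1) ^ 2 ≤ 9 * (1 + Real.log N) ^ 2 := by
      have h1 : ((n₀ + 1 : ℕ) : ℝ) + 1 ≤ 3 * (1 + Real.log N) := by push_cast; linarith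
      calc (((n₀ + 1 : ℕ) : ℝ) + 1) ^ 2 ≤ (3 * (1 + Real.log N)) ^ 2 := pow_le_pow_left₀ (by positivity) h1 2
        _ = _ := by ring
    have hpi : 0 < 2 * Real.pi * c₁ := by have := Real.pi_pos; positivity
    have hP : ((2 : ℝ) ^ (n₀ + 1)) ^ (2 - σ) ≤ 16 * N ^ (2 - σ) := by
      calc ((2 : ℝ) ^ (n₀ + 1)) ^ (2 - σ) ≤ (4 * N) ^ (2 - σ) := Real.rpow_le_rpow (by positivity) hL1 (by linarith)
        _ = 4 ^ (2 - σ) * N ^ (2 - σ) := Real.mul_rpow (by norm_num) hN0.le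
        _ ≤ 16 * N ^ (2 - σ) := by
            apply mul_le_mul_of_nonneg_right _ (by positivity)
            calc (4 : ℝ) ^ (2 - σ) ≤ (4 : ℝ) ^ (2 : ℝ) := Real.rpow_le_rpow_of_exponent_le (by norm_num) (by linarith)
              _ = 16 := by norm_num
    have hgσ : g ^ (-σ) = (2 * Real.pi * c₁) ^ (-σ) * (F ^ (-σ) * N ^ σ) := by
      rw [hg, Real.mul_rpow hpi.le (by positivity), Real.div_rpow hF.le hN0.le, Real.rpow_neg hN0.le, div_inv_eq_mul]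
    have hNN : N ^ σ * N ^ (2 - σ) = N * N := by
      rw [← Real.rpow_add hN0, show σ + (2 - σ) = 2 by ring]
      norm_num
      ring
    have hbr : 2 ^ (n₀ + 1) + K₁ C σ * g ^ (-σ) * ((2 : ℝ) ^ (n₀ + 1)) ^ (2 - σ) ≤
        (4 + 16 * K₁ C σ * (2 * Real.pi * c₁) ^ (-σ)) * (1 + N * F ^ (-σ)) * N := by
      have h1 : K₁ C σ * g ^ (-σ) * ((2 : ℝ) ^ (n₀ + 1)) ^ (2 - σ) ≤ 16 * K₁ C σ * (2 * Real.pi * c₁) ^ (-σ) * (N * F ^ (-σ)) * N := by
        calc K₁ C σ * g ^ (-σ) * ((2 : ℝ) ^ (n₀ + 1)) ^ (2 - σ) ≤ K₁ C σ * g ^ (-σ) * (16 * N ^ (2 - σ)) := by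
              apply mul_le_mul_of_nonneg_left hP
              positivity
          _ = 16 * K₁ C σ * (2 * Real.pi * c₁) ^ (-σ) * F ^ (-σ) * (N ^ σ * N ^ (2 - σ)) := by rw [hgσ]; ring
          _ = _ := by rw [hNN]; ring
      have h2 : 0 ≤ 16 * K₁ C σ * (2 * Real.pi * c₁) ^ (-σ) := by positivity
      have h3 : 0 ≤ N * F ^ (-σ) := by positivity
      have h4 : 0 ≤ 16 * K₁ C σ * (2 * Real.pi * c₁) ^ (-σ) * N := by positivity
      have h5 : 0 ≤ 4 * (N * F ^ (-σ)) * N := by positivity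
      calc 2 ^ (n₀ + 1) + K₁ C σ * g ^ (-σ) * ((2 : ℝ) ^ (n₀ + 1)) ^ (2 - σ) ≤
            4 * N + 16 * K₁ C σ * (2 * Real.pi * c₁) ^ (-σ) * (N * F ^ (-σ)) * N := add_le_add hL1 h1
        _ ≤ 4 * N + 16 * K₁ C σ * (2 * Real.pi * c₁) ^ (-σ) * (N * F ^ (-σ)) * N + 16 * K₁ C σ * (2 * Real.pi * c₁) ^ (-σ) * N + 4 * (N * F ^ (-σ)) * N := by linarith
        _ = _ := by ring
    have hsq : (N ^ (1 / 2 : ℝ) * V) ^ 2 = N * V ^ 2 := by
      rw [mul_pow, ← Real.rpow_natCast (N ^ (1 / 2 : ℝ)), ← Real.rpow_mul hN0.le]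
      norm_num
    rw [hsq]
    obtain ⟨κ, hκ⟩ : ∃ κ : ℝ, κ = 4 + 16 * K₁ C σ * (2 * Real.pi * c₁) ^ (-σ) := ⟨_, rfl⟩
    rw [← hκ] at hbr ⊢
    have hκ0 : 0 ≤ κ := by rw [hκ]; positivity
    have hbr0 : 0 ≤ 2 ^ (n₀ + 1) + K₁ C σ * g ^ (-σ) * ((2 : ℝ) ^ (n₀ + 1)) ^ (2 - σ) := by positivity
    rw [div_le_div_iff₀ (by positivity) (by positivity)]
    have hX0 : 0 ≤ κ * (1 + N * F ^ (-σ)) * N := by positivity
    calc 4 * (((n₀ + 1 : ℕ) : ℝ) + 1) ^ 2 * (2 ^ (n₀ + 1) + K₁ C σ * g ^ (-σ) * ((2 : ℝ) ^ (n₀ + 1)) ^ (2 - σ)) * V ^ 2 ≤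
          4 * (9 * (1 + Real.log N) ^ 2) * (κ * (1 + N * F ^ (-σ)) * N) * V ^ 2 := by
          apply mul_le_mul_of_nonneg_right _ (by positivity)
          apply mul_le_mul _ hbr hbr0 (by positivity)
          linarith
      _ = _ := by ring

end Pool.Agent.V11290.VW
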