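import Pool.Agent.V11290.VW.E3

set_option autoImplicit false

/-! Weyl sums at typical points of measures with Fourier decay. -/

namespace Pool.Agent.V11290.VW

open Finset MeasureTheory ComplexConjugate

/-- the Weyl sum with coefficients -/
noncomputable def WS (k : ℕ) (c : ℕ → ℂ) (t : ℝ) (N : ℕ) : ℂ :=
  ∑ n ∈ Icc 1 N, c n * Complex.exp (2 * Real.pi * Complex.I * ((t * (n : ℝ) ^ k : ℝ) : ℂ))

lemma pow_gap (k : ℕ) (hk : 1 ≤ k) (N x y : ℝ) (hN : 0 < N) (hx : N ≤ x) (hxy : x < y) :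
    1 * N ^ k / N * (y - x) ≤ |x ^ k - y ^ k| := by
  obtain ⟨m, rfl⟩ : ∃ m, k = m + 1 := ⟨k - 1, by omega⟩
  have hx0 : 0 < x := by linarith
  have h1 : x ^ m ≤ y ^ m := pow_le_pow_left₀ hx0.le hxy.le m
  have h2 : N ^ m ≤ x ^ m := pow_le_pow_left₀ hN.le hx m
  have h3 : 1 * N ^ (m + 1) / N = N ^ m := by rw [pow_succ]; field_simp
  have h4 : x ^ (m + 1) ≤ y ^ (m + 1) := pow_le_pow_left₀ hx0.le hxy.le _
  rw [h3, abs_sub_comm, abs_of_nonneg (by linarith), pow_succ, pow_succ]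
  have h5 : 0 ≤ (y ^ m - x ^ m) * y := mul_nonneg (by linarith) (by linarith)
  have h6 : N ^ m * (y - x) ≤ x ^ m * (y - x) := mul_le_mul_of_nonneg_right h2 (by linarith)
  nlinarith

/-- the bound on dyadic blocks -/
theorem weyl_blocks (μ : Measure ℝ) [IsProbabilityMeasure μ] (C σ : ℝ) (hσ0 : 0 < σ) (hσ1 : σ < 1)
    (hdec : ∀ ξ : ℝ, 1 ≤ |ξ| → ‖charFun μ ξ‖ ≤ C * |ξ| ^ (-σ)) (k : ℕ) (hk : 1 ≤ k) (c : ℕ → ℂ) (hc : ∀ n, ‖c n‖ ≤ 1)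
    (δ : ℝ) (hδ : 0 < δ) :
    ∀ᵐ t ∂μ, ∃ j₀ : ℕ, ∀ j : ℕ, j₀ ≤ j → ∀ N1 N2 : ℕ, 2 ^ j ≤ N1 → N2 ≤ 2 ^ (j + 1) →
      ‖∑ n ∈ Icc N1 N2, c n * Complex.exp (2 * Real.pi * Complex.I * ((t * (n : ℝ) ^ k : ℝ) : ℂ))‖ ≤
        2 * ((2 : ℝ) ^ j) ^ (max (1 / 2) (1 - k * σ / 2) + δ) := by
  obtain ⟨K, hK⟩ : ∃ K : ℝ, K = 36 * (4 + 16 * K₁ C σ * (2 * Real.pi * 1) ^ (-σ)) := ⟨_, rfl⟩
  have hK0 : 0 ≤ K := by
    rw [hK]
    unfold K₁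
    have h1 : 0 < 1 - σ := by linarith
    have := Real.pi_pos
    positivity
  obtain ⟨N, hN⟩ : ∃ N : ℕ → ℝ, N = fun j => (2 : ℝ) ^ (j + 1) := ⟨_, rfl⟩
  obtain ⟨V, hV⟩ : ∃ V : ℕ → ℝ, V = fun j => (1 + N j * (N j ^ k) ^ (-σ)) ^ (1 / 2 : ℝ) * N j ^ δ := ⟨_, rfl⟩
  have hN2 : ∀ j, 2 ≤ N j := by
    intro j
    rw [hN]
    simp only
    rw [pow_succ]
    have : (1 : ℝ) ≤ 2 ^ j := one_le_pow₀ (by norm_num)
    linarith
  obtain ⟨T, hT⟩ : ∃ T : ℕ → Set ℝ, T = fun j => {α : ℝ | ∃ N1 N2 : ℕ, N j ≤ N1 ∧ (N2 : ℝ) ≤ 2 * N j ∧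
      N j ^ (1 / 2 : ℝ) * V j < ‖∑ n ∈ Icc N1 N2, c n * Complex.exp (2 * Real.pi * Complex.I * ((α * (fun x : ℝ => x ^ k) n : ℝ) : ℂ))‖} := ⟨_, rfl⟩
  have hbound : ∀ j, μ (T j) ≤ ENNReal.ofReal (K * (1 + 2 / δ) ^ 2 * (((2 : ℝ) ^ (-δ)) ^ (j + 1))) := by
    intro j
    have hNj := hN2 j
    have hN0 : 0 < N j := by linarith
    have hN1 : 1 ≤ N j := by linarith
    have hX : 0 < 1 + N j * (N j ^ k) ^ (-σ) := by positivity
    have hVj : 0 < V j := by rw [hV]; positivity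
    have h1 := exp_meas μ C σ hσ0 hσ1 hdec 1 one_pos (N j) (N j ^ k) hNj (by positivity) (fun x : ℝ => x ^ k)
      (fun x y hx hxy _ => pow_gap k hk (N j) x y hN0 hx hxy) c hc (V j) hVj
    rw [← hK] at h1
    rw [hT]
    refine h1.trans (ENNReal.ofReal_le_ofReal ?_)
    have hsq : V j ^ 2 = (1 + N j * (N j ^ k) ^ (-σ)) * N j ^ (2 * δ) := by
      rw [hV]
      simp only
      rw [mul_pow, ← Real.rpow_natCast ((1 + N j * (N j ^ k) ^ (-σ)) ^ (1 / 2 : ℝ)), ← Real.rpow_mul hX.le,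
        ← Real.rpow_natCast (N j ^ δ), ← Real.rpow_mul hN0.le]
      norm_num
      left
      congr 1
      ring
    rw [hsq]
    have hlog : 1 + Real.log (N j) ≤ (1 + 2 / δ) * N j ^ (δ / 2) := by
      have h4 : Real.log (N j) ≤ N j ^ (δ / 2) / (δ / 2) := Real.log_le_rpow_div hN0.le (by positivity)
      have h5 : 1 ≤ N j ^ (δ / 2) := Real.one_le_rpow hN1 (by positivity)
      have h6 : N j ^ (δ / 2) / (δ / 2) = 2 / δ * N j ^ (δ / 2) := by field_simp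
      rw [h6] at h4
      linarith
    have hlog0 : 0 ≤ 1 + Real.log (N j) := by
      have := Real.log_nonneg hN1
      linarith
    have hlog2 : (1 + Real.log (N j)) ^ 2 ≤ (1 + 2 / δ) ^ 2 * N j ^ δ := by
      calc (1 + Real.log (N j)) ^ 2 ≤ ((1 + 2 / δ) * N j ^ (δ / 2)) ^ 2 := pow_le_pow_left₀ hlog0 hlog 2
        _ = (1 + 2 / δ) ^ 2 * (N j ^ (δ / 2) * N j ^ (δ / 2)) := by ring
        _ = _ := by rw [← Real.rpow_add hN0]; congr 2; ring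
    have hgeo : ((2 : ℝ) ^ (-δ)) ^ (j + 1) = N j ^ (-δ) := by
      rw [hN]
      simp only
      rw [← Real.rpow_natCast ((2 : ℝ) ^ (-δ)), ← Real.rpow_mul (by norm_num), ← Real.rpow_natCast (2 : ℝ) (j + 1),
        ← Real.rpow_mul (by norm_num)]
      congr 1
      ring
    rw [hgeo, div_le_iff₀ (by positivity)]
    have h8 : N j ^ (-δ) * N j ^ (2 * δ) = N j ^ δ := by
      rw [← Real.rpow_add hN0]
      congr 1
      ring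
    calc K * (1 + Real.log (N j)) ^ 2 * (1 + N j * (N j ^ k) ^ (-σ)) ≤ K * ((1 + 2 / δ) ^ 2 * N j ^ δ) * (1 + N j * (N j ^ k) ^ (-σ)) := by gcongr
      _ = K * (1 + 2 / δ) ^ 2 * (N j ^ (-δ) * N j ^ (2 * δ)) * (1 + N j * (N j ^ k) ^ (-σ)) := by rw [h8]; ring
      _ = _ := by ring
  have hgs : Summable fun j : ℕ => K * (1 + 2 / δ) ^ 2 * (((2 : ℝ) ^ (-δ)) ^ (j + 1)) := by
    apply Summable.mul_left
    have h1 : (2 : ℝ) ^ (-δ) < 1 := Real.rpow_lt_one_of_one_lt_of_neg (by norm_num) (by linarith)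
    exact (summable_nat_add_iff 1).2 (summable_geometric_of_lt_one (by positivity) h1)
  have hsumm : ∑' j, μ (T j) ≠ ⊤ := ne_top_of_le_ne_top hgs.tsum_ofReal_ne_top (ENNReal.tsum_le_tsum hbound)
  filter_upwards [ae_finite_setOfPred_mem hsumm] with t ht
  obtain ⟨j₁, hj₁⟩ := ht.bddAbove
  refine ⟨j₁ + 2, fun j hj N1 N2 h1 h2 => ?_⟩
  obtain ⟨i, hi⟩ : ∃ i, j = i + 1 := ⟨j - 1, by omega⟩
  have hnot : t ∉ T i := by
    intro hmem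
    have := hj₁ hmem
    omega
  have hNi : N i = (2 : ℝ) ^ j := by rw [hN, hi]
  rw [hT] at hnot
  have hle : ‖∑ n ∈ Icc N1 N2, c n * Complex.exp (2 * Real.pi * Complex.I * ((t * (n : ℝ) ^ k : ℝ) : ℂ))‖ ≤ N i ^ (1 / 2 : ℝ) * V i := by
    by_contra hcon
    rw [not_le] at hcon
    apply hnot
    refine ⟨N1, N2, ?_, ?_, hcon⟩
    · rw [hNi]
      exact_mod_cast h1
    · rw [hNi, ← pow_succ']
      exact_mod_cast h2
  refine hle.trans ?_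
  have hN0 : 0 < N i := by linarith [hN2 i]
  have hN1 : 1 ≤ N i := by linarith [hN2 i]
  rw [← hNi]
  obtain ⟨β, hβ⟩ : ∃ β : ℝ, β = max (1 / 2) (1 - k * σ / 2) := ⟨_, rfl⟩
  rw [← hβ]
  have hX0 : 0 ≤ N i * (N i ^ k) ^ (-σ) := by positivity
  have h5 : (1 + N i * (N i ^ k) ^ (-σ)) ^ (1 / 2 : ℝ) ≤ 1 + N i ^ ((1 - k * σ) / 2) := by
    have h6 : (1 + N i * (N i ^ k) ^ (-σ)) ^ (1 / 2 : ℝ) ≤ (1 : ℝ) ^ (1 / 2 : ℝ) + (N i * (N i ^ k) ^ (-σ)) ^ (1 / 2 : ℝ) :=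
      Real.rpow_add_le_add_rpow zero_le_one hX0 (by norm_num) (by norm_num)
    have h7 : N i * (N i ^ k) ^ (-σ) = N i ^ (1 - k * σ) := by
      rw [← Real.rpow_natCast (N i) k, ← Real.rpow_mul hN0.le]
      have h8 : N i * N i ^ ((k : ℝ) * -σ) = N i ^ (1 : ℝ) * N i ^ ((k : ℝ) * -σ) := by rw [Real.rpow_one]
      rw [h8, ← Real.rpow_add hN0]
      congr 1
      ring
    refine h6.trans (le_of_eq ?_)
    rw [Real.one_rpow, h7, ← Real.rpow_mul hN0.le, show (1 - (k : ℝ) * σ) * (1 / 2) = (1 - k * σ) / 2 by ring]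
  have g1 : N i ^ (1 / 2 : ℝ) ≤ N i ^ β := Real.rpow_le_rpow_of_exponent_le hN1 (by rw [hβ]; exact le_max_left _ _)
  have g2 : N i ^ (1 / 2 : ℝ) * N i ^ ((1 - k * σ) / 2) ≤ N i ^ β := by
    rw [← Real.rpow_add hN0]
    apply Real.rpow_le_rpow_of_exponent_le hN1
    rw [hβ]
    refine le_trans (le_of_eq ?_) (le_max_right _ _)
    ring
  calc N i ^ (1 / 2 : ℝ) * V i = N i ^ (1 / 2 : ℝ) * (1 + N i * (N i ^ k) ^ (-σ)) ^ (1 / 2 : ℝ) * N i ^ δ := by rw [hV]; ring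
    _ ≤ N i ^ (1 / 2 : ℝ) * (1 + N i ^ ((1 - k * σ) / 2)) * N i ^ δ := by gcongr
    _ = (N i ^ (1 / 2 : ℝ) + N i ^ (1 / 2 : ℝ) * N i ^ ((1 - k * σ) / 2)) * N i ^ δ := by ring
    _ ≤ (N i ^ β + N i ^ β) * N i ^ δ := by gcongr
    _ = 2 * (N i ^ β * N i ^ δ) := by ring
    _ = _ := by rw [← Real.rpow_add hN0]

end Pool.Agent.V11290.VW
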