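import Pool.Agent.V11290.VW.E1

set_option autoImplicit false

/-! Fourth moments over the linear coefficient, and the supremum over it. -/

namespace Pool.Agent.V11290.VW

open Finset MeasureTheory ComplexConjugate

lemma vdc_id (u : ℕ → ℂ) (H : ℕ) : ‖∑ k ∈ range H, u k‖ ^ 2 =
    ∑ k ∈ range H, ‖u k‖ ^ 2 + 2 * (∑ k ∈ range H, u k * conj (∑ j ∈ range k, u j)).re := by
  induction H with
  | zero => simp
  | succ H ih =>
    rw [sum_range_succ, sum_range_succ, sum_range_succ, Complex.add_re, mul_add]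
    have h1 : ‖∑ k ∈ range H, u k + u H‖ ^ 2 = ‖∑ k ∈ range H, u k‖ ^ 2 + ‖u H‖ ^ 2 + 2 * (u H * conj (∑ j ∈ range H, u j)).re := by
      rw [← Complex.normSq_eq_norm_sq, ← Complex.normSq_eq_norm_sq, ← Complex.normSq_eq_norm_sq, Complex.normSq_add]
      have h2 : ((∑ k ∈ range H, u k) * conj (u H)).re = (u H * conj (∑ j ∈ range H, u j)).re := by
        rw [← Complex.conj_re, map_mul, Complex.conj_conj, mul_comm]
      rw [h2]
    rw [h1, ih]
    ring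

lemma pairs (u : ℕ → ℂ) (H : ℕ) : ∑ k ∈ range H, u k * conj (∑ j ∈ range k, u j) =
    ∑ h ∈ Ico 1 H, ∑ k ∈ range (H - h), u (k + h) * conj (u k) := by
  simp_rw [map_sum, mul_sum]
  rw [sum_sigma', sum_sigma']
  apply sum_nbij' (fun p => ⟨p.1 - p.2, p.2⟩) (fun p => ⟨p.2 + p.1, p.2⟩)
  · rintro ⟨k, j⟩ h
    simp only [mem_sigma, mem_range, mem_Ico] at h ⊢
    omega
  · rintro ⟨h', k⟩ h
    simp only [mem_sigma, mem_range, mem_Ico] at h ⊢
    omega
  · rintro ⟨k, j⟩ h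
    simp only [mem_sigma, mem_range] at h
    simp only [Sigma.mk.injEq, heq_eq_eq, and_true]
    omega
  · rintro ⟨h', k⟩ h
    simp only [mem_sigma, mem_range, mem_Ico] at h
    simp only [Sigma.mk.injEq, heq_eq_eq, and_true]
    omega
  · rintro ⟨k, j⟩ h
    simp only [mem_sigma, mem_range] at h
    simp only
    rw [show j + (k - j) = k by omega]

/-- the root of unity -/
noncomputable def zt (M : ℕ) : ℂ := Complex.exp (2 * Real.pi * Complex.I / M)

lemma zt_norm (M : ℕ) : ‖zt M‖ = 1 := by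
  unfold zt
  rw [show (2 * Real.pi * Complex.I / M : ℂ) = ((2 * Real.pi / M : ℝ) : ℂ) * Complex.I by push_cast; ring, Complex.norm_exp_ofReal_mul_I]

lemma parseval (M : ℕ) (hM : 0 < M) (A : ℕ → ℂ) : ∑ m ∈ range M, ‖∑ s ∈ range M, A s * zt M ^ (s * m)‖ ^ 2 = M * ∑ s ∈ range M, ‖A s‖ ^ 2 := by
  have hprim : IsPrimitiveRoot (zt M) M := Complex.isPrimitiveRoot_exp M hM.ne'
  have hconj : ∀ n : ℕ, conj (zt M ^ n) = (zt M ^ n)⁻¹ := by
    intro n
    rw [Complex.inv_def, Complex.normSq_eq_norm_sq, norm_pow, zt_norm, one_pow, one_pow, inv_one, Complex.ofReal_one, mul_one]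
  have hne : zt M ≠ 0 := by
    intro h
    have := zt_norm M
    rw [h, norm_zero] at this
    exact zero_ne_one this
  have h1 : ∀ m ∈ range M, ((‖∑ s ∈ range M, A s * zt M ^ (s * m)‖ ^ 2 : ℝ) : ℂ) =
      ∑ s ∈ range M, ∑ r ∈ range M, A s * conj (A r) * (zt M ^ s * (zt M ^ r)⁻¹) ^ m := by
    intro m _
    rw [Complex.ofReal_pow, ← Complex.mul_conj', map_sum, sum_mul_sum]
    apply sum_congr rfl
    intro s _
    apply sum_congr rfl
    intro r _
    rw [map_mul, hconj, mul_pow, pow_mul, pow_mul, inv_pow]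
    ring
  have h2 : ((∑ m ∈ range M, ‖∑ s ∈ range M, A s * zt M ^ (s * m)‖ ^ 2 : ℝ) : ℂ) = ((M * ∑ s ∈ range M, ‖A s‖ ^ 2 : ℝ) : ℂ) := by
    rw [Complex.ofReal_sum, sum_congr rfl h1, sum_comm]
    rw [Complex.ofReal_mul, Complex.ofReal_sum, mul_sum]
    apply sum_congr rfl
    intro s hs
    rw [sum_comm]
    rw [sum_eq_single s]
    · rw [← mul_sum]
      have h3 : zt M ^ s * (zt M ^ s)⁻¹ = 1 := mul_inv_cancel₀ (pow_ne_zero _ hne)
      rw [h3]
      simp only [one_pow, sum_const, card_range, nsmul_eq_mul, mul_one]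
      rw [Complex.mul_conj']
      push_cast
      ring
    · intro r hr hrs
      rw [← mul_sum]
      have h4 : zt M ^ s * (zt M ^ r)⁻¹ ≠ 1 := by
        intro h
        rw [mul_inv_eq_one₀ (pow_ne_zero _ hne)] at h
        rw [mem_range] at hr hs
        exact hrs (hprim.pow_inj hr hs h.symm)
      have h5 : (zt M ^ s * (zt M ^ r)⁻¹) ^ M = 1 := by
        rw [mul_pow, inv_pow, ← pow_mul, ← pow_mul, mul_comm s, mul_comm r, pow_mul, pow_mul, hprim.pow_eq_one]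
        simp
      rw [geom_sum_eq h4, h5, sub_self, zero_div, mul_zero]
    · intro h
      exact absurd hs h
  exact_mod_cast h2

/-- the correlations -/
noncomputable def AH (b : ℕ → ℂ) (H h : ℕ) : ℂ := ∑ k ∈ range (H - h), b (k + h) * conj (b k)

lemma fourth (M H : ℕ) (hM : 0 < M) (hH : H ≤ M) (b : ℕ → ℂ) (hb : ∀ k, ‖b k‖ ≤ 1) :
    ∑ m ∈ range M, ‖∑ k ∈ range H, b k * zt M ^ (k * m)‖ ^ 4 ≤ 2 * M * (H : ℝ) ^ 2 + 8 * M * ∑ h ∈ Ico 1 H, ‖AH b H h‖ ^ 2 := by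
  obtain ⟨A, hA⟩ : ∃ A : ℕ → ℂ, A = fun h => if h ∈ Ico 1 H then AH b H h else 0 := ⟨_, rfl⟩
  have hpt : ∀ m ∈ range M, ‖∑ k ∈ range H, b k * zt M ^ (k * m)‖ ^ 4 ≤ 2 * (H : ℝ) ^ 2 + 8 * ‖∑ s ∈ range M, A s * zt M ^ (s * m)‖ ^ 2 := by
    intro m _
    obtain ⟨u, hu⟩ : ∃ u : ℕ → ℂ, u = fun k => b k * zt M ^ (k * m) := ⟨_, rfl⟩
    have e0 : ∑ k ∈ range H, b k * zt M ^ (k * m) = ∑ k ∈ range H, u k := by rw [hu]
    have hu1 : ∀ k, ‖u k‖ ≤ 1 := by
      intro k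
      rw [hu]
      simp only
      rw [norm_mul, norm_pow, zt_norm, one_pow, mul_one]
      exact hb k
    have e1 : ∑ k ∈ range H, u k * conj (∑ j ∈ range k, u j) = ∑ s ∈ range M, A s * zt M ^ (s * m) := by
      rw [pairs]
      have e2 : ∀ h ∈ Ico 1 H, ∑ k ∈ range (H - h), u (k + h) * conj (u k) = A h * zt M ^ (h * m) := by
        intro h hh
        rw [hA]
        simp only
        rw [if_pos hh]
        unfold AH
        rw [sum_mul]
        apply sum_congr rfl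
        intro k _
        rw [hu]
        simp only
        rw [map_mul]
        have e3 : zt M ^ (k * m) * conj (zt M ^ (k * m)) = 1 := by
          rw [Complex.mul_conj', norm_pow, zt_norm, one_pow]
          simp
        rw [add_mul, pow_add]
        calc b (k + h) * (zt M ^ (k * m) * zt M ^ (h * m)) * (conj (b k) * conj (zt M ^ (k * m))) =
              b (k + h) * conj (b k) * zt M ^ (h * m) * (zt M ^ (k * m) * conj (zt M ^ (k * m))) := by ring
          _ = _ := by rw [e3]; ring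
      rw [sum_congr rfl e2]
      apply sum_subset
      · intro h hh
        rw [mem_Ico] at hh
        rw [mem_range]
        omega
      · intro h _ hh
        rw [hA]
        simp only
        rw [if_neg hh, zero_mul]
    have h1 := vdc_id u H
    rw [e1] at h1
    rw [e0]
    obtain ⟨Z, hZ⟩ : ∃ Z : ℂ, Z = ∑ s ∈ range M, A s * zt M ^ (s * m) := ⟨_, rfl⟩
    rw [← hZ] at h1 ⊢
    have h2 : ∑ k ∈ range H, ‖u k‖ ^ 2 ≤ H := by
      calc ∑ k ∈ range H, ‖u k‖ ^ 2 ≤ ∑ k ∈ range H, (1 : ℝ) := sum_le_sum fun k _ => pow_le_one₀ (norm_nonneg _) (hu1 k)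
        _ = H := by simp
    have h3 : ‖∑ k ∈ range H, u k‖ ^ 2 ≤ H + 2 * ‖Z‖ := by
      have := Complex.re_le_norm Z
      linarith
    calc ‖∑ k ∈ range H, u k‖ ^ 4 = (‖∑ k ∈ range H, u k‖ ^ 2) ^ 2 := by ring
      _ ≤ (H + 2 * ‖Z‖) ^ 2 := pow_le_pow_left₀ (by positivity) h3 2
      _ ≤ _ := by nlinarith [sq_nonneg ((H : ℝ) - 2 * ‖Z‖)]
  refine (sum_le_sum hpt).trans ?_
  rw [sum_add_distrib, ← mul_sum, ← mul_sum, parseval M hM A, sum_const, card_range, nsmul_eq_mul]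
  have e4 : ∑ s ∈ range M, ‖A s‖ ^ 2 = ∑ h ∈ Ico 1 H, ‖AH b H h‖ ^ 2 := by
    symm
    have e5 : ∑ h ∈ Ico 1 H, ‖AH b H h‖ ^ 2 = ∑ h ∈ Ico 1 H, ‖A h‖ ^ 2 := by
      apply sum_congr rfl
      intro h hh
      rw [hA]
      simp only
      rw [if_pos hh]
    rw [e5]
    apply sum_subset
    · intro h hh
      rw [mem_Ico] at hh
      rw [mem_range]
      omega
    · intro h _ hh
      rw [hA]
      simp only
      rw [if_neg hh, norm_zero]
      norm_num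
  rw [e4]
  apply le_of_eq
  ring

lemma dyad_step4 (z : ℕ → ℂ) {p L l : ℕ} (hp : p ≤ 2 ^ L) (hl : l ≤ L) :
    ‖∑ k ∈ Finset.range (p / 2 ^ l * 2 ^ l), z k -
      ∑ k ∈ Finset.range (p / 2 ^ (l + 1) * 2 ^ (l + 1)), z k‖ ^ 4 ≤
    ∑ j ∈ Finset.range (2 ^ (L - l)), ‖∑ i ∈ Finset.range (2 ^ l), z (j * 2 ^ l + i)‖ ^ 4 := by
  have h1 : p / 2 ^ (l + 1) = p / 2 ^ l / 2 := by
    rw [Nat.div_div_eq_div_mul, pow_succ]
  rw [h1]
  set t := p / 2 ^ l with ht
  rcases Nat.even_or_odd' t with ⟨s, hs | hs⟩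
  · have h2 : t / 2 * 2 ^ (l + 1) = t * 2 ^ l := by
      rw [hs, Nat.mul_div_cancel_left _ (by norm_num), pow_succ]
      ring
    rw [h2, sub_self]
    simp only [norm_zero]
    rw [zero_pow (by norm_num)]
    exact Finset.sum_nonneg (fun i _ => by positivity)
  · have h2 : t / 2 * 2 ^ (l + 1) = 2 * s * 2 ^ l := by
      have : t / 2 = s := by omega
      rw [this, pow_succ]
      ring
    have h3 : t * 2 ^ l = 2 * s * 2 ^ l + 2 ^ l := by
      rw [hs]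
      ring
    rw [h2, h3, Finset.sum_range_add, add_sub_cancel_left]
    have h4 : 2 * s ∈ Finset.range (2 ^ (L - l)) := by
      rw [Finset.mem_range]
      have h5 : t * 2 ^ l ≤ p := Nat.div_mul_le_self p (2 ^ l)
      have h6 : 2 ^ L = 2 ^ (L - l) * 2 ^ l := by
        rw [← pow_add, Nat.sub_add_cancel hl]
      have h7 : t ≤ 2 ^ (L - l) := by
        have : t * 2 ^ l ≤ 2 ^ (L - l) * 2 ^ l := by
          rw [← h6]
          exact h5.trans hp
        exact Nat.le_of_mul_le_mul_right this (by positivity)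
      omega
    exact Finset.single_le_sum (f := fun j => ‖∑ i ∈ Finset.range (2 ^ l), z (j * 2 ^ l + i)‖ ^ 4)
      (fun i _ => by positivity) h4

/-- The initial sums of length at most `2 ^ L`, fourth powers. -/
lemma dyad4 (z : ℕ → ℂ) {p L : ℕ} (hp : p ≤ 2 ^ L) :
    ‖∑ k ∈ Finset.range p, z k‖ ^ 4 ≤ ((L : ℝ) + 1) ^ 3 * ∑ l ∈ Finset.range (L + 1),
      ∑ j ∈ Finset.range (2 ^ (L - l)), ‖∑ i ∈ Finset.range (2 ^ l), z (j * 2 ^ l + i)‖ ^ 4 := by
  have e := Finset.sum_range_sub' (fun l => ∑ k ∈ Finset.range (p / 2 ^ l * 2 ^ l), z k) (L + 1)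
  have e2 : p / 2 ^ (L + 1) = 0 := by
    apply Nat.div_eq_of_lt
    refine hp.trans_lt (Nat.pow_lt_pow_right (by norm_num) (Nat.lt_succ_self L))
  simp only [pow_zero, Nat.div_one, mul_one, e2, zero_mul, Finset.range_zero, Finset.sum_empty,
    sub_zero] at e
  rw [← e]
  obtain ⟨x, hx⟩ : ∃ x : ℕ → ℝ, x = fun l => ‖∑ k ∈ Finset.range (p / 2 ^ l * 2 ^ l), z k -
          ∑ k ∈ Finset.range (p / 2 ^ (l + 1) * 2 ^ (l + 1)), z k‖ := ⟨_, rfl⟩
  have h1 : ‖∑ l ∈ Finset.range (L + 1), (∑ k ∈ Finset.range (p / 2 ^ l * 2 ^ l), z k -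
          ∑ k ∈ Finset.range (p / 2 ^ (l + 1) * 2 ^ (l + 1)), z k)‖ ≤ ∑ l ∈ range (L + 1), x l := by
    rw [hx]
    exact norm_sum_le _ _
  have h2 : (∑ l ∈ range (L + 1), x l) ^ 2 ≤ ((L : ℝ) + 1) * ∑ l ∈ range (L + 1), x l ^ 2 := by
    have := sq_sum_le_card_mul_sum_sq (s := range (L + 1)) (f := x)
    rw [Finset.card_range] at this
    push_cast at this
    exact this
  have h3 : (∑ l ∈ range (L + 1), x l ^ 2) ^ 2 ≤ ((L : ℝ) + 1) * ∑ l ∈ range (L + 1), x l ^ 4 := by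
    have := sq_sum_le_card_mul_sum_sq (s := range (L + 1)) (f := fun l => x l ^ 2)
    rw [Finset.card_range] at this
    push_cast at this
    refine this.trans (le_of_eq ?_)
    congr 1
    apply sum_congr rfl
    intro l _
    ring
  have h4 : ∑ l ∈ range (L + 1), x l ^ 4 ≤ ∑ l ∈ Finset.range (L + 1),
      ∑ j ∈ Finset.range (2 ^ (L - l)), ‖∑ i ∈ Finset.range (2 ^ l), z (j * 2 ^ l + i)‖ ^ 4 := by
    apply sum_le_sum
    intro l hl
    rw [hx]
    exact dyad_step4 z hp (by have := Finset.mem_range.mp hl; omega)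
  have hx0 : 0 ≤ ∑ l ∈ range (L + 1), x l ^ 2 := sum_nonneg fun _ _ => by positivity
  calc ‖∑ l ∈ Finset.range (L + 1), (∑ k ∈ Finset.range (p / 2 ^ l * 2 ^ l), z k -
          ∑ k ∈ Finset.range (p / 2 ^ (l + 1) * 2 ^ (l + 1)), z k)‖ ^ 4
      ≤ (∑ l ∈ range (L + 1), x l) ^ 4 := pow_le_pow_left₀ (norm_nonneg _) h1 4
    _ = ((∑ l ∈ range (L + 1), x l) ^ 2) ^ 2 := by ring
    _ ≤ (((L : ℝ) + 1) * ∑ l ∈ range (L + 1), x l ^ 2) ^ 2 := pow_le_pow_left₀ (by positivity) h2 2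
    _ = ((L : ℝ) + 1) ^ 2 * (∑ l ∈ range (L + 1), x l ^ 2) ^ 2 := by ring
    _ ≤ ((L : ℝ) + 1) ^ 2 * (((L : ℝ) + 1) * ∑ l ∈ range (L + 1), x l ^ 4) := by gcongr
    _ = ((L : ℝ) + 1) ^ 3 * ∑ l ∈ range (L + 1), x l ^ 4 := by ring
    _ ≤ _ := by gcongr

lemma abel (z w : ℕ → ℂ) (p : ℕ) : ∑ k ∈ range p, z k * w k =
    (∑ k ∈ range p, z k) * w p - ∑ k ∈ range p, (∑ j ∈ range (k + 1), z j) * (w (k + 1) - w k) := by
  induction p with
  | zero => simp
  | succ p ih =>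
    rw [sum_range_succ, ih, sum_range_succ (fun k => (∑ j ∈ range (k + 1), z j) * (w (k + 1) - w k)), sum_range_succ z p]
    ring

lemma abel_le (z w : ℕ → ℂ) (p : ℕ) (B η : ℝ) (hB : ∀ q ≤ p, ‖∑ k ∈ range q, z k‖ ≤ B) (hw : ∀ k, ‖w k‖ ≤ 1)
    (hw' : ∀ k, ‖w (k + 1) - w k‖ ≤ η) : ‖∑ k ∈ range p, z k * w k‖ ≤ B * (1 + p * η) := by
  have hB0 : 0 ≤ B := (norm_nonneg _).trans (hB 0 (Nat.zero_le _))
  rw [abel]
  have h1 : ‖(∑ k ∈ range p, z k) * w p‖ ≤ B := by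
    rw [norm_mul]
    calc ‖∑ k ∈ range p, z k‖ * ‖w p‖ ≤ B * 1 := mul_le_mul (hB p le_rfl) (hw p) (norm_nonneg _) hB0
      _ = B := mul_one B
  have h2 : ‖∑ k ∈ range p, (∑ j ∈ range (k + 1), z j) * (w (k + 1) - w k)‖ ≤ p * (B * η) := by
    calc ‖∑ k ∈ range p, (∑ j ∈ range (k + 1), z j) * (w (k + 1) - w k)‖ ≤ ∑ k ∈ range p, B * η := by
          refine (norm_sum_le _ _).trans (sum_le_sum fun k hk => ?_)
          rw [mem_range] at hk
          rw [norm_mul]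
          exact mul_le_mul (hB (k + 1) (by omega)) (hw' k) (norm_nonneg _) hB0
      _ = _ := by rw [sum_const, card_range, nsmul_eq_mul]
  refine (norm_sub_le _ _).trans ?_
  linarith

end Pool.Agent.V11290.VW
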