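import Pool.Agent.V11290.VW.F2

set_option autoImplicit false

/-! Weyl sums on dyadic blocks, uniformly in the linear coefficient, at typical points of measures with Fourier decay. -/

namespace Pool.Agent.V11290.VW

open Finset MeasureTheory ComplexConjugate

lemma grid_le (c : ℕ → ℂ) (hc : ∀ n, ‖c n‖ ≤ 1) (L k : ℕ) (t : ℝ) (m : ℕ) (hm : m < 2 ^ L) (q : ℕ) (hq : q ≤ 2 ^ L) :
    ‖∑ i ∈ range q, bb c (2 ^ L) k t i * zt (2 ^ L) ^ (i * m)‖ ^ 4 ≤ ((L : ℝ) + 1) ^ 3 * WW c L k t := by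
  refine (dyad4 (fun i => bb c (2 ^ L) k t i * zt (2 ^ L) ^ (i * m)) hq).trans ?_
  apply mul_le_mul_of_nonneg_left _ (by positivity)
  unfold WW
  apply sum_le_sum
  intro l hl
  apply sum_le_sum
  intro j hj
  rw [mem_range] at hl
  have hH : 2 ^ l ≤ 2 ^ L := Nat.pow_le_pow_right (by norm_num) (by omega)
  have h1 := fourth (2 ^ L) (2 ^ l) (by positivity) hH (bb c (2 ^ L + j * 2 ^ l) k t) (bb_norm c hc _ _ _)
  have h2 : ‖∑ i ∈ range (2 ^ l), bb c (2 ^ L) k t (j * 2 ^ l + i) * zt (2 ^ L) ^ ((j * 2 ^ l + i) * m)‖ ^ 4 ≤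
      ∑ m' ∈ range (2 ^ L), ‖∑ i ∈ range (2 ^ l), bb c (2 ^ L + j * 2 ^ l) k t i * zt (2 ^ L) ^ (i * m')‖ ^ 4 := by
    have e1 : ∑ i ∈ range (2 ^ l), bb c (2 ^ L) k t (j * 2 ^ l + i) * zt (2 ^ L) ^ ((j * 2 ^ l + i) * m) =
        zt (2 ^ L) ^ (j * 2 ^ l * m) * ∑ i ∈ range (2 ^ l), bb c (2 ^ L + j * 2 ^ l) k t i * zt (2 ^ L) ^ (i * m) := by
      rw [mul_sum]
      apply sum_congr rfl
      intro i _
      rw [bb_shift, add_mul, pow_add]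
      ring
    rw [e1, norm_mul, norm_pow, zt_norm, one_pow, one_mul]
    exact single_le_sum (f := fun m' => ‖∑ i ∈ range (2 ^ l), bb c (2 ^ L + j * 2 ^ l) k t i * zt (2 ^ L) ^ (i * m')‖ ^ 4)
      (fun _ _ => by positivity) (mem_range.2 hm)
  exact h2.trans h1

lemma e_split (M : ℕ) (hM : 0 < M) (ξ : ℝ) : ∃ m : ℕ, m < M ∧ ∃ β : ℝ, |β| ≤ 1 / (2 * M) ∧ ∀ i : ℕ,
    Complex.exp (2 * Real.pi * Complex.I * ((ξ * i : ℝ) : ℂ)) = zt M ^ (i * m) * Complex.exp (2 * Real.pi * Complex.I * ((β * i : ℝ) : ℂ)) := by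
  have hM0 : (0 : ℝ) < M := by exact_mod_cast hM
  have hMc : (M : ℂ) ≠ 0 := by exact_mod_cast hM.ne'
  obtain ⟨a, ha⟩ : ∃ a : ℤ, a = round (ξ * M) := ⟨_, rfl⟩
  have hr := abs_sub_round (ξ * M)
  rw [← ha] at hr
  have hmod := Int.emod_nonneg a (show (M : ℤ) ≠ 0 by exact_mod_cast hM.ne')
  have hmod2 := Int.emod_lt_of_pos a (show (0 : ℤ) < M by exact_mod_cast hM)
  obtain ⟨m, hm⟩ := Int.eq_ofNat_of_zero_le hmod
  refine ⟨m, ?_, ξ - a / M, ?_, ?_⟩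
  · have h1 : ((m : ℕ) : ℤ) < M := by rw [← hm]; exact hmod2
    exact_mod_cast h1
  · have e1 : ξ - a / M = (ξ * M - a) / M := by field_simp
    rw [e1, abs_div, abs_of_pos hM0, div_le_div_iff₀ hM0 (by positivity)]
    nlinarith
  · intro i
    unfold zt
    rw [← Complex.exp_nat_mul, ← Complex.exp_add]
    have hdiv : a = M * (a / M) + m := by
      have := Int.mul_ediv_add_emod a M
      rw [hm] at this
      exact this.symm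
    have hdivc : (a : ℂ) = M * ((a / M : ℤ) : ℂ) + m := by
      have h2 := congrArg (fun z : ℤ => (z : ℂ)) hdiv
      push_cast at h2
      exact h2
    have e2 : (2 * Real.pi * Complex.I * ((ξ * i : ℝ) : ℂ) : ℂ) = (((a / M * i : ℤ)) : ℂ) * (2 * Real.pi * Complex.I) +
        (((i * m : ℕ) : ℂ) * (2 * Real.pi * Complex.I / M) + 2 * Real.pi * Complex.I * (((ξ - a / M) * i : ℝ) : ℂ)) := by
      have e3 : (((a / M * i : ℤ)) : ℂ) = (((a / M : ℤ)) : ℂ) * i := by push_cast; ring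
      have e4 : (((ξ - a / M) * i : ℝ) : ℂ) = ((ξ : ℂ) - (a : ℂ) / M) * i := by push_cast; ring
      rw [e3, e4, hdivc]
      push_cast
      field_simp
      ring
    rw [e2, Complex.exp_add, Complex.exp_int_mul_two_pi_mul_I, one_mul]

lemma all_xi (c : ℕ → ℂ) (hc : ∀ n, ‖c n‖ ≤ 1) (L k : ℕ) (t ξ : ℝ) (q : ℕ) (hq : q ≤ 2 ^ L) :
    ‖∑ i ∈ range q, bb c (2 ^ L) k t i * Complex.exp (2 * Real.pi * Complex.I * ((ξ * i : ℝ) : ℂ))‖ ^ 4 ≤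
      625 * (((L : ℝ) + 1) ^ 3 * WW c L k t) := by
  have hX0 : 0 ≤ ((L : ℝ) + 1) ^ 3 * WW c L k t := mul_nonneg (by positivity) (WW_nonneg c L k t)
  obtain ⟨B, hB0, hB⟩ : ∃ B : ℝ, 0 ≤ B ∧ B ^ 4 = ((L : ℝ) + 1) ^ 3 * WW c L k t := by
    refine ⟨(((L : ℝ) + 1) ^ 3 * WW c L k t) ^ (1 / 4 : ℝ), by positivity, ?_⟩
    rw [← Real.rpow_natCast, ← Real.rpow_mul hX0]
    norm_num
  obtain ⟨m, hm, β, hβ, he⟩ := e_split (2 ^ L) (by positivity) ξ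
  have e1 : ∑ i ∈ range q, bb c (2 ^ L) k t i * Complex.exp (2 * Real.pi * Complex.I * ((ξ * i : ℝ) : ℂ)) =
      ∑ i ∈ range q, (bb c (2 ^ L) k t i * zt (2 ^ L) ^ (i * m)) * Complex.exp (2 * Real.pi * Complex.I * ((β * i : ℝ) : ℂ)) := by
    apply sum_congr rfl
    intro i _
    rw [he]
    ring
  have hM0 : (0 : ℝ) < ((2 ^ L : ℕ) : ℝ) := by positivity
  have hnorm : ∀ i : ℕ, ‖Complex.exp (2 * Real.pi * Complex.I * ((β * i : ℝ) : ℂ))‖ = 1 := by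
    intro i
    rw [show (2 * Real.pi * Complex.I * ((β * i : ℝ) : ℂ) : ℂ) = ((2 * Real.pi * (β * i) : ℝ) : ℂ) * Complex.I by push_cast; ring,
      Complex.norm_exp_ofReal_mul_I]
  have h1 := abel_le (fun i => bb c (2 ^ L) k t i * zt (2 ^ L) ^ (i * m)) (fun i => Complex.exp (2 * Real.pi * Complex.I * ((β * i : ℝ) : ℂ)))
    q B (4 / ((2 ^ L : ℕ) : ℝ)) (by
      intro q' hq'
      have h2 := grid_le c hc L k t m hm q' (hq'.trans hq)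
      rw [← hB] at h2
      exact le_of_pow_le_pow_left₀ (by norm_num) hB0 h2) (fun i => (hnorm i).le) (by
      intro i
      have e2 : Complex.exp (2 * Real.pi * Complex.I * ((β * (i + 1 : ℕ) : ℝ) : ℂ)) - Complex.exp (2 * Real.pi * Complex.I * ((β * i : ℝ) : ℂ)) =
          Complex.exp (2 * Real.pi * Complex.I * ((β * i : ℝ) : ℂ)) * (Complex.exp (Complex.I * ((2 * Real.pi * β : ℝ) : ℂ)) - 1) := by
        rw [mul_sub, mul_one, ← Complex.exp_add]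
        congr 2
        push_cast
        ring
      show ‖Complex.exp (2 * Real.pi * Complex.I * ((β * (i + 1 : ℕ) : ℝ) : ℂ)) - Complex.exp (2 * Real.pi * Complex.I * ((β * i : ℝ) : ℂ))‖ ≤ _
      rw [e2, norm_mul, hnorm, one_mul]
      refine (Real.norm_exp_I_mul_ofReal_sub_one_le).trans ?_
      rw [Real.norm_eq_abs, abs_mul, abs_of_pos (by have := Real.pi_pos; positivity : (0 : ℝ) < 2 * Real.pi)]
      have hpi := Real.pi_lt_four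
      have hpi0 := Real.pi_pos
      calc 2 * Real.pi * |β| ≤ 2 * Real.pi * (1 / (2 * ((2 ^ L : ℕ) : ℝ))) := mul_le_mul_of_nonneg_left hβ (by positivity)
        _ = Real.pi / ((2 ^ L : ℕ) : ℝ) := by field_simp
        _ ≤ _ := div_le_div_of_nonneg_right hpi.le hM0.le)
  rw [e1]
  have h3 : (1 : ℝ) + q * (4 / ((2 ^ L : ℕ) : ℝ)) ≤ 5 := by
    have h4 : (q : ℝ) * (4 / ((2 ^ L : ℕ) : ℝ)) ≤ ((2 ^ L : ℕ) : ℝ) * (4 / ((2 ^ L : ℕ) : ℝ)) :=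
      mul_le_mul_of_nonneg_right (by exact_mod_cast hq) (by positivity)
    have h5 : ((2 ^ L : ℕ) : ℝ) * (4 / ((2 ^ L : ℕ) : ℝ)) = 4 := by field_simp
    linarith
  have h6 := h1.trans (mul_le_mul_of_nonneg_left h3 hB0)
  calc _ ≤ (B * 5) ^ 4 := pow_le_pow_left₀ (norm_nonneg _) h6 4
    _ = 625 * B ^ 4 := by ring
    _ = _ := by rw [hB]

lemma interval_xi (c : ℕ → ℂ) (hc : ∀ n, ‖c n‖ ≤ 1) (L k : ℕ) (t ξ : ℝ) (N1 N2 : ℕ) (h1 : 2 ^ L ≤ N1) (h2 : N2 < 2 ^ (L + 1)) :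
    ‖∑ n ∈ Icc N1 N2, c n * Complex.exp (2 * Real.pi * Complex.I * ((t * (n : ℝ) ^ k + ξ * n : ℝ) : ℂ))‖ ^ 4 ≤
      10000 * (((L : ℝ) + 1) ^ 3 * WW c L k t) := by
  have hX0 : 0 ≤ ((L : ℝ) + 1) ^ 3 * WW c L k t := mul_nonneg (by positivity) (WW_nonneg c L k t)
  rcases lt_or_ge N2 N1 with hlt | hle
  · rw [Icc_eq_empty (by omega), sum_empty, norm_zero]
    linarith
  rw [pow_succ] at h2
  obtain ⟨z, hz⟩ : ∃ z : ℕ → ℂ, z = fun i => bb c (2 ^ L) k t i * Complex.exp (2 * Real.pi * Complex.I * ((ξ * i : ℝ) : ℂ)) := ⟨_, rfl⟩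
  obtain ⟨e, he⟩ : ∃ e : ℂ, e = Complex.exp (2 * Real.pi * Complex.I * ((ξ * (2 ^ L : ℕ) : ℝ) : ℂ)) := ⟨_, rfl⟩
  have hen : ‖e‖ = 1 := by
    rw [he, show (2 * Real.pi * Complex.I * ((ξ * (2 ^ L : ℕ) : ℝ) : ℂ) : ℂ) = ((2 * Real.pi * (ξ * (2 ^ L : ℕ)) : ℝ) : ℂ) * Complex.I by push_cast; ring,
      Complex.norm_exp_ofReal_mul_I]
  have e1 : ∑ n ∈ Icc N1 N2, c n * Complex.exp (2 * Real.pi * Complex.I * ((t * (n : ℝ) ^ k + ξ * n : ℝ) : ℂ)) =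
      e * (∑ i ∈ range (N2 + 1 - 2 ^ L), z i - ∑ i ∈ range (N1 - 2 ^ L), z i) := by
    rw [← sum_Ico_eq_sub _ (by omega), mul_sum]
    apply sum_nbij' (fun n => n - 2 ^ L) (fun i => 2 ^ L + i)
    · intro n hn
      rw [mem_Icc] at hn
      rw [mem_Ico]
      omega
    · intro i hi
      rw [mem_Ico] at hi
      rw [mem_Icc]
      omega
    · intro n hn
      rw [mem_Icc] at hn
      omega
    · intro i hi
      omega
    · intro n hn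
      rw [mem_Icc] at hn
      obtain ⟨i, rfl⟩ : ∃ i, n = 2 ^ L + i := ⟨n - 2 ^ L, by omega⟩
      rw [Nat.add_sub_cancel_left, he, hz]
      unfold bb
      have e5 : (2 * Real.pi * Complex.I * ((t * ((2 ^ L + i : ℕ) : ℝ) ^ k + ξ * ((2 ^ L + i : ℕ) : ℝ) : ℝ) : ℂ) : ℂ) =
          2 * Real.pi * Complex.I * ((ξ * (2 ^ L : ℕ) : ℝ) : ℂ) + (2 * Real.pi * Complex.I * ((t * ((2 ^ L + i : ℕ) : ℝ) ^ k : ℝ) : ℂ) +
          2 * Real.pi * Complex.I * ((ξ * i : ℝ) : ℂ)) := by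
        push_cast
        ring
      rw [e5, Complex.exp_add, Complex.exp_add]
      ring
  have h3 := all_xi c hc L k t ξ (N2 + 1 - 2 ^ L) (by omega)
  have h4 := all_xi c hc L k t ξ (N1 - 2 ^ L) (by omega)
  rw [e1, norm_mul, hen, one_mul]
  have e2 : ∀ q : ℕ, ∑ i ∈ range q, bb c (2 ^ L) k t i * Complex.exp (2 * Real.pi * Complex.I * ((ξ * i : ℝ) : ℂ)) = ∑ i ∈ range q, z i := by
    intro q
    rw [hz]
  rw [e2] at h3 h4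
  have h5 := norm_sub_le (∑ i ∈ range (N2 + 1 - 2 ^ L), z i) (∑ i ∈ range (N1 - 2 ^ L), z i)
  obtain ⟨x, hx⟩ : ∃ x : ℝ, x = ‖∑ i ∈ range (N2 + 1 - 2 ^ L), z i‖ := ⟨_, rfl⟩
  obtain ⟨y, hy⟩ : ∃ y : ℝ, y = ‖∑ i ∈ range (N1 - 2 ^ L), z i‖ := ⟨_, rfl⟩
  rw [← hx] at h3
  rw [← hy] at h4
  rw [← hx, ← hy] at h5
  have h6 : (x + y) ^ 4 ≤ 8 * (x ^ 4 + y ^ 4) := by
    have h7 : (x + y) ^ 2 ≤ 2 * (x ^ 2 + y ^ 2) := by nlinarith [sq_nonneg (x - y)]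
    calc (x + y) ^ 4 = ((x + y) ^ 2) ^ 2 := by ring
      _ ≤ (2 * (x ^ 2 + y ^ 2)) ^ 2 := pow_le_pow_left₀ (by positivity) h7 2
      _ ≤ _ := by nlinarith [sq_nonneg (x ^ 2 - y ^ 2)]
  calc _ ≤ (x + y) ^ 4 := pow_le_pow_left₀ (norm_nonneg _) h5 4
    _ ≤ 8 * (x ^ 4 + y ^ 4) := h6
    _ ≤ 8 * (625 * (((L : ℝ) + 1) ^ 3 * WW c L k t) + 625 * (((L : ℝ) + 1) ^ 3 * WW c L k t)) := by gcongr
    _ = _ := by ring

/-- the bound on dyadic blocks, uniformly in the linear coefficient -/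
theorem weyl_blocks_xi (μ : Measure ℝ) [IsProbabilityMeasure μ] (C σ : ℝ) (hσ0 : 0 < σ) (hσ1 : σ < 1)
    (hdec : ∀ ξ : ℝ, 1 ≤ |ξ| → ‖charFun μ ξ‖ ≤ C * |ξ| ^ (-σ)) (c : ℕ → ℂ) (hc : ∀ n, ‖c n‖ ≤ 1) (m : ℕ)
    (δ : ℝ) (hδ : 0 < δ) :
    ∀ᵐ t ∂μ, ∃ j₀ : ℕ, ∀ j : ℕ, j₀ ≤ j → ∀ (ξ : ℝ) (N1 N2 : ℕ), 2 ^ j ≤ N1 → N2 < 2 ^ (j + 1) →
      ‖∑ n ∈ Icc N1 N2, c n * Complex.exp (2 * Real.pi * Complex.I * ((t * (n : ℝ) ^ (m + 2) + ξ * n : ℝ) : ℂ))‖ ≤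
        ((2 : ℝ) ^ j) ^ (max (3 / 4) (1 - (m + 2) * σ / 4) + δ) := by
  have hσ' : 0 < 1 - σ := by linarith
  have hK : 0 ≤ K₁ C σ := by
    unfold K₁
    positivity
  obtain ⟨γ, hγ⟩ : ∃ γ : ℝ, γ = max (3 / 4) (1 - (m + 2) * σ / 4) := ⟨_, rfl⟩
  rw [← hγ]
  obtain ⟨κ, hκ⟩ : ∃ κ : ℝ, κ = 8 * K₁ C σ / (1 - σ) := ⟨_, rfl⟩
  have hκ0 : 0 ≤ κ := by rw [hκ]; positivity
  obtain ⟨T, hT⟩ : ∃ T : ℕ → Set ℝ, T = fun j : ℕ => {t : ℝ | (((2 : ℝ) ^ j) ^ (γ + δ)) ^ 4 / (10000 * ((j : ℝ) + 1) ^ 3) ≤ WW c j (m + 2) t} := ⟨_, rfl⟩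
  have hbound : ∀ j, μ (T j) ≤ ENNReal.ofReal (10000 * (10 + κ) * ((2 : ℝ) ^ (-(4 * δ)))⁻¹ * ((((j + 1 : ℕ) : ℝ)) ^ 4 * ((2 : ℝ) ^ (-(4 * δ))) ^ (j + 1))) := by
    intro j
    obtain ⟨X, hX⟩ : ∃ X : ℝ, X = (2 : ℝ) ^ j := ⟨_, rfl⟩
    have hX1 : 1 ≤ X := by rw [hX]; exact one_le_pow₀ (by norm_num)
    have hX0 : 0 < X := by linarith
    obtain ⟨hint, hmom⟩ := WW_moment μ C σ hσ0 hσ1 hdec c hc j m
    rw [← hX, ← hκ] at hmom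
    have hmom2 : ∫ t, WW c j (m + 2) t ∂μ ≤ (j + 1) * ((10 + κ) * X ^ (4 * γ)) := by
      refine hmom.trans ?_
      apply mul_le_mul_of_nonneg_left _ (by positivity)
      have h1 : X ^ (3 : ℝ) ≤ X ^ (4 * γ) := Real.rpow_le_rpow_of_exponent_le hX1 (by
        have := le_max_left (3 / 4 : ℝ) (1 - (m + 2) * σ / 4)
        rw [← hγ] at this
        linarith)
      have h2 : X ^ (4 - (m + 2) * σ) ≤ X ^ (4 * γ) := Real.rpow_le_rpow_of_exponent_le hX1 (by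
        have := le_max_right (3 / 4 : ℝ) (1 - (m + 2) * σ / 4)
        rw [← hγ] at this
        linarith)
      calc 10 * X ^ (3 : ℝ) + κ * X ^ (4 - (m + 2) * σ) ≤ 10 * X ^ (4 * γ) + κ * X ^ (4 * γ) := by gcongr
        _ = _ := by ring
    obtain ⟨lam, hlam⟩ : ∃ lam : ℝ, lam = (X ^ (γ + δ)) ^ 4 / (10000 * ((j : ℝ) + 1) ^ 3) := ⟨_, rfl⟩
    have hlam0 : 0 < lam := by rw [hlam]; positivity
    have h2 := mul_meas_ge_le_integral_of_nonneg (μ := μ) (f := WW c j (m + 2)) (Filter.Eventually.of_forall fun t => WW_nonneg c j (m + 2) t) hint lam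
    have h3 := h2.trans hmom2
    rw [mul_comm, ← le_div_iff₀ hlam0] at h3
    have hTj : T j = {t : ℝ | lam ≤ WW c j (m + 2) t} := by rw [hT, hlam, hX]
    rw [hTj, ← ENNReal.ofReal_toReal (measure_ne_top μ _)]
    apply ENNReal.ofReal_le_ofReal
    refine h3.trans (le_of_eq ?_)
    have e1 : (X ^ (γ + δ)) ^ 4 = X ^ (4 * γ) * X ^ (4 * δ) := by
      rw [← Real.rpow_natCast (X ^ (γ + δ)), ← Real.rpow_mul hX0.le, ← Real.rpow_add hX0]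
      congr 1
      push_cast
      ring
    have e2 : ((2 : ℝ) ^ (-(4 * δ))) ^ (j + 1) = (2 : ℝ) ^ (-(4 * δ)) * (X ^ (4 * δ))⁻¹ := by
      rw [pow_succ', hX, ← Real.rpow_natCast (2 : ℝ) j, ← Real.rpow_mul (by norm_num), ← Real.rpow_natCast ((2 : ℝ) ^ (-(4 * δ))), ← Real.rpow_mul (by norm_num),
        ← Real.rpow_neg (by norm_num)]
      congr 2
      ring
    have hp1 : (2 : ℝ) ^ (-(4 * δ)) ≠ 0 := (Real.rpow_pos_of_pos (by norm_num) _).ne'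
    have hp2 : X ^ (4 * γ) ≠ 0 := (Real.rpow_pos_of_pos hX0 _).ne'
    have hp3 : X ^ (4 * δ) ≠ 0 := (Real.rpow_pos_of_pos hX0 _).ne'
    rw [hlam, e1, e2]
    push_cast
    field_simp
  have hgs : Summable fun j : ℕ => 10000 * (10 + κ) * ((2 : ℝ) ^ (-(4 * δ)))⁻¹ * ((((j + 1 : ℕ) : ℝ)) ^ 4 * ((2 : ℝ) ^ (-(4 * δ))) ^ (j + 1)) := by
    apply Summable.mul_left
    have h1 : (2 : ℝ) ^ (-(4 * δ)) < 1 := Real.rpow_lt_one_of_one_lt_of_neg (by norm_num) (by linarith)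
    have h2 : 0 < (2 : ℝ) ^ (-(4 * δ)) := by positivity
    have h3 := summable_pow_mul_geometric_of_norm_lt_one 4 (show ‖(2 : ℝ) ^ (-(4 * δ))‖ < 1 by rw [Real.norm_eq_abs, abs_of_pos h2]; exact h1)
    exact (summable_nat_add_iff (f := fun n : ℕ => (n : ℝ) ^ 4 * ((2 : ℝ) ^ (-(4 * δ))) ^ n) 1).2 h3
  have hsumm : ∑' j, μ (T j) ≠ ⊤ := ne_top_of_le_ne_top hgs.tsum_ofReal_ne_top (ENNReal.tsum_le_tsum hbound)
  filter_upwards [ae_finite_setOfPred_mem hsumm] with t ht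
  obtain ⟨j₁, hj₁⟩ := ht.bddAbove
  refine ⟨j₁ + 1, fun j hj ξ N1 N2 h1 h2 => ?_⟩
  have hnot : t ∉ T j := by
    intro hmem
    have := hj₁ hmem
    omega
  rw [hT, Set.mem_ofPred_eq, not_le, lt_div_iff₀ (by positivity)] at hnot
  have h3 := interval_xi c hc j (m + 2) t ξ N1 N2 h1 h2
  have h4 : 10000 * (((j : ℝ) + 1) ^ 3 * WW c j (m + 2) t) ≤ (((2 : ℝ) ^ j) ^ (γ + δ)) ^ 4 := by
    refine le_trans (le_of_eq ?_) hnot.le
    ring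
  exact le_of_pow_le_pow_left₀ (by norm_num) (by positivity) (h3.trans h4)

end Pool.Agent.V11290.VW
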