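import Pool.Agent.V11290.VW.F3
import Pool.Agent.V11290.VW.E4

set_option autoImplicit false

/-! Weyl sums at typical points of measures with Fourier decay: from dyadic blocks to all lengths. -/

namespace Pool.Agent.V11290.VW

open Finset MeasureTheory ComplexConjugate

lemma blocks_sum (x : ℕ → ℂ) (hx : ∀ n, ‖x n‖ ≤ 1) (j₀ : ℕ) (r B : ℝ) (hr : 1 < r) (hB : 0 ≤ B)
    (h : ∀ j : ℕ, j₀ ≤ j → ∀ N1 N2 : ℕ, 2 ^ j ≤ N1 → N2 < 2 ^ (j + 1) → ‖∑ n ∈ Icc N1 N2, x n‖ ≤ B * r ^ j) (J N : ℕ)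
    (h1 : 2 ^ J ≤ N) (h2 : N < 2 ^ (J + 1)) :
    ‖∑ n ∈ Icc 1 N, x n‖ ≤ ((2 : ℝ) ^ j₀ + B * r / (r - 1)) * r ^ J := by
  have hr0 : 0 < r := by linarith
  have hr1 : 0 < r - 1 := by linarith
  have hrJ : 1 ≤ r ^ J := one_le_pow₀ hr.le
  have hBr : 0 ≤ B * r / (r - 1) := by positivity
  rcases lt_or_ge J j₀ with hJ | hJ
  · have h3 : ‖∑ n ∈ Icc 1 N, x n‖ ≤ N := by
      calc ‖∑ n ∈ Icc 1 N, x n‖ ≤ ∑ n ∈ Icc 1 N, (1 : ℝ) := (norm_sum_le _ _).trans (sum_le_sum fun n _ => hx n)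
        _ = N := by simp
    have h4 : (N : ℝ) ≤ 2 ^ j₀ := by
      have h5 : 2 ^ (J + 1) ≤ 2 ^ j₀ := Nat.pow_le_pow_right (by norm_num) hJ
      have h6 : N ≤ 2 ^ j₀ := by omega
      exact_mod_cast h6
    calc ‖∑ n ∈ Icc 1 N, x n‖ ≤ (2 : ℝ) ^ j₀ := h3.trans h4
      _ ≤ ((2 : ℝ) ^ j₀ + B * r / (r - 1)) := by linarith
      _ ≤ _ := le_mul_of_one_le_right (by positivity) hrJ
  · have key : ∀ J, j₀ ≤ J → ‖∑ n ∈ Ico 1 (2 ^ J), x n‖ ≤ (2 : ℝ) ^ j₀ + B * ∑ j ∈ range J, r ^ j := by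
      intro J hJ
      induction J, hJ using Nat.le_induction with
      | base =>
        have h3 : ‖∑ n ∈ Ico 1 (2 ^ j₀), x n‖ ≤ (2 : ℝ) ^ j₀ := by
          calc ‖∑ n ∈ Ico 1 (2 ^ j₀), x n‖ ≤ ∑ n ∈ Ico 1 (2 ^ j₀), (1 : ℝ) := (norm_sum_le _ _).trans (sum_le_sum fun n _ => hx n)
            _ = ((2 ^ j₀ - 1 : ℕ) : ℝ) := by simp
            _ ≤ ((2 ^ j₀ : ℕ) : ℝ) := by exact_mod_cast Nat.sub_le _ _
            _ = _ := by push_cast; rfl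
        have h4 : 0 ≤ B * ∑ j ∈ range j₀, r ^ j := mul_nonneg hB (sum_nonneg fun _ _ => by positivity)
        linarith
      | succ J hJ ih =>
        have h3 : (2 : ℕ) ^ J < 2 ^ (J + 1) := Nat.pow_lt_pow_right (by norm_num) (Nat.lt_succ_self J)
        have h0 : 1 ≤ 2 ^ J := Nat.one_le_two_pow
        have e1 : ∑ n ∈ Ico 1 (2 ^ (J + 1)), x n = ∑ n ∈ Ico 1 (2 ^ J), x n + ∑ n ∈ Icc (2 ^ J) (2 ^ (J + 1) - 1), x n := by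
          rw [← sum_Ico_consecutive x h0 h3.le]
          congr 1
          apply sum_congr _ fun _ _ => rfl
          ext n
          rw [mem_Ico, mem_Icc]
          omega
        rw [e1, sum_range_succ, mul_add, ← add_assoc]
        exact (norm_add_le _ _).trans (add_le_add ih (h J hJ _ _ le_rfl (by omega)))
    have h0 : 1 ≤ 2 ^ J := Nat.one_le_two_pow
    have e1 : ∑ n ∈ Icc 1 N, x n = ∑ n ∈ Ico 1 (2 ^ J), x n + ∑ n ∈ Icc (2 ^ J) N, x n := by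
      have e2 : Icc 1 N = Ico 1 (N + 1) := by
        ext n
        rw [mem_Ico, mem_Icc]
        omega
      rw [e2, ← sum_Ico_consecutive x h0 (by omega : 2 ^ J ≤ N + 1)]
      congr 1
    have h3 : ‖∑ n ∈ Icc 1 N, x n‖ ≤ (2 : ℝ) ^ j₀ + B * ∑ j ∈ range (J + 1), r ^ j := by
      rw [e1, sum_range_succ, mul_add, ← add_assoc]
      exact (norm_add_le _ _).trans (add_le_add (key J hJ) (h J hJ _ _ le_rfl h2))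
    have h4 : ∑ j ∈ range (J + 1), r ^ j ≤ r / (r - 1) * r ^ J := by
      rw [geom_sum_eq hr.ne', div_mul_eq_mul_div]
      apply div_le_div_of_nonneg_right _ hr1.le
      rw [pow_succ']
      linarith
    calc ‖∑ n ∈ Icc 1 N, x n‖ ≤ (2 : ℝ) ^ j₀ + B * ∑ j ∈ range (J + 1), r ^ j := h3
      _ ≤ (2 : ℝ) ^ j₀ * r ^ J + B * (r / (r - 1) * r ^ J) :=
          add_le_add (le_mul_of_one_le_right (by positivity) hrJ) (mul_le_mul_of_nonneg_left h4 hB)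
      _ = _ := by ring

lemma all_N (γ : ℝ) (hγ : 0 < γ) (B : ℝ) (hB : 0 ≤ B) (j₀ : ℕ) : ∃ K : ℝ, ∀ x : ℕ → ℂ, (∀ n, ‖x n‖ ≤ 1) →
    (∀ j : ℕ, j₀ ≤ j → ∀ N1 N2 : ℕ, 2 ^ j ≤ N1 → N2 < 2 ^ (j + 1) → ‖∑ n ∈ Icc N1 N2, x n‖ ≤ B * ((2 : ℝ) ^ j) ^ γ) →
    ∀ N : ℕ, 1 ≤ N → ‖∑ n ∈ Icc 1 N, x n‖ ≤ K * (N : ℝ) ^ γ := by
  obtain ⟨r, hr⟩ : ∃ r : ℝ, r = (2 : ℝ) ^ γ := ⟨_, rfl⟩
  have hr1 : 1 < r := by rw [hr]; exact Real.one_lt_rpow (by norm_num) hγ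
  have hpow : ∀ j : ℕ, ((2 : ℝ) ^ j) ^ γ = r ^ j := by
    intro j
    rw [hr, ← Real.rpow_natCast, ← Real.rpow_mul (by norm_num), ← Real.rpow_natCast ((2 : ℝ) ^ γ), ← Real.rpow_mul (by norm_num), mul_comm]
  refine ⟨(2 : ℝ) ^ j₀ + B * r / (r - 1), fun x hx h N hN => ?_⟩
  obtain ⟨J, hJ1, hJ2⟩ : ∃ J, 2 ^ J ≤ N ∧ N < 2 ^ (J + 1) := ⟨Nat.log 2 N, Nat.pow_log_le_self 2 (by omega), Nat.lt_pow_succ_log_self (by norm_num) N⟩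
  have h1 := blocks_sum x hx j₀ r B hr1 hB (fun j hj N1 N2 h1 h2 => by rw [← hpow]; exact h j hj N1 N2 h1 h2) J N hJ1 hJ2
  refine h1.trans ?_
  have hr2 : 0 < r - 1 := by linarith
  apply mul_le_mul_of_nonneg_left _ (by positivity)
  rw [← hpow]
  exact Real.rpow_le_rpow (by positivity) (by exact_mod_cast hJ1) hγ.le

/-- the Weyl sum with coefficients -/
noncomputable def WY (c : ℕ → ℂ) (k : ℕ) (t ξ : ℝ) (N : ℕ) : ℂ :=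
  ∑ n ∈ Icc 1 N, c n * Complex.exp (2 * Real.pi * Complex.I * ((t * (n : ℝ) ^ k + ξ * n : ℝ) : ℂ))

lemma e_norm (x : ℝ) : ‖Complex.exp (2 * Real.pi * Complex.I * (x : ℂ))‖ = 1 := by
  rw [show (2 * Real.pi * Complex.I * (x : ℂ) : ℂ) = ((2 * Real.pi * x : ℝ) : ℂ) * Complex.I by push_cast; ring, Complex.norm_exp_ofReal_mul_I]

theorem weyl_unif (μ : Measure ℝ) [IsProbabilityMeasure μ] (C σ : ℝ) (hσ0 : 0 < σ) (hσ1 : σ < 1)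
    (hdec : ∀ ξ : ℝ, 1 ≤ |ξ| → ‖charFun μ ξ‖ ≤ C * |ξ| ^ (-σ)) (k : ℕ) (hk : 2 ≤ k) (c : ℕ → ℂ) (hc : ∀ n, ‖c n‖ ≤ 1) :
    ∀ᵐ t ∂μ, ∀ ε : ℝ, 0 < ε → ∃ K : ℝ, ∀ (N : ℕ) (ξ : ℝ), 1 ≤ N → ‖WY c k t ξ N‖ ≤ K * (N : ℝ) ^ (max (3 / 4) (1 - k * σ / 4) + ε) := by
  obtain ⟨m, rfl⟩ : ∃ m, k = m + 2 := ⟨k - 2, by omega⟩
  have e0 : max (3 / 4) (1 - ((m + 2 : ℕ) : ℝ) * σ / 4) = max (3 / 4) (1 - ((m : ℝ) + 2) * σ / 4) := by push_cast; rfl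
  rw [e0]
  obtain ⟨γ, hγ⟩ : ∃ γ : ℝ, γ = max (3 / 4) (1 - ((m : ℝ) + 2) * σ / 4) := ⟨_, rfl⟩
  have hγ0 : 0 < γ := by
    have := le_max_left (3 / 4 : ℝ) (1 - ((m : ℝ) + 2) * σ / 4)
    rw [← hγ] at this
    linarith
  have h1 : ∀ i : ℕ, ∀ᵐ t ∂μ, ∃ j₀ : ℕ, ∀ j : ℕ, j₀ ≤ j → ∀ (ξ : ℝ) (N1 N2 : ℕ), 2 ^ j ≤ N1 → N2 < 2 ^ (j + 1) →
      ‖∑ n ∈ Icc N1 N2, c n * Complex.exp (2 * Real.pi * Complex.I * ((t * (n : ℝ) ^ (m + 2) + ξ * n : ℝ) : ℂ))‖ ≤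
        ((2 : ℝ) ^ j) ^ (γ + 1 / ((i : ℝ) + 1)) := by
    intro i
    rw [hγ]
    exact weyl_blocks_xi μ C σ hσ0 hσ1 hdec c hc m (1 / ((i : ℝ) + 1)) (by positivity)
  rw [← ae_all_iff] at h1
  rw [← hγ]
  filter_upwards [h1] with t ht ε hε
  obtain ⟨i, hi⟩ := exists_nat_one_div_lt hε
  obtain ⟨j₀, hj₀⟩ := ht i
  obtain ⟨K, hK⟩ := all_N (γ + 1 / ((i : ℝ) + 1)) (by positivity) 1 zero_le_one j₀
  refine ⟨K, fun N ξ hN => ?_⟩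
  have h2 := hK (fun n => c n * Complex.exp (2 * Real.pi * Complex.I * ((t * (n : ℝ) ^ (m + 2) + ξ * n : ℝ) : ℂ))) (by
    intro n
    rw [norm_mul, e_norm, mul_one]
    exact hc n) (fun j hj N1 N2 h1 h2 => by rw [one_mul]; exact hj₀ j hj ξ N1 N2 h1 h2) N hN
  have hN1 : (1 : ℝ) ≤ N := by exact_mod_cast hN
  have hK0 : 0 ≤ K := by
    by_contra hcon
    rw [not_le] at hcon
    have h3 : K * (N : ℝ) ^ (γ + 1 / ((i : ℝ) + 1)) < 0 := mul_neg_of_neg_of_pos hcon (by positivity)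
    linarith [norm_nonneg (∑ n ∈ Icc 1 N, (fun n => c n * Complex.exp (2 * Real.pi * Complex.I * ((t * (n : ℝ) ^ (m + 2) + ξ * n : ℝ) : ℂ))) n)]
  refine h2.trans (mul_le_mul_of_nonneg_left ?_ hK0)
  exact Real.rpow_le_rpow_of_exponent_le hN1 (by linarith)

theorem weyl_fixed (μ : Measure ℝ) [IsProbabilityMeasure μ] (C σ : ℝ) (hσ0 : 0 < σ) (hσ1 : σ < 1)
    (hdec : ∀ ξ : ℝ, 1 ≤ |ξ| → ‖charFun μ ξ‖ ≤ C * |ξ| ^ (-σ)) (k : ℕ) (hk : 2 ≤ k) (c : ℕ → ℂ) (hc : ∀ n, ‖c n‖ ≤ 1) (ξ : ℝ) :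
    ∀ᵐ t ∂μ, ∀ ε : ℝ, 0 < ε → ∃ K : ℝ, ∀ N : ℕ, 1 ≤ N → ‖WY c k t ξ N‖ ≤ K * (N : ℝ) ^ (max (1 / 2) (1 - k * σ / 2) + ε) := by
  obtain ⟨γ, hγ⟩ : ∃ γ : ℝ, γ = max (1 / 2) (1 - k * σ / 2) := ⟨_, rfl⟩
  have hγ0 : 0 < γ := by
    have := le_max_left (1 / 2 : ℝ) (1 - k * σ / 2)
    rw [← hγ] at this
    linarith
  have h1 : ∀ i : ℕ, ∀ᵐ t ∂μ, ∃ j₀ : ℕ, ∀ j : ℕ, j₀ ≤ j → ∀ (N1 N2 : ℕ), 2 ^ j ≤ N1 → N2 ≤ 2 ^ (j + 1) →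
      ‖∑ n ∈ Icc N1 N2, (c n * Complex.exp (2 * Real.pi * Complex.I * ((ξ * n : ℝ) : ℂ))) * Complex.exp (2 * Real.pi * Complex.I * ((t * (n : ℝ) ^ k : ℝ) : ℂ))‖ ≤
        2 * ((2 : ℝ) ^ j) ^ (γ + 1 / ((i : ℝ) + 1)) := by
    intro i
    rw [hγ]
    exact weyl_blocks μ C σ hσ0 hσ1 hdec k (by omega) (fun n => c n * Complex.exp (2 * Real.pi * Complex.I * ((ξ * n : ℝ) : ℂ)))
      (fun n => by rw [norm_mul, e_norm, mul_one]; exact hc n) (1 / ((i : ℝ) + 1)) (by positivity)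
  rw [← ae_all_iff] at h1
  rw [← hγ]
  filter_upwards [h1] with t ht ε hε
  obtain ⟨i, hi⟩ := exists_nat_one_div_lt hε
  obtain ⟨j₀, hj₀⟩ := ht i
  obtain ⟨K, hK⟩ := all_N (γ + 1 / ((i : ℝ) + 1)) (by positivity) 2 (by norm_num) j₀
  refine ⟨K, fun N hN => ?_⟩
  have e1 : ∀ n : ℕ, c n * Complex.exp (2 * Real.pi * Complex.I * ((t * (n : ℝ) ^ k + ξ * n : ℝ) : ℂ)) =
      (c n * Complex.exp (2 * Real.pi * Complex.I * ((ξ * n : ℝ) : ℂ))) * Complex.exp (2 * Real.pi * Complex.I * ((t * (n : ℝ) ^ k : ℝ) : ℂ)) := by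
    intro n
    have e2 : (2 * Real.pi * Complex.I * ((t * (n : ℝ) ^ k + ξ * n : ℝ) : ℂ) : ℂ) =
        2 * Real.pi * Complex.I * ((ξ * n : ℝ) : ℂ) + 2 * Real.pi * Complex.I * ((t * (n : ℝ) ^ k : ℝ) : ℂ) := by
      push_cast
      ring
    rw [e2, Complex.exp_add]
    ring
  have h2 := hK (fun n => c n * Complex.exp (2 * Real.pi * Complex.I * ((t * (n : ℝ) ^ k + ξ * n : ℝ) : ℂ))) (by
    intro n
    rw [norm_mul, e_norm, mul_one]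
    exact hc n) (fun j hj N1 N2 h1 h2 => by
      simp_rw [e1]
      exact hj₀ j hj N1 N2 h1 h2.le) N hN
  have hN1 : (1 : ℝ) ≤ N := by exact_mod_cast hN
  have hK0 : 0 ≤ K := by
    by_contra hcon
    rw [not_le] at hcon
    have h3 : K * (N : ℝ) ^ (γ + 1 / ((i : ℝ) + 1)) < 0 := mul_neg_of_neg_of_pos hcon (by positivity)
    linarith [norm_nonneg (∑ n ∈ Icc 1 N, (fun n => c n * Complex.exp (2 * Real.pi * Complex.I * ((t * (n : ℝ) ^ k + ξ * n : ℝ) : ℂ))) n)]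
  refine h2.trans (mul_le_mul_of_nonneg_left ?_ hK0)
  exact Real.rpow_le_rpow_of_exponent_le hN1 (by linarith)

end Pool.Agent.V11290.VW
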