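import Pool.Agent.V11290.VW.F1

set_option autoImplicit false

/-! Exponential sums with a general phase, uniformly in the linear coefficient: the majorant and its mean. -/

namespace Pool.Agent.V11290.VW.G

open Finset MeasureTheory ComplexConjugate

/-- the terms -/
noncomputable def bb (c : ℕ → ℂ) (q : ℕ) (ψ : ℕ → ℝ) (t : ℝ) (i : ℕ) : ℂ :=
  c (q + i) * Complex.exp (2 * Real.pi * Complex.I * ((t * ψ (q + i) : ℝ) : ℂ))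

lemma bb_norm (c : ℕ → ℂ) (hc : ∀ n, ‖c n‖ ≤ 1) (q : ℕ) (ψ : ℕ → ℝ) (t : ℝ) (i : ℕ) : ‖bb c q ψ t i‖ ≤ 1 := by
  unfold bb
  rw [norm_mul, show (2 * Real.pi * Complex.I * ((t * ψ (q + i) : ℝ) : ℂ) : ℂ) =
    ((2 * Real.pi * (t * ψ (q + i)) : ℝ) : ℂ) * Complex.I by push_cast; ring, Complex.norm_exp_ofReal_mul_I, mul_one]
  exact hc _

lemma bb_shift (c : ℕ → ℂ) (q : ℕ) (ψ : ℕ → ℝ) (t : ℝ) (s i : ℕ) : bb c q ψ t (s + i) = bb c (q + s) ψ t i := by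
  unfold bb
  rw [← add_assoc]

lemma AH_EC (c : ℕ → ℂ) (q : ℕ) (ψ : ℕ → ℝ) (t : ℝ) (H h : ℕ) : AH (bb c q ψ t) H h =
    EC (H - h) (fun i => c (q + (i + h)) * conj (c (q + i)))
      (fun i => 2 * Real.pi * (ψ (q + (i + h)) - ψ (q + i))) t := by
  unfold AH EC
  apply sum_congr rfl
  intro i _
  unfold bb
  rw [map_mul, ← Complex.exp_conj]
  have e1 : conj (2 * Real.pi * Complex.I * ((t * ψ (q + i) : ℝ) : ℂ)) = -(2 * Real.pi * Complex.I * ((t * ψ (q + i) : ℝ) : ℂ)) := by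
    rw [map_mul, map_mul, map_mul, Complex.conj_ofReal, Complex.conj_ofReal, Complex.conj_I]
    have : conj (2 : ℂ) = 2 := Complex.conj_ofNat 2
    rw [this]
    ring
  rw [e1]
  have e2 : c (q + (i + h)) * Complex.exp (2 * Real.pi * Complex.I * ((t * ψ (q + (i + h)) : ℝ) : ℂ)) *
      (conj (c (q + i)) * Complex.exp (-(2 * Real.pi * Complex.I * ((t * ψ (q + i) : ℝ) : ℂ)))) =
      c (q + (i + h)) * conj (c (q + i)) * (Complex.exp (2 * Real.pi * Complex.I * ((t * ψ (q + (i + h)) : ℝ) : ℂ)) *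
       Complex.exp (-(2 * Real.pi * Complex.I * ((t * ψ (q + i) : ℝ) : ℂ)))) := by ring
  rw [e2, ← Complex.exp_add]
  congr 2
  push_cast
  ring

/-- the second differences are at least `g h (b - a)` -/
def Gap (c : ℕ → ℂ) (ψ : ℕ → ℝ) (g : ℝ) : Prop := ∀ a b h : ℕ, 1 ≤ h → a < b → c a ≠ 0 → c (b + h) ≠ 0 →
  g * h * ((b : ℝ) - a) ≤ |(ψ (a + h) - ψ a) - (ψ (b + h) - ψ b)|

lemma AH_moment (μ : Measure ℝ) [IsProbabilityMeasure μ] (C σ : ℝ) (hσ0 : 0 < σ) (hσ1 : σ < 1)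
    (hdec : ∀ ξ : ℝ, 1 ≤ |ξ| → ‖charFun μ ξ‖ ≤ C * |ξ| ^ (-σ)) (c : ℕ → ℂ) (hc : ∀ n, ‖c n‖ ≤ 1) (q : ℕ) (ψ : ℕ → ℝ) (g : ℝ)
    (hg : 0 < g) (hgap : Gap c ψ g) (H h : ℕ) (hh : 1 ≤ h) :
    Integrable (fun t => ‖AH (bb c q ψ t) H h‖ ^ 2) μ ∧
    ∫ t, ‖AH (bb c q ψ t) H h‖ ^ 2 ∂μ ≤ H + K₁ C σ * g ^ (-σ) * (h : ℝ) ^ (-σ) * (H : ℝ) ^ (2 - σ) := by
  have hK : 0 ≤ K₁ C σ := by
    unfold K₁
    have : 0 < 1 - σ := by linarith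
    positivity
  have hh0 : (0 : ℝ) < h := by exact_mod_cast hh
  simp_rw [AH_EC]
  refine ⟨EC_int μ _ _ _, ?_⟩
  have h1 := EC_block μ C σ hσ0 hσ1 hdec (H - h) (fun i => c (q + (i + h)) * conj (c (q + i)))
      (fun i => 2 * Real.pi * (ψ (q + (i + h)) - ψ (q + i))) (g * h) (by positivity) (by
        intro n
        rw [norm_mul, RCLike.norm_conj]
        exact mul_le_one₀ (hc _) (norm_nonneg _) (hc _)) (by
        intro a b hab _ h1 h2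
        have hab' : (a : ℝ) < b := by exact_mod_cast hab
        have h3 := hgap (q + a) (q + b) h hh (by omega) (by
          intro h0
          apply h1
          show c (q + (a + h)) * conj (c (q + a)) = 0
          rw [h0, map_zero, mul_zero]) (by
          intro h0
          apply h2
          show c (q + (b + h)) * conj (c (q + b)) = 0
          rw [← add_assoc, h0, zero_mul])
        have e1 : ((q + b : ℕ) : ℝ) - ((q + a : ℕ) : ℝ) = (b : ℝ) - a := by push_cast; ring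
        rw [e1] at h3
        show g * h * ((b : ℝ) - a) ≤ |2 * Real.pi * (ψ (q + (a + h)) - ψ (q + a)) - 2 * Real.pi * (ψ (q + (b + h)) - ψ (q + b))|
        rw [← mul_sub, abs_mul, abs_of_pos (by have := Real.pi_pos; positivity : (0 : ℝ) < 2 * Real.pi), ← add_assoc, ← add_assoc]
        have h4 : 1 ≤ 2 * Real.pi := by have := Real.pi_gt_three; linarith
        exact h3.trans (le_mul_of_one_le_left (abs_nonneg _) h4))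
  refine h1.trans ?_
  have h5 : ((H - h : ℕ) : ℝ) ≤ H := by exact_mod_cast Nat.sub_le _ _
  have h6 : ((H - h : ℕ) : ℝ) ^ (2 - σ) ≤ (H : ℝ) ^ (2 - σ) := Real.rpow_le_rpow (Nat.cast_nonneg _) h5 (by linarith)
  rw [Real.mul_rpow hg.le hh0.le]
  calc ((H - h : ℕ) : ℝ) + K₁ C σ * (g ^ (-σ) * (h : ℝ) ^ (-σ)) * ((H - h : ℕ) : ℝ) ^ (2 - σ) ≤
      H + K₁ C σ * (g ^ (-σ) * (h : ℝ) ^ (-σ)) * (H : ℝ) ^ (2 - σ) := by gcongr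
    _ = _ := by ring

/-- the majorant on one subblock -/
noncomputable def W1 (c : ℕ → ℂ) (M q : ℕ) (ψ : ℕ → ℝ) (H : ℕ) (t : ℝ) : ℝ :=
  2 * M * (H : ℝ) ^ 2 + 8 * M * ∑ h ∈ Ico 1 H, ‖AH (bb c q ψ t) H h‖ ^ 2

lemma W1_nonneg (c : ℕ → ℂ) (M q : ℕ) (ψ : ℕ → ℝ) (H : ℕ) (t : ℝ) : 0 ≤ W1 c M q ψ H t := by
  unfold W1
  have : 0 ≤ ∑ h ∈ Ico 1 H, ‖AH (bb c q ψ t) H h‖ ^ 2 := sum_nonneg fun _ _ => by positivity
  positivity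

lemma W1_moment (μ : Measure ℝ) [IsProbabilityMeasure μ] (C σ : ℝ) (hσ0 : 0 < σ) (hσ1 : σ < 1)
    (hdec : ∀ ξ : ℝ, 1 ≤ |ξ| → ‖charFun μ ξ‖ ≤ C * |ξ| ^ (-σ)) (c : ℕ → ℂ) (hc : ∀ n, ‖c n‖ ≤ 1) (M q : ℕ) (ψ : ℕ → ℝ) (g : ℝ)
    (hg : 0 < g) (hgap : Gap c ψ g) (H : ℕ) (hH : 1 ≤ H) :
    Integrable (W1 c M q ψ H) μ ∧
    ∫ t, W1 c M q ψ H t ∂μ ≤ M * (10 * (H : ℝ) ^ 2 + 8 * K₁ C σ / (1 - σ) * g ^ (-σ) * (H : ℝ) ^ (3 - 2 * σ)) := by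
  have hσ' : 0 < 1 - σ := by linarith
  have hK : 0 ≤ K₁ C σ := by
    unfold K₁
    positivity
  have hH0 : (0 : ℝ) < H := by exact_mod_cast hH
  have hint : Integrable (fun t => ∑ h ∈ Ico 1 H, ‖AH (bb c q ψ t) H h‖ ^ 2) μ :=
    integrable_finsetSum _ fun h hh => (AH_moment μ C σ hσ0 hσ1 hdec c hc q ψ g hg hgap H h (mem_Ico.1 hh).1).1
  have hint2 : Integrable (fun t => 8 * (M : ℝ) * ∑ h ∈ Ico 1 H, ‖AH (bb c q ψ t) H h‖ ^ 2) μ := hint.const_mul _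
  unfold W1
  refine ⟨(integrable_const _).add hint2, ?_⟩
  rw [integral_add (integrable_const _) hint2, integral_const, probReal_univ, one_smul, integral_const_mul]
  rw [integral_finsetSum _ fun h hh => (AH_moment μ C σ hσ0 hσ1 hdec c hc q ψ g hg hgap H h (mem_Ico.1 hh).1).1]
  have h1 : ∑ h ∈ Ico 1 H, ∫ t, ‖AH (bb c q ψ t) H h‖ ^ 2 ∂μ ≤
      (H : ℝ) ^ 2 + K₁ C σ / (1 - σ) * g ^ (-σ) * (H : ℝ) ^ (3 - 2 * σ) := by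
    have h2 : ∑ h ∈ Ico 1 H, ∫ t, ‖AH (bb c q ψ t) H h‖ ^ 2 ∂μ ≤
        ∑ h ∈ Icc 1 H, ((H : ℝ) + K₁ C σ * g ^ (-σ) * (h : ℝ) ^ (-σ) * (H : ℝ) ^ (2 - σ)) := by
      calc ∑ h ∈ Ico 1 H, ∫ t, ‖AH (bb c q ψ t) H h‖ ^ 2 ∂μ ≤
          ∑ h ∈ Ico 1 H, ((H : ℝ) + K₁ C σ * g ^ (-σ) * (h : ℝ) ^ (-σ) * (H : ℝ) ^ (2 - σ)) :=
            sum_le_sum fun h hh => (AH_moment μ C σ hσ0 hσ1 hdec c hc q ψ g hg hgap H h (mem_Ico.1 hh).1).2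
        _ ≤ _ := by
            apply sum_le_sum_of_subset_of_nonneg Ico_subset_Icc_self
            intro h _ _
            positivity
    refine h2.trans ?_
    rw [sum_add_distrib, sum_const, Nat.card_Icc, Nat.add_sub_cancel, nsmul_eq_mul]
    have h3 : ∑ h ∈ Icc 1 H, K₁ C σ * g ^ (-σ) * (h : ℝ) ^ (-σ) * (H : ℝ) ^ (2 - σ) =
        K₁ C σ * g ^ (-σ) * (H : ℝ) ^ (2 - σ) * ∑ h ∈ Icc 1 H, (h : ℝ) ^ (-σ) := by
      rw [mul_sum]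
      apply sum_congr rfl
      intro h _
      ring
    rw [h3]
    have h4 := sum_pow σ hσ0.le hσ1 H
    have h5 : (H : ℝ) ^ (2 - σ) * (H : ℝ) ^ (1 - σ) = (H : ℝ) ^ (3 - 2 * σ) := by
      rw [← Real.rpow_add hH0]
      congr 1
      ring
    calc (H : ℝ) * H + K₁ C σ * g ^ (-σ) * (H : ℝ) ^ (2 - σ) * ∑ h ∈ Icc 1 H, (h : ℝ) ^ (-σ) ≤
          (H : ℝ) * H + K₁ C σ * g ^ (-σ) * (H : ℝ) ^ (2 - σ) * ((H : ℝ) ^ (1 - σ) / (1 - σ)) := by gcongr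
      _ = (H : ℝ) ^ 2 + K₁ C σ / (1 - σ) * g ^ (-σ) * ((H : ℝ) ^ (2 - σ) * (H : ℝ) ^ (1 - σ)) := by ring
      _ = _ := by rw [h5]
  calc 2 * (M : ℝ) * (H : ℝ) ^ 2 + 8 * M * ∑ h ∈ Ico 1 H, ∫ t, ‖AH (bb c q ψ t) H h‖ ^ 2 ∂μ ≤
      2 * (M : ℝ) * (H : ℝ) ^ 2 + 8 * M * ((H : ℝ) ^ 2 + K₁ C σ / (1 - σ) * g ^ (-σ) * (H : ℝ) ^ (3 - 2 * σ)) := by gcongr
    _ = _ := by ring

/-- the majorant -/
noncomputable def WW (c : ℕ → ℂ) (Q : ℕ) (ψ : ℕ → ℝ) (L : ℕ) (t : ℝ) : ℝ :=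
  ∑ l ∈ range (L + 1), ∑ j ∈ range (2 ^ (L - l)), W1 c (2 ^ L) (Q + j * 2 ^ l) ψ (2 ^ l) t

lemma WW_nonneg (c : ℕ → ℂ) (Q : ℕ) (ψ : ℕ → ℝ) (L : ℕ) (t : ℝ) : 0 ≤ WW c Q ψ L t :=
  sum_nonneg fun _ _ => sum_nonneg fun _ _ => W1_nonneg _ _ _ _ _ _

lemma WW_moment (μ : Measure ℝ) [IsProbabilityMeasure μ] (C σ : ℝ) (hσ0 : 0 < σ) (hσ1 : σ < 1)
    (hdec : ∀ ξ : ℝ, 1 ≤ |ξ| → ‖charFun μ ξ‖ ≤ C * |ξ| ^ (-σ)) (c : ℕ → ℂ) (hc : ∀ n, ‖c n‖ ≤ 1) (Q : ℕ) (ψ : ℕ → ℝ) (g : ℝ)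
    (hg : 0 < g) (hgap : Gap c ψ g) (L : ℕ) :
    Integrable (WW c Q ψ L) μ ∧
    ∫ t, WW c Q ψ L t ∂μ ≤ (L + 1) * (10 * ((2 : ℝ) ^ L) ^ 3 + 8 * K₁ C σ / (1 - σ) * g ^ (-σ) * ((2 : ℝ) ^ L) ^ (4 - 2 * σ)) := by
  have hσ' : 0 < 1 - σ := by linarith
  have hK : 0 ≤ K₁ C σ := by
    unfold K₁
    positivity
  obtain ⟨X, hX⟩ : ∃ X : ℝ, X = (2 : ℝ) ^ L := ⟨_, rfl⟩
  have hX1 : 1 ≤ X := by rw [hX]; exact one_le_pow₀ (by norm_num)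
  have hX0 : 0 < X := by linarith
  have hW : ∀ l ∈ range (L + 1), ∀ j ∈ range (2 ^ (L - l)),
      Integrable (W1 c (2 ^ L) (Q + j * 2 ^ l) ψ (2 ^ l)) μ ∧
      ∫ t, W1 c (2 ^ L) (Q + j * 2 ^ l) ψ (2 ^ l) t ∂μ ≤
        X * (10 * ((2 : ℝ) ^ l) ^ 2 + 8 * K₁ C σ / (1 - σ) * g ^ (-σ) * ((2 : ℝ) ^ l) ^ (3 - 2 * σ)) := by
    intro l _ j _
    have h := W1_moment μ C σ hσ0 hσ1 hdec c hc (2 ^ L) (Q + j * 2 ^ l) ψ g hg hgap (2 ^ l) Nat.one_le_two_pow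
    refine ⟨h.1, ?_⟩
    have h2 := h.2
    push_cast at h2
    rw [← hX] at h2
    exact h2
  unfold WW
  refine ⟨integrable_finsetSum _ fun l hl => integrable_finsetSum _ fun j hj => (hW l hl j hj).1, ?_⟩
  rw [integral_finsetSum _ fun l hl => integrable_finsetSum _ fun j hj => (hW l hl j hj).1]
  have h1 : ∀ l ∈ range (L + 1), ∫ t, ∑ j ∈ range (2 ^ (L - l)), W1 c (2 ^ L) (Q + j * 2 ^ l) ψ (2 ^ l) t ∂μ ≤
      10 * X ^ 3 + 8 * K₁ C σ / (1 - σ) * g ^ (-σ) * X ^ (4 - 2 * σ) := by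
    intro l hl
    rw [integral_finsetSum _ fun j hj => (hW l hl j hj).1]
    refine (sum_le_sum fun j hj => (hW l hl j hj).2).trans ?_
    rw [sum_const, card_range, nsmul_eq_mul]
    push_cast
    rw [mem_range] at hl
    obtain ⟨Y, hY⟩ : ∃ Y : ℝ, Y = (2 : ℝ) ^ l := ⟨_, rfl⟩
    have hY1 : 1 ≤ Y := by rw [hY]; exact one_le_pow₀ (by norm_num)
    have hY0 : 0 < Y := by linarith
    have hYX : Y ≤ X := by rw [hX, hY]; exact pow_le_pow_right₀ (by norm_num) (by omega)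
    have e1 : (2 : ℝ) ^ (L - l) * Y = X := by
      rw [hX, hY, ← pow_add]
      congr 1
      omega
    rw [← hY]
    have e3 : Y ^ (3 - 2 * σ) = Y * Y ^ (2 - 2 * σ) := by
      rw [show (3 - 2 * σ) = 1 + (2 - 2 * σ) by ring, Real.rpow_add hY0, Real.rpow_one]
    have e4 : Y ^ (2 - 2 * σ) ≤ X ^ (2 - 2 * σ) := Real.rpow_le_rpow hY0.le hYX (by linarith)
    have e5 : X ^ (4 - 2 * σ) = X * X * X ^ (2 - 2 * σ) := by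
      rw [show X * X = X ^ (2 : ℝ) by rw [show (2 : ℝ) = ((2 : ℕ) : ℝ) by norm_num, Real.rpow_natCast]; ring, ← Real.rpow_add hX0]
      congr 1
      ring
    obtain ⟨κ, hκ⟩ : ∃ κ : ℝ, κ = 8 * K₁ C σ / (1 - σ) * g ^ (-σ) := ⟨_, rfl⟩
    have hκ0 : 0 ≤ κ := by rw [hκ]; positivity
    rw [← hκ]
    calc (2 : ℝ) ^ (L - l) * (X * (10 * Y ^ 2 + κ * Y ^ (3 - 2 * σ))) = ((2 : ℝ) ^ (L - l) * Y) * X * (10 * Y + κ * Y ^ (2 - 2 * σ)) := by rw [e3]; ring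
      _ = X * X * (10 * Y + κ * Y ^ (2 - 2 * σ)) := by rw [e1]
      _ ≤ X * X * (10 * X + κ * X ^ (2 - 2 * σ)) := by gcongr
      _ = _ := by rw [e5]; ring
  refine (sum_le_sum h1).trans (le_of_eq ?_)
  rw [sum_const, card_range, nsmul_eq_mul, hX]
  push_cast
  ring

end Pool.Agent.V11290.VW.G
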