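import Pool.Agent.V11290.VW.G1
import Pool.Agent.V11290.VW.F3

set_option autoImplicit false

/-! Exponential sums with a general phase, uniformly in the linear coefficient: the pointwise bound and the measure bound. -/

namespace Pool.Agent.V11290.VW.G

open Finset MeasureTheory ComplexConjugate

lemma grid_le (c : ℕ → ℂ) (hc : ∀ n, ‖c n‖ ≤ 1) (Q : ℕ) (ψ : ℕ → ℝ) (L : ℕ) (t : ℝ) (m : ℕ) (hm : m < 2 ^ L) (q : ℕ) (hq : q ≤ 2 ^ L) :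
    ‖∑ i ∈ range q, bb c Q ψ t i * zt (2 ^ L) ^ (i * m)‖ ^ 4 ≤ ((L : ℝ) + 1) ^ 3 * WW c Q ψ L t := by
  refine (dyad4 (fun i => bb c Q ψ t i * zt (2 ^ L) ^ (i * m)) hq).trans ?_
  apply mul_le_mul_of_nonneg_left _ (by positivity)
  unfold WW
  apply sum_le_sum
  intro l hl
  apply sum_le_sum
  intro j hj
  rw [mem_range] at hl
  have hH : 2 ^ l ≤ 2 ^ L := Nat.pow_le_pow_right (by norm_num) (by omega)
  have h1 := fourth (2 ^ L) (2 ^ l) (by positivity) hH (bb c (Q + j * 2 ^ l) ψ t) (bb_norm c hc _ _ _)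
  have h2 : ‖∑ i ∈ range (2 ^ l), bb c Q ψ t (j * 2 ^ l + i) * zt (2 ^ L) ^ ((j * 2 ^ l + i) * m)‖ ^ 4 ≤
      ∑ m' ∈ range (2 ^ L), ‖∑ i ∈ range (2 ^ l), bb c (Q + j * 2 ^ l) ψ t i * zt (2 ^ L) ^ (i * m')‖ ^ 4 := by
    have e1 : ∑ i ∈ range (2 ^ l), bb c Q ψ t (j * 2 ^ l + i) * zt (2 ^ L) ^ ((j * 2 ^ l + i) * m) =
        zt (2 ^ L) ^ (j * 2 ^ l * m) * ∑ i ∈ range (2 ^ l), bb c (Q + j * 2 ^ l) ψ t i * zt (2 ^ L) ^ (i * m) := by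
      rw [mul_sum]
      apply sum_congr rfl
      intro i _
      rw [bb_shift, add_mul, pow_add]
      ring
    rw [e1, norm_mul, norm_pow, zt_norm, one_pow, one_mul]
    exact single_le_sum (f := fun m' => ‖∑ i ∈ range (2 ^ l), bb c (Q + j * 2 ^ l) ψ t i * zt (2 ^ L) ^ (i * m')‖ ^ 4)
      (fun _ _ => by positivity) (mem_range.2 hm)
  exact h2.trans h1

lemma all_xi (c : ℕ → ℂ) (hc : ∀ n, ‖c n‖ ≤ 1) (Q : ℕ) (ψ : ℕ → ℝ) (L : ℕ) (t ξ : ℝ) (q : ℕ) (hq : q ≤ 2 ^ L) :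
    ‖∑ i ∈ range q, bb c Q ψ t i * Complex.exp (2 * Real.pi * Complex.I * ((ξ * i : ℝ) : ℂ))‖ ^ 4 ≤
      625 * (((L : ℝ) + 1) ^ 3 * WW c Q ψ L t) := by
  have hX0 : 0 ≤ ((L : ℝ) + 1) ^ 3 * WW c Q ψ L t := mul_nonneg (by positivity) (WW_nonneg c Q ψ L t)
  obtain ⟨B, hB0, hB⟩ : ∃ B : ℝ, 0 ≤ B ∧ B ^ 4 = ((L : ℝ) + 1) ^ 3 * WW c Q ψ L t := by
    refine ⟨(((L : ℝ) + 1) ^ 3 * WW c Q ψ L t) ^ (1 / 4 : ℝ), by positivity, ?_⟩
    rw [← Real.rpow_natCast, ← Real.rpow_mul hX0]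
    norm_num
  obtain ⟨m, hm, β, hβ, he⟩ := e_split (2 ^ L) (by positivity) ξ
  have e1 : ∑ i ∈ range q, bb c Q ψ t i * Complex.exp (2 * Real.pi * Complex.I * ((ξ * i : ℝ) : ℂ)) =
      ∑ i ∈ range q, (bb c Q ψ t i * zt (2 ^ L) ^ (i * m)) * Complex.exp (2 * Real.pi * Complex.I * ((β * i : ℝ) : ℂ)) := by
    apply sum_congr rfl
    intro i _
    rw [he]
    ring
  have hM0 : (0 : ℝ) < ((2 ^ L : ℕ) : ℝ) := by positivity
  have hnorm : ∀ i : ℕ, ‖Complex.exp (2 * Real.pi * Complex.I * ((β * i : ℝ) : ℂ))‖ = 1 := by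
    intro i
    rw [show (2 * Real.pi * Complex.I * ((β * i : ℝ) : ℂ) : ℂ) = ((2 * Real.pi * (β * i) : ℝ) : ℂ) * Complex.I by push_cast; ring,
      Complex.norm_exp_ofReal_mul_I]
  have h1 := abel_le (fun i => bb c Q ψ t i * zt (2 ^ L) ^ (i * m)) (fun i => Complex.exp (2 * Real.pi * Complex.I * ((β * i : ℝ) : ℂ)))
    q B (4 / ((2 ^ L : ℕ) : ℝ)) (by
      intro q' hq'
      have h2 := grid_le c hc Q ψ L t m hm q' (hq'.trans hq)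
      rw [← hB] at h2
      exact le_of_pow_le_pow_left₀ (by norm_num) hB0 h2) (fun i => (hnorm i).le) (by
      intro i
      have e2 : Complex.exp (2 * Real.pi * Complex.I * ((β * (i + 1 : ℕ) : ℝ) : ℂ)) - Complex.exp (2 * Real.pi * Complex.I * ((β * i : ℝ) : ℂ)) =
          Complex.exp (2 * Real.pi * Complex.I * ((β * i : ℝ) : ℂ)) * (Complex.exp (Complex.I * ((2 * Real.pi * β : ℝ) : ℂ)) - 1) := by
        rw [mul_sub, mul_one, ← Complex.exp_add]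
        congr 2
        push_cast
        ring
      show ‖Complex.exp (2 * Real.pi * Complex.I * ((β * (i + 1 : ℕ) : ℝ) : ℂ)) - Complex.exp (2 * Real.pi * Complex.I * ((β * i : ℝ) : ℂ))‖ ≤ _
      rw [e2, norm_mul, hnorm, one_mul]
      refine (Real.norm_exp_I_mul_ofReal_sub_one_le).trans ?_
      rw [Real.norm_eq_abs, abs_mul, abs_of_pos (by have := Real.pi_pos; positivity : (0 : ℝ) < 2 * Real.pi)]
      have hpi := Real.pi_lt_four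
      have hpi0 := Real.pi_pos
      calc 2 * Real.pi * |β| ≤ 2 * Real.pi * (1 / (2 * ((2 ^ L : ℕ) : ℝ))) := mul_le_mul_of_nonneg_left hβ (by positivity)
        _ = Real.pi / ((2 ^ L : ℕ) : ℝ) := by field_simp
        _ ≤ _ := div_le_div_of_nonneg_right hpi.le hM0.le)
  rw [e1]
  have h3 : (1 : ℝ) + q * (4 / ((2 ^ L : ℕ) : ℝ)) ≤ 5 := by
    have h4 : (q : ℝ) * (4 / ((2 ^ L : ℕ) : ℝ)) ≤ ((2 ^ L : ℕ) : ℝ) * (4 / ((2 ^ L : ℕ) : ℝ)) :=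
      mul_le_mul_of_nonneg_right (by exact_mod_cast hq) (by positivity)
    have h5 : ((2 ^ L : ℕ) : ℝ) * (4 / ((2 ^ L : ℕ) : ℝ)) = 4 := by field_simp
    linarith
  have h6 := h1.trans (mul_le_mul_of_nonneg_left h3 hB0)
  calc _ ≤ (B * 5) ^ 4 := pow_le_pow_left₀ (norm_nonneg _) h6 4
    _ = 625 * B ^ 4 := by ring
    _ = _ := by rw [hB]

lemma interval_xi (c : ℕ → ℂ) (hc : ∀ n, ‖c n‖ ≤ 1) (Q : ℕ) (ψ : ℕ → ℝ) (L : ℕ) (t ξ : ℝ) (N1 N2 : ℕ) (h1 : Q ≤ N1) (h2 : N2 < Q + 2 ^ L) :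
    ‖∑ n ∈ Icc N1 N2, c n * Complex.exp (2 * Real.pi * Complex.I * ((t * ψ n + ξ * n : ℝ) : ℂ))‖ ^ 4 ≤
      10000 * (((L : ℝ) + 1) ^ 3 * WW c Q ψ L t) := by
  have hX0 : 0 ≤ ((L : ℝ) + 1) ^ 3 * WW c Q ψ L t := mul_nonneg (by positivity) (WW_nonneg c Q ψ L t)
  rcases lt_or_ge N2 N1 with hlt | hle
  · rw [Icc_eq_empty (by omega), sum_empty, norm_zero]
    linarith
  obtain ⟨z, hz⟩ : ∃ z : ℕ → ℂ, z = fun i => bb c Q ψ t i * Complex.exp (2 * Real.pi * Complex.I * ((ξ * i : ℝ) : ℂ)) := ⟨_, rfl⟩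
  obtain ⟨e, he⟩ : ∃ e : ℂ, e = Complex.exp (2 * Real.pi * Complex.I * ((ξ * (Q : ℕ) : ℝ) : ℂ)) := ⟨_, rfl⟩
  have hen : ‖e‖ = 1 := by
    rw [he, show (2 * Real.pi * Complex.I * ((ξ * (Q : ℕ) : ℝ) : ℂ) : ℂ) = ((2 * Real.pi * (ξ * (Q : ℕ)) : ℝ) : ℂ) * Complex.I by push_cast; ring,
      Complex.norm_exp_ofReal_mul_I]
  have e1 : ∑ n ∈ Icc N1 N2, c n * Complex.exp (2 * Real.pi * Complex.I * ((t * ψ n + ξ * n : ℝ) : ℂ)) =
      e * (∑ i ∈ range (N2 + 1 - Q), z i - ∑ i ∈ range (N1 - Q), z i) := by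
    rw [← sum_Ico_eq_sub _ (by omega), mul_sum]
    apply sum_nbij' (fun n => n - Q) (fun i => Q + i)
    · intro n hn
      rw [mem_Icc] at hn
      rw [mem_Ico]
      omega
    · intro i hi
      rw [mem_Ico] at hi
      rw [mem_Icc]
      omega
    · intro n hn
      rw [mem_Icc] at hn
      omega
    · intro i hi
      omega
    · intro n hn
      rw [mem_Icc] at hn
      obtain ⟨i, rfl⟩ : ∃ i, n = Q + i := ⟨n - Q, by omega⟩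
      rw [Nat.add_sub_cancel_left, he, hz]
      unfold bb
      have e5 : (2 * Real.pi * Complex.I * ((t * ψ (Q + i) + ξ * ((Q + i : ℕ) : ℝ) : ℝ) : ℂ) : ℂ) =
          2 * Real.pi * Complex.I * ((ξ * (Q : ℕ) : ℝ) : ℂ) + (2 * Real.pi * Complex.I * ((t * ψ (Q + i) : ℝ) : ℂ) +
          2 * Real.pi * Complex.I * ((ξ * i : ℝ) : ℂ)) := by
        push_cast
        ring
      rw [e5, Complex.exp_add, Complex.exp_add]
      ring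
  have h3 := all_xi c hc Q ψ L t ξ (N2 + 1 - Q) (by omega)
  have h4 := all_xi c hc Q ψ L t ξ (N1 - Q) (by omega)
  rw [e1, norm_mul, hen, one_mul]
  have e2 : ∀ q : ℕ, ∑ i ∈ range q, bb c Q ψ t i * Complex.exp (2 * Real.pi * Complex.I * ((ξ * i : ℝ) : ℂ)) = ∑ i ∈ range q, z i := by
    intro q
    rw [hz]
  rw [e2] at h3 h4
  have h5 := norm_sub_le (∑ i ∈ range (N2 + 1 - Q), z i) (∑ i ∈ range (N1 - Q), z i)
  obtain ⟨x, hx⟩ : ∃ x : ℝ, x = ‖∑ i ∈ range (N2 + 1 - Q), z i‖ := ⟨_, rfl⟩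
  obtain ⟨y, hy⟩ : ∃ y : ℝ, y = ‖∑ i ∈ range (N1 - Q), z i‖ := ⟨_, rfl⟩
  rw [← hx] at h3
  rw [← hy] at h4
  rw [← hx, ← hy] at h5
  have h6 : (x + y) ^ 4 ≤ 8 * (x ^ 4 + y ^ 4) := by
    have h7 : (x + y) ^ 2 ≤ 2 * (x ^ 2 + y ^ 2) := by nlinarith [sq_nonneg (x - y)]
    calc (x + y) ^ 4 = ((x + y) ^ 2) ^ 2 := by ring
      _ ≤ (2 * (x ^ 2 + y ^ 2)) ^ 2 := pow_le_pow_left₀ (by positivity) h7 2
      _ ≤ _ := by nlinarith [sq_nonneg (x ^ 2 - y ^ 2)]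
  calc _ ≤ (x + y) ^ 4 := pow_le_pow_left₀ (norm_nonneg _) h5 4
    _ ≤ 8 * (x ^ 4 + y ^ 4) := h6
    _ ≤ 8 * (625 * (((L : ℝ) + 1) ^ 3 * WW c Q ψ L t) + 625 * (((L : ℝ) + 1) ^ 3 * WW c Q ψ L t)) := by gcongr
    _ = _ := by ring


end Pool.Agent.V11290.VW.G
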