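import Pool.Agent.V11290.VW.G2

set_option autoImplicit false

/-! Exponential sums with a general phase, uniformly in the linear coefficient: the measure of the exceptional set. -/

namespace Pool.Agent.V11290.VW.G

open Finset MeasureTheory ComplexConjugate

lemma mvt2 (N c : ℝ) (f : ℝ → ℝ) (hf : ContinuousOn f (Set.Icc N (2 * N)))
    (hf' : ∀ x ∈ Set.Ioo N (2 * N), DifferentiableAt ℝ f x ∧ DifferentiableAt ℝ (deriv f) x ∧ c ≤ |deriv (deriv f) x|)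
    (x y h : ℝ) (hx : N ≤ x) (hxy : x < y) (hh : 0 < h) (hy : y + h ≤ 2 * N) :
    c * (h * (y - x)) ≤ |(f (x + h) - f x) - (f (y + h) - f y)| := by
  have hd : ∀ u ∈ Set.Ioo x y, HasDerivAt (fun u => f (u + h) - f u) (deriv f (u + h) - deriv f u) u := by
    intro u hu
    have h1 := (hf' (u + h) ⟨by linarith [hu.1], by linarith [hu.2]⟩).1.hasDerivAt
    have h2 := (hf' u ⟨by linarith [hu.1], by linarith [hu.2]⟩).1.hasDerivAt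
    have h3 : HasDerivAt (fun u => f (u + h)) (deriv f (u + h)) u := by
      have := HasDerivAt.comp_add_const u h h1
      exact this
    exact h3.sub h2
  have hc : ContinuousOn (fun u => f (u + h) - f u) (Set.Icc x y) := by
    apply ContinuousOn.sub
    · apply hf.comp (by fun_prop)
      intro u hu
      exact ⟨by linarith [hu.1], by linarith [hu.2]⟩
    · exact hf.mono (Set.Icc_subset_Icc hx (by linarith))
  obtain ⟨u, hu, hu2⟩ := exists_hasDerivAt_eq_slope (fun u => f (u + h) - f u) (fun u => deriv f (u + h) - deriv f u) hxy hc hd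
  have hc2 : ContinuousOn (deriv f) (Set.Icc u (u + h)) := by
    intro v hv
    exact (hf' v ⟨by linarith [hv.1, hu.1], by linarith [hv.2, hu.2]⟩).2.1.continuousAt.continuousWithinAt
  obtain ⟨v, hv, hv2⟩ := exists_deriv_eq_slope (deriv f) (show u < u + h by linarith) hc2 (fun w hw =>
    ((hf' w ⟨by linarith [hw.1, hu.1], by linarith [hw.2, hu.2]⟩).2.1).differentiableWithinAt)
  have h4 := (hf' v ⟨by linarith [hv.1, hu.1], by linarith [hv.2, hu.2]⟩).2.2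
  have h5 : deriv f (u + h) - deriv f u = deriv (deriv f) v * h := by
    rw [hv2, show u + h - u = h by ring]
    field_simp
  have hyx : 0 < y - x := by linarith
  have h6 : (f (y + h) - f y) - (f (x + h) - f x) = deriv (deriv f) v * h * (y - x) := by
    rw [← h5, hu2]
    field_simp
  rw [abs_sub_comm, h6, abs_mul, abs_mul, abs_of_pos hh, abs_of_pos hyx]
  calc c * (h * (y - x)) ≤ |deriv (deriv f) v| * (h * (y - x)) := mul_le_mul_of_nonneg_right h4 (by positivity)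
    _ = _ := by ring

theorem unif_meas (μ : Measure ℝ) [IsProbabilityMeasure μ] (C σ : ℝ) (hσ0 : 0 < σ) (hσ1 : σ < 1)
    (hdec : ∀ ξ : ℝ, 1 ≤ |ξ| → ‖charFun μ ξ‖ ≤ C * |ξ| ^ (-σ)) (c₁ : ℝ) (hc₁ : 0 < c₁) (N F : ℝ) (hN : 2 ≤ N) (hF : 0 < F)
    (f : ℝ → ℝ) (hgap : ∀ x y h : ℝ, N ≤ x → x < y → 0 < h → y + h ≤ 2 * N →
      c₁ * F / N ^ 2 * (h * (y - x)) ≤ |(f (x + h) - f x) - (f (y + h) - f y)|)
    (a : ℕ → ℂ) (ha : ∀ n, ‖a n‖ ≤ 1) (V : ℝ) (hV : 0 < V) :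
    μ {α : ℝ | ∃ (ξ : ℝ) (N1 N2 : ℕ), N ≤ N1 ∧ (N2 : ℝ) ≤ 2 * N ∧
      N ^ (3 / 4 : ℝ) * V < ‖∑ n ∈ Icc N1 N2, a n * Complex.exp (2 * Real.pi * Complex.I * ((α * f n + ξ * n : ℝ) : ℂ))‖} ≤
      ENNReal.ofReal (810000 * (640 + 256 * (8 * K₁ C σ / (1 - σ)) * c₁ ^ (-σ)) * (1 + Real.log N) ^ 4 * (1 + N * F ^ (-σ)) / V ^ 4) := by
  have hN0 : 0 < N := by linarith
  have hσ' : 0 < 1 - σ := by linarith
  have hK : 0 ≤ K₁ C σ := by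
    unfold K₁
    positivity
  obtain ⟨κ, hκ⟩ : ∃ κ : ℝ, κ = 8 * K₁ C σ / (1 - σ) := ⟨_, rfl⟩
  have hκ0 : 0 ≤ κ := by rw [hκ]; positivity
  obtain ⟨n₀, hn1, hn2⟩ := exists_nat_pow_near (show (1 : ℝ) ≤ N + 1 by linarith) (show (1 : ℝ) < 2 by norm_num)
  obtain ⟨L, hL⟩ : ∃ L, L = n₀ + 1 := ⟨_, rfl⟩
  rw [← hL] at hn2
  obtain ⟨Q, hQ⟩ : ∃ Q, Q = ⌈N⌉₊ := ⟨_, rfl⟩
  have hQN : N ≤ Q := by rw [hQ]; exact Nat.le_ceil _
  obtain ⟨c, hc⟩ : ∃ c : ℕ → ℂ, c = fun n : ℕ => if N ≤ (n : ℝ) ∧ (n : ℝ) ≤ 2 * N then a n else 0 := ⟨_, rfl⟩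
  obtain ⟨ψ, hψ⟩ : ∃ ψ : ℕ → ℝ, ψ = fun n : ℕ => f n := ⟨_, rfl⟩
  obtain ⟨g, hg⟩ : ∃ g : ℝ, g = c₁ * F / N ^ 2 := ⟨_, rfl⟩
  have hg0 : 0 < g := by rw [hg]; positivity
  have hc1 : ∀ n, ‖c n‖ ≤ 1 := by
    intro n
    rw [hc]
    simp only
    split_ifs
    · exact ha _
    · rw [norm_zero]
      exact zero_le_one
  have hcn : ∀ n, c n ≠ 0 → N ≤ (n : ℝ) ∧ (n : ℝ) ≤ 2 * N := by
    intro n hn
    by_contra hcon
    apply hn
    rw [hc]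
    simp only
    rw [if_neg hcon]
  have hgap' : Gap c ψ g := by
    intro a' b h hh hab h1 h2
    have h3 := hgap a' b h (hcn _ h1).1 (by exact_mod_cast hab) (by exact_mod_cast hh) (by
      have := (hcn _ h2).2
      push_cast at this
      exact this)
    rw [hψ, hg]
    push_cast
    calc c₁ * F / N ^ 2 * h * ((b : ℝ) - a') = c₁ * F / N ^ 2 * (h * ((b : ℝ) - a')) := by ring
      _ ≤ _ := h3
  obtain ⟨hint, hmom⟩ := WW_moment μ C σ hσ0 hσ1 hdec c hc1 Q ψ g hg0 hgap' L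
  rw [← hκ] at hmom ⊢
  obtain ⟨lam, hlam⟩ : ∃ lam : ℝ, lam = (N ^ (3 / 4 : ℝ) * V) ^ 4 / (10000 * ((L : ℝ) + 1) ^ 3) := ⟨_, rfl⟩
  have hlam0 : 0 < lam := by rw [hlam]; positivity
  have hsub : {α : ℝ | ∃ (ξ : ℝ) (N1 N2 : ℕ), N ≤ N1 ∧ (N2 : ℝ) ≤ 2 * N ∧
      N ^ (3 / 4 : ℝ) * V < ‖∑ n ∈ Icc N1 N2, a n * Complex.exp (2 * Real.pi * Complex.I * ((α * f n + ξ * n : ℝ) : ℂ))‖} ⊆
      {α : ℝ | lam ≤ WW c Q ψ L α} := by
    rintro α ⟨ξ, N1, N2, h1, h2, h3⟩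
    have h4 := interval_xi c hc1 Q ψ L α ξ N1 N2 (by rw [hQ]; exact Nat.ceil_le.2 h1) (by
      have h5 : (N2 : ℝ) < ((Q + 2 ^ L : ℕ) : ℝ) := by
        push_cast
        linarith
      exact_mod_cast h5)
    have e1 : ∑ n ∈ Icc N1 N2, c n * Complex.exp (2 * Real.pi * Complex.I * ((α * ψ n + ξ * n : ℝ) : ℂ)) =
        ∑ n ∈ Icc N1 N2, a n * Complex.exp (2 * Real.pi * Complex.I * ((α * f n + ξ * n : ℝ) : ℂ)) := by
      apply sum_congr rfl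
      intro n hn
      rw [mem_Icc] at hn
      have h6 : N ≤ (n : ℝ) := h1.trans (by exact_mod_cast hn.1)
      have h7 : (n : ℝ) ≤ 2 * N := le_trans (by exact_mod_cast hn.2) h2
      rw [hc, hψ]
      simp only
      rw [if_pos ⟨h6, h7⟩]
    rw [e1] at h4
    rw [Set.mem_ofPred_eq, hlam, div_le_iff₀ (by positivity)]
    have h5 : (N ^ (3 / 4 : ℝ) * V) ^ 4 ≤ ‖∑ n ∈ Icc N1 N2, a n * Complex.exp (2 * Real.pi * Complex.I * ((α * f n + ξ * n : ℝ) : ℂ))‖ ^ 4 :=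
      pow_le_pow_left₀ (by positivity) h3.le 4
    refine h5.trans (h4.trans (le_of_eq ?_))
    ring
  refine (measure_mono hsub).trans ?_
  have h2 := mul_meas_ge_le_integral_of_nonneg (μ := μ) (f := WW c Q ψ L) (Filter.Eventually.of_forall fun t => WW_nonneg c Q ψ L t) hint lam
  have h3 := h2.trans hmom
  rw [mul_comm, ← le_div_iff₀ hlam0] at h3
  rw [← ENNReal.ofReal_toReal (measure_ne_top μ _)]
  apply ENNReal.ofReal_le_ofReal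
  refine h3.trans ?_
  have hX0 : (0 : ℝ) < 2 ^ L := by positivity
  have hX1 : (2 : ℝ) ^ L ≤ 4 * N := by
    rw [hL, pow_succ]
    linarith
  have hlog2 : (1 : ℝ) / 2 ≤ Real.log 2 := by
    have := Real.log_two_gt_d9
    linarith
  have hlogN : 0 ≤ Real.log N := Real.log_nonneg (by linarith)
  have hn₀ : (n₀ : ℝ) ≤ 1 + 2 * Real.log N := by
    have h1 : (n₀ : ℝ) * Real.log 2 ≤ Real.log 2 + Real.log N := by
      rw [← Real.log_pow, ← Real.log_mul (by norm_num) hN0.ne']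
      exact Real.log_le_log (by positivity) (by linarith)
    have h2 : (n₀ : ℝ) - 1 ≤ Real.log N / Real.log 2 := by
      rw [le_div_iff₀ (by linarith)]
      linarith
    have h3 : Real.log N / Real.log 2 ≤ Real.log N / (1 / 2) := div_le_div_of_nonneg_left hlogN (by norm_num) hlog2
    linarith
  have hL2 : ((L : ℝ) + 1) ^ 4 ≤ 81 * (1 + Real.log N) ^ 4 := by
    have h1 : (L : ℝ) + 1 ≤ 3 * (1 + Real.log N) := by rw [hL]; push_cast; linarith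
    calc ((L : ℝ) + 1) ^ 4 ≤ (3 * (1 + Real.log N)) ^ 4 := pow_le_pow_left₀ (by positivity) h1 4
      _ = _ := by ring
  have hA : 10 * ((2 : ℝ) ^ L) ^ 3 ≤ 640 * N ^ 3 := by
    calc 10 * ((2 : ℝ) ^ L) ^ 3 ≤ 10 * (4 * N) ^ 3 := by gcongr
      _ = _ := by ring
  have hB : g ^ (-σ) * ((2 : ℝ) ^ L) ^ (4 - 2 * σ) ≤ 256 * c₁ ^ (-σ) * F ^ (-σ) * N ^ 4 := by
    have h1 : ((2 : ℝ) ^ L) ^ (4 - 2 * σ) ≤ 256 * N ^ (4 - 2 * σ) := by
      calc ((2 : ℝ) ^ L) ^ (4 - 2 * σ) ≤ (4 * N) ^ (4 - 2 * σ) := Real.rpow_le_rpow hX0.le hX1 (by linarith)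
        _ = 4 ^ (4 - 2 * σ) * N ^ (4 - 2 * σ) := Real.mul_rpow (by norm_num) hN0.le
        _ ≤ 256 * N ^ (4 - 2 * σ) := by
            apply mul_le_mul_of_nonneg_right _ (by positivity)
            calc (4 : ℝ) ^ (4 - 2 * σ) ≤ (4 : ℝ) ^ (4 : ℝ) := Real.rpow_le_rpow_of_exponent_le (by norm_num) (by linarith)
              _ = 256 := by
                rw [show (4 : ℝ) ^ (4 : ℝ) = (4 : ℝ) ^ ((4 : ℕ) : ℝ) by norm_num, Real.rpow_natCast]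
                norm_num
    have h2 : g ^ (-σ) = c₁ ^ (-σ) * F ^ (-σ) * N ^ (2 * σ) := by
      rw [hg, Real.div_rpow (by positivity) (by positivity), Real.mul_rpow hc₁.le hF.le]
      rw [← Real.rpow_natCast N 2, ← Real.rpow_mul hN0.le, div_eq_mul_inv, ← Real.rpow_neg hN0.le]
      congr 2
      push_cast
      ring
    have h3 : N ^ (2 * σ) * N ^ (4 - 2 * σ) = N ^ 4 := by
      rw [← Real.rpow_add hN0, show 2 * σ + (4 - 2 * σ) = ((4 : ℕ) : ℝ) by push_cast; ring, Real.rpow_natCast]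
    calc g ^ (-σ) * ((2 : ℝ) ^ L) ^ (4 - 2 * σ) ≤ g ^ (-σ) * (256 * N ^ (4 - 2 * σ)) := mul_le_mul_of_nonneg_left h1 (by positivity)
      _ = 256 * c₁ ^ (-σ) * F ^ (-σ) * (N ^ (2 * σ) * N ^ (4 - 2 * σ)) := by rw [h2]; ring
      _ = _ := by rw [h3]
  have hsum : 10 * ((2 : ℝ) ^ L) ^ 3 + κ * g ^ (-σ) * ((2 : ℝ) ^ L) ^ (4 - 2 * σ) ≤ (640 + 256 * κ * c₁ ^ (-σ)) * (1 + N * F ^ (-σ)) * N ^ 3 := by
    have h1 : κ * (g ^ (-σ) * ((2 : ℝ) ^ L) ^ (4 - 2 * σ)) ≤ κ * (256 * c₁ ^ (-σ) * F ^ (-σ) * N ^ 4) := mul_le_mul_of_nonneg_left hB hκ0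
    have h2 : 0 ≤ 640 * (N * F ^ (-σ)) * N ^ 3 := by positivity
    have h3 : 0 ≤ 256 * κ * c₁ ^ (-σ) * N ^ 3 := by positivity
    calc 10 * ((2 : ℝ) ^ L) ^ 3 + κ * g ^ (-σ) * ((2 : ℝ) ^ L) ^ (4 - 2 * σ) = 10 * ((2 : ℝ) ^ L) ^ 3 + κ * (g ^ (-σ) * ((2 : ℝ) ^ L) ^ (4 - 2 * σ)) := by ring
      _ ≤ 640 * N ^ 3 + κ * (256 * c₁ ^ (-σ) * F ^ (-σ) * N ^ 4) := add_le_add hA h1
      _ ≤ 640 * N ^ 3 + κ * (256 * c₁ ^ (-σ) * F ^ (-σ) * N ^ 4) + 640 * (N * F ^ (-σ)) * N ^ 3 + 256 * κ * c₁ ^ (-σ) * N ^ 3 := by linarith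
      _ = _ := by ring
  have hN3 : (N ^ (3 / 4 : ℝ) * V) ^ 4 = N ^ 3 * V ^ 4 := by
    rw [mul_pow, ← Real.rpow_natCast (N ^ (3 / 4 : ℝ)), ← Real.rpow_mul hN0.le]
    congr 1
    rw [show (3 / 4 : ℝ) * ((4 : ℕ) : ℝ) = ((3 : ℕ) : ℝ) by push_cast; ring, Real.rpow_natCast]
  rw [hlam, hN3]
  obtain ⟨Z, hZ⟩ : ∃ Z : ℝ, Z = 640 + 256 * κ * c₁ ^ (-σ) := ⟨_, rfl⟩
  rw [← hZ] at hsum ⊢
  have hZ0 : 0 ≤ Z := by rw [hZ]; positivity
  have hS0 : 0 ≤ 10 * ((2 : ℝ) ^ L) ^ 3 + κ * g ^ (-σ) * ((2 : ℝ) ^ L) ^ (4 - 2 * σ) := by positivity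
  rw [div_div_eq_mul_div, div_le_div_iff₀ (by positivity) (by positivity)]
  calc ((L : ℝ) + 1) * (10 * ((2 : ℝ) ^ L) ^ 3 + κ * g ^ (-σ) * ((2 : ℝ) ^ L) ^ (4 - 2 * σ)) * (10000 * ((L : ℝ) + 1) ^ 3) * V ^ 4 =
      10000 * (((L : ℝ) + 1) ^ 4) * (10 * ((2 : ℝ) ^ L) ^ 3 + κ * g ^ (-σ) * ((2 : ℝ) ^ L) ^ (4 - 2 * σ)) * V ^ 4 := by ring
    _ ≤ 10000 * (81 * (1 + Real.log N) ^ 4) * (Z * (1 + N * F ^ (-σ)) * N ^ 3) * V ^ 4 := by
        apply mul_le_mul_of_nonneg_right _ (by positivity)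
        apply mul_le_mul _ hsum hS0 (by positivity)
        linarith
    _ = _ := by ring

end Pool.Agent.V11290.VW.G
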