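import Mathlib

set_option autoImplicit false

/-! Sums for the off-diagonal terms of a Voronoi sum. -/

namespace Pool.Agent.V11290.VW

open Finset

lemma pow_step (p : ℝ) (hp0 : 0 ≤ p) (hp1 : p < 1) (n : ℕ) :
    (n : ℝ) ^ (1 - p) / (1 - p) + ((n + 1 : ℕ) : ℝ) ^ (-p) ≤ ((n + 1 : ℕ) : ℝ) ^ (1 - p) / (1 - p) := by
  have hn : (0 : ℝ) < ((n + 1 : ℕ) : ℝ) := by positivity
  have h1 : (0 : ℝ) < 1 - p := by linarith
  have hb := rpow_one_add_le_one_add_mul_self (s := -(1 / ((n + 1 : ℕ) : ℝ))) (p := 1 - p)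
    (by
      have : 1 / ((n + 1 : ℕ) : ℝ) ≤ 1 := by
        rw [div_le_one hn]
        push_cast
        linarith [Nat.cast_nonneg (α := ℝ) n]
      linarith) h1.le (by linarith)
  have e1 : (1 : ℝ) + -(1 / ((n + 1 : ℕ) : ℝ)) = (n : ℝ) / ((n + 1 : ℕ) : ℝ) := by
    field_simp
    push_cast
    ring
  rw [e1, Real.div_rpow (Nat.cast_nonneg n) hn.le, div_le_iff₀ (by positivity)] at hb
  have e2 : ((n + 1 : ℕ) : ℝ) ^ (-p) = ((n + 1 : ℕ) : ℝ) ^ (1 - p) / ((n + 1 : ℕ) : ℝ) := by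
    rw [eq_div_iff hn.ne', ← Real.rpow_add_one hn.ne']
    congr 1
    ring
  rw [e2, ← sub_nonneg]
  have e3 : ((n + 1 : ℕ) : ℝ) ^ (1 - p) / (1 - p) - ((n : ℝ) ^ (1 - p) / (1 - p) + ((n + 1 : ℕ) : ℝ) ^ (1 - p) / ((n + 1 : ℕ) : ℝ)) =
      ((1 + (1 - p) * -(1 / ((n + 1 : ℕ) : ℝ))) * ((n + 1 : ℕ) : ℝ) ^ (1 - p) - (n : ℝ) ^ (1 - p)) / (1 - p) := by
    field_simp
    ring
  rw [e3]
  exact div_nonneg (by linarith) h1.le

lemma sum_pow (p : ℝ) (hp0 : 0 ≤ p) (hp1 : p < 1) (n : ℕ) : ∑ k ∈ Icc 1 n, (k : ℝ) ^ (-p) ≤ (n : ℝ) ^ (1 - p) / (1 - p) := by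
  induction n with
  | zero =>
    have h1 : (0 : ℝ) < 1 - p := by linarith
    simp only [Nat.cast_zero]
    rw [Real.zero_rpow h1.ne']
    simp
  | succ n ih =>
    rw [Finset.sum_Icc_succ_top (by omega)]
    exact (add_le_add ih le_rfl).trans (pow_step p hp0 hp1 n)

/-- the inner sum -/
lemma inner_sum (p σ : ℝ) (hp0 : 0 ≤ p) (hp1 : p < 1) (hσ0 : 0 ≤ σ) (hσ1 : σ < 1) (n : ℕ) (hn : 1 ≤ n) :
    ∑ m ∈ Ico 1 n, (m : ℝ) ^ (-p) * ((n : ℝ) - m) ^ (-σ) ≤ (2 / (1 - p) + 2 / (1 - σ)) * (n : ℝ) ^ (1 - p - σ) := by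
  have hn0 : (0 : ℝ) < n := by exact_mod_cast hn
  have hh : (0 : ℝ) < (n : ℝ) / 2 := by positivity
  have h1 : ∀ m ∈ Ico 1 n, (m : ℝ) ^ (-p) * ((n : ℝ) - m) ^ (-σ) ≤
      ((n : ℝ) / 2) ^ (-σ) * (m : ℝ) ^ (-p) + ((n : ℝ) / 2) ^ (-p) * ((n : ℝ) - m) ^ (-σ) := by
    intro m hm
    rw [mem_Ico] at hm
    have hm0 : (0 : ℝ) < m := by exact_mod_cast hm.1
    have hmn : (0 : ℝ) < (n : ℝ) - m := by
      have : (m : ℝ) < n := by exact_mod_cast hm.2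
      linarith
    rcases le_total ((n : ℝ) / 2) ((n : ℝ) - m) with h | h
    · have h2 : ((n : ℝ) - m) ^ (-σ) ≤ ((n : ℝ) / 2) ^ (-σ) := Real.rpow_le_rpow_of_nonpos hh h (by linarith)
      have h3 : 0 ≤ ((n : ℝ) / 2) ^ (-p) * ((n : ℝ) - m) ^ (-σ) := by positivity
      nlinarith [Real.rpow_pos_of_pos hm0 (-p)]
    · have h2 : (m : ℝ) ^ (-p) ≤ ((n : ℝ) / 2) ^ (-p) := Real.rpow_le_rpow_of_nonpos hh (by linarith) (by linarith)
      have h3 : 0 ≤ ((n : ℝ) / 2) ^ (-σ) * (m : ℝ) ^ (-p) := by positivity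
      nlinarith [Real.rpow_pos_of_pos hmn (-σ)]
  refine (sum_le_sum h1).trans ?_
  rw [sum_add_distrib, ← mul_sum, ← mul_sum]
  have hsub : Ico 1 n ⊆ Icc 1 n := Ico_subset_Icc_self
  have s1 : ∑ m ∈ Ico 1 n, (m : ℝ) ^ (-p) ≤ (n : ℝ) ^ (1 - p) / (1 - p) :=
    (sum_le_sum_of_subset_of_nonneg hsub fun i _ _ => by positivity).trans (sum_pow p hp0 hp1 n)
  have s2 : ∑ m ∈ Ico 1 n, ((n : ℝ) - m) ^ (-σ) ≤ (n : ℝ) ^ (1 - σ) / (1 - σ) := by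
    have e : ∑ m ∈ Ico 1 n, ((n : ℝ) - m) ^ (-σ) = ∑ m ∈ Ico 1 n, (m : ℝ) ^ (-σ) := by
      apply sum_nbij' (fun m => n - m) (fun m => n - m)
      · intro m hm
        rw [mem_Ico] at hm ⊢
        omega
      · intro m hm
        rw [mem_Ico] at hm ⊢
        omega
      · intro m hm
        rw [mem_Ico] at hm
        omega
      · intro m hm
        rw [mem_Ico] at hm
        omega
      · intro m hm
        rw [mem_Ico] at hm
        rw [Nat.cast_sub hm.2.le]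
    rw [e]
    exact (sum_le_sum_of_subset_of_nonneg hsub fun i _ _ => by positivity).trans (sum_pow σ hσ0 hσ1 n)
  have p1 : (0 : ℝ) < 1 - p := by linarith
  have q1 : (0 : ℝ) < 1 - σ := by linarith
  have t1 : ((n : ℝ) / 2) ^ (-σ) ≤ 2 * (n : ℝ) ^ (-σ) := by
    rw [Real.div_rpow hn0.le (by norm_num), Real.rpow_neg (by norm_num : (0 : ℝ) ≤ 2), div_inv_eq_mul, mul_comm]
    apply mul_le_mul_of_nonneg_right _ (by positivity)
    calc (2 : ℝ) ^ σ ≤ 2 ^ (1 : ℝ) := Real.rpow_le_rpow_of_exponent_le (by norm_num) hσ1.le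
      _ = 2 := Real.rpow_one 2
  have t2 : ((n : ℝ) / 2) ^ (-p) ≤ 2 * (n : ℝ) ^ (-p) := by
    rw [Real.div_rpow hn0.le (by norm_num), Real.rpow_neg (by norm_num : (0 : ℝ) ≤ 2), div_inv_eq_mul, mul_comm]
    apply mul_le_mul_of_nonneg_right _ (by positivity)
    calc (2 : ℝ) ^ p ≤ 2 ^ (1 : ℝ) := Real.rpow_le_rpow_of_exponent_le (by norm_num) hp1.le
      _ = 2 := Real.rpow_one 2
  calc ((n : ℝ) / 2) ^ (-σ) * ∑ m ∈ Ico 1 n, (m : ℝ) ^ (-p) + ((n : ℝ) / 2) ^ (-p) * ∑ m ∈ Ico 1 n, ((n : ℝ) - m) ^ (-σ)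
      ≤ (2 * (n : ℝ) ^ (-σ)) * ((n : ℝ) ^ (1 - p) / (1 - p)) + (2 * (n : ℝ) ^ (-p)) * ((n : ℝ) ^ (1 - σ) / (1 - σ)) := by
        apply add_le_add
        · exact mul_le_mul t1 s1 (sum_nonneg fun i _ => by positivity) (by positivity)
        · apply mul_le_mul t2 s2 _ (by positivity)
          apply sum_nonneg
          intro m hm
          rw [mem_Ico] at hm
          have : (m : ℝ) < n := by exact_mod_cast hm.2
          have : (0 : ℝ) ≤ (n : ℝ) - m := by linarith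
          positivity
    _ = 2 / (1 - p) * ((n : ℝ) ^ (-σ) * (n : ℝ) ^ (1 - p)) + 2 / (1 - σ) * ((n : ℝ) ^ (-p) * (n : ℝ) ^ (1 - σ)) := by ring
    _ = _ := by
        rw [← Real.rpow_add hn0, ← Real.rpow_add hn0]
        have e1 : -σ + (1 - p) = 1 - p - σ := by ring
        have e2 : -p + (1 - σ) = 1 - p - σ := by ring
        rw [e1, e2]
        ring

lemma sqrt_gap (m n : ℕ) (hmn : m < n) : ((n : ℝ) - m) / (2 * √(n : ℝ)) ≤ √(n : ℝ) - √(m : ℝ) := by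
  have hn0 : (0 : ℝ) < n := by exact_mod_cast (Nat.zero_le m).trans_lt hmn
  have hs : 0 < √(n : ℝ) := Real.sqrt_pos.2 hn0
  have hle : √(m : ℝ) ≤ √(n : ℝ) := Real.sqrt_le_sqrt (by exact_mod_cast hmn.le)
  rw [div_le_iff₀ (by positivity)]
  have h1 : (n : ℝ) = √(n : ℝ) ^ 2 := (Real.sq_sqrt hn0.le).symm
  have h2 : (m : ℝ) = √(m : ℝ) ^ 2 := (Real.sq_sqrt (Nat.cast_nonneg m)).symm
  have h3 := Real.sqrt_nonneg (m : ℝ)
  nlinarith

/-- the weight is bounded by every intermediate power -/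
lemma w_pow {w : ℝ → ℂ} (h1 : ∀ y : ℝ, 0 < y → ‖w y‖ ≤ 1) {Cw : ℝ} (h2 : ∀ y : ℝ, 0 < y → ‖w y‖ ≤ Cw * y ^ (-(3 / 2) : ℝ))
    (e : ℝ) (he0 : 0 ≤ e) (he1 : e ≤ 3 / 2) (y : ℝ) (hy : 0 < y) : ‖w y‖ ≤ (|Cw| + 1) * y ^ (-e) := by
  have hC : 1 ≤ |Cw| + 1 := by linarith [abs_nonneg Cw]
  rcases le_total y 1 with hy1 | hy1
  · calc ‖w y‖ ≤ 1 := h1 y hy
      _ = 1 * 1 := by ring
      _ ≤ (|Cw| + 1) * y ^ (-e) := by
          apply mul_le_mul hC _ zero_le_one (by positivity)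
          exact Real.one_le_rpow_of_pos_of_le_one_of_nonpos hy hy1 (by linarith)
  · calc ‖w y‖ ≤ Cw * y ^ (-(3 / 2) : ℝ) := h2 y hy
      _ ≤ (|Cw| + 1) * y ^ (-e) := by
          apply mul_le_mul (by linarith [le_abs_self Cw]) _ (by positivity) (by positivity)
          exact Real.rpow_le_rpow_of_exponent_le hy1 (by linarith)

end Pool.Agent.V11290.VW
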