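import Pool.Agent.V11290.VW.M1

set_option autoImplicit false

/-! The second moment of a Voronoi sum over a measure with Fourier decay. -/

namespace Pool.Agent.V11290.VW

open Finset MeasureTheory ComplexConjugate

lemma exp_int (μ : Measure ℝ) [IsProbabilityMeasure μ] (ξ : ℝ) :
    Integrable (fun α : ℝ => Complex.exp ((ξ : ℂ) * α * Complex.I)) μ := by
  apply Integrable.of_bound (C := 1)
  · exact (by fun_prop : Continuous fun α : ℝ => Complex.exp ((ξ : ℂ) * α * Complex.I)).aestronglyMeasurable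
  · exact ae_of_all _ fun α => by
      have : (ξ : ℂ) * α * Complex.I = ((ξ * α : ℝ) : ℂ) * Complex.I := by push_cast; ring
      rw [this, Complex.norm_exp_ofReal_mul_I]

/-- the exponential sum with the frequencies `τ √m` -/
noncomputable def ES (N : ℕ) (c : ℕ → ℂ) (τ α : ℝ) : ℂ :=
  ∑ m ∈ Icc 1 N, c m * Complex.exp (((τ * √(m : ℝ) : ℝ) : ℂ) * α * Complex.I)

lemma ES_sq (N : ℕ) (c : ℕ → ℂ) (τ α : ℝ) : ((‖ES N c τ α‖ ^ 2 : ℝ) : ℂ) =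
    ∑ m ∈ Icc 1 N, ∑ n ∈ Icc 1 N, (c m * conj (c n)) *
      Complex.exp (((τ * √(m : ℝ) - τ * √(n : ℝ) : ℝ) : ℂ) * α * Complex.I) := by
  rw [Complex.ofReal_pow, ← Complex.mul_conj']
  unfold ES
  rw [map_sum, sum_mul_sum]
  apply sum_congr rfl
  intro m _
  apply sum_congr rfl
  intro n _
  rw [map_mul, ← Complex.exp_conj]
  have e1 : conj ((((τ * √(n : ℝ) : ℝ) : ℂ) * α * Complex.I)) = -(((τ * √(n : ℝ) : ℝ) : ℂ) * α * Complex.I) := by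
    rw [map_mul, map_mul, Complex.conj_ofReal, Complex.conj_ofReal, Complex.conj_I]
    ring
  rw [e1]
  have e2 : Complex.exp (((τ * √(m : ℝ) - τ * √(n : ℝ) : ℝ) : ℂ) * α * Complex.I) =
      Complex.exp (((τ * √(m : ℝ) : ℝ) : ℂ) * α * Complex.I) * Complex.exp (-(((τ * √(n : ℝ) : ℝ) : ℂ) * α * Complex.I)) := by
    rw [← Complex.exp_add]
    congr 1
    push_cast
    ring
  rw [e2]
  ring

lemma ES_int (μ : Measure ℝ) [IsProbabilityMeasure μ] (N : ℕ) (c : ℕ → ℂ) (τ : ℝ) : Integrable (fun α => ‖ES N c τ α‖ ^ 2) μ := by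
  have h : Integrable (fun α : ℝ => ((‖ES N c τ α‖ ^ 2 : ℝ) : ℂ)) μ := by
    have e : (fun α : ℝ => ((‖ES N c τ α‖ ^ 2 : ℝ) : ℂ)) = fun α : ℝ => ∑ m ∈ Icc 1 N, ∑ n ∈ Icc 1 N, (c m * conj (c n)) *
        Complex.exp (((τ * √(m : ℝ) - τ * √(n : ℝ) : ℝ) : ℂ) * α * Complex.I) := by
      ext α
      exact ES_sq N c τ α
    rw [e]
    exact integrable_finsetSum _ fun m _ => integrable_finsetSum _ fun n _ => (exp_int μ _).const_mul _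
  have e : (fun α => ‖ES N c τ α‖ ^ 2) = fun α => (((‖ES N c τ α‖ ^ 2 : ℝ) : ℂ)).re := by
    ext α
    rw [Complex.ofReal_re]
  rw [e]
  exact h.re

lemma ES_moment (μ : Measure ℝ) [IsProbabilityMeasure μ] (N : ℕ) (c : ℕ → ℂ) (τ : ℝ) :
    ∫ α, ‖ES N c τ α‖ ^ 2 ∂μ ≤ ∑ m ∈ Icc 1 N, ∑ n ∈ Icc 1 N, ‖c m‖ * ‖c n‖ * ‖charFun μ (τ * √(m : ℝ) - τ * √(n : ℝ))‖ := by
  have h0 : 0 ≤ ∫ α, ‖ES N c τ α‖ ^ 2 ∂μ := integral_nonneg fun α => by positivity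
  have h1 : ((∫ α, ‖ES N c τ α‖ ^ 2 ∂μ : ℝ) : ℂ) = ∑ m ∈ Icc 1 N, ∑ n ∈ Icc 1 N, (c m * conj (c n)) *
      charFun μ (τ * √(m : ℝ) - τ * √(n : ℝ)) := by
    rw [← integral_complex_ofReal]
    simp_rw [ES_sq]
    rw [integral_finsetSum _ fun m _ => integrable_finsetSum _ fun n _ => (exp_int μ _).const_mul _]
    apply sum_congr rfl
    intro m _
    rw [integral_finsetSum _ fun n _ => (exp_int μ _).const_mul _]
    apply sum_congr rfl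
    intro n _
    rw [integral_const_mul, charFun_apply_real]
  have h2 : ∫ α, ‖ES N c τ α‖ ^ 2 ∂μ = ‖((∫ α, ‖ES N c τ α‖ ^ 2 ∂μ : ℝ) : ℂ)‖ := by
    rw [Complex.norm_real, Real.norm_eq_abs, abs_of_nonneg h0]
  rw [h2, h1]
  refine (norm_sum_le _ _).trans (sum_le_sum fun m _ => (norm_sum_le _ _).trans (sum_le_sum fun n _ => ?_))
  rw [norm_mul, norm_mul, RCLike.norm_conj]

lemma char_bound (μ : Measure ℝ) [IsProbabilityMeasure μ] {C σ : ℝ} (hσ : 0 ≤ σ)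
    (hdec : ∀ ξ : ℝ, 1 ≤ |ξ| → ‖charFun μ ξ‖ ≤ C * |ξ| ^ (-σ)) (ξ : ℝ) (hξ : ξ ≠ 0) : ‖charFun μ ξ‖ ≤ (|C| + 1) * |ξ| ^ (-σ) := by
  have hξ0 : 0 < |ξ| := abs_pos.2 hξ
  rcases le_total 1 |ξ| with h | h
  · refine (hdec ξ h).trans (mul_le_mul_of_nonneg_right ?_ (by positivity))
    linarith [le_abs_self C]
  · have h1 : ‖charFun μ ξ‖ ≤ 1 := norm_charFun_le_one ξ
    have h2 : 1 ≤ |ξ| ^ (-σ) := Real.one_le_rpow_of_pos_of_le_one_of_nonpos hξ0 h (by linarith)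
    nlinarith [abs_nonneg C]

lemma char_gap (μ : Measure ℝ) [IsProbabilityMeasure μ] {C σ : ℝ} (hσ : 0 ≤ σ) (hσ1 : σ < 1)
    (hdec : ∀ ξ : ℝ, 1 ≤ |ξ| → ‖charFun μ ξ‖ ≤ C * |ξ| ^ (-σ)) (τ : ℝ) (hτ : 0 < τ) (m n : ℕ) (hmn : m < n) (ξ : ℝ)
    (hξ : |ξ| = τ * √(n : ℝ) - τ * √(m : ℝ)) :
    ‖charFun μ ξ‖ ≤ 2 * (|C| + 1) * τ ^ (-σ) * ((n : ℝ) - m) ^ (-σ) * (n : ℝ) ^ (σ / 2) := by
  have hn0 : (0 : ℝ) < n := by exact_mod_cast (Nat.zero_le m).trans_lt hmn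
  have hs : 0 < √(n : ℝ) := Real.sqrt_pos.2 hn0
  have hd : (0 : ℝ) < (n : ℝ) - m := by
    have : (m : ℝ) < n := by exact_mod_cast hmn
    linarith
  have h1 := sqrt_gap m n hmn
  have h2 : 0 < ((n : ℝ) - m) / (2 * √(n : ℝ)) := by positivity
  have h3 : τ * (((n : ℝ) - m) / (2 * √(n : ℝ))) ≤ |ξ| := by
    rw [hξ]
    nlinarith
  have h4 : 0 < |ξ| := lt_of_lt_of_le (by positivity) h3
  refine (char_bound μ hσ hdec ξ (abs_pos.1 h4)).trans ?_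
  have h5 : |ξ| ^ (-σ) ≤ (τ * (((n : ℝ) - m) / (2 * √(n : ℝ)))) ^ (-σ) :=
    Real.rpow_le_rpow_of_nonpos (by positivity) h3 (by linarith)
  have h6 : (τ * (((n : ℝ) - m) / (2 * √(n : ℝ)))) ^ (-σ) ≤ 2 * (τ ^ (-σ) * ((n : ℝ) - m) ^ (-σ) * (n : ℝ) ^ (σ / 2)) := by
    rw [Real.mul_rpow hτ.le h2.le, Real.div_rpow hd.le (by positivity), Real.mul_rpow (by norm_num) hs.le,
      Real.rpow_neg (by norm_num : (0 : ℝ) ≤ 2), Real.rpow_neg hs.le, Real.sqrt_eq_rpow, ← Real.rpow_mul hn0.le]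
    have e1 : (1 : ℝ) / 2 * σ = σ / 2 := by ring
    rw [e1]
    have h7 : (2 : ℝ) ^ σ ≤ 2 := by
      calc (2 : ℝ) ^ σ ≤ 2 ^ (1 : ℝ) := Real.rpow_le_rpow_of_exponent_le (by norm_num) hσ1.le
        _ = 2 := Real.rpow_one 2
    have e2 : τ ^ (-σ) * (((n : ℝ) - m) ^ (-σ) / ((2 ^ σ)⁻¹ * ((n : ℝ) ^ (σ / 2))⁻¹)) =
        2 ^ σ * (τ ^ (-σ) * ((n : ℝ) - m) ^ (-σ) * (n : ℝ) ^ (σ / 2)) := by
      field_simp
    rw [e2]
    exact mul_le_mul_of_nonneg_right h7 (by positivity)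
  calc (|C| + 1) * |ξ| ^ (-σ) ≤ (|C| + 1) * (2 * (τ ^ (-σ) * ((n : ℝ) - m) ^ (-σ) * (n : ℝ) ^ (σ / 2))) :=
        mul_le_mul_of_nonneg_left (h5.trans h6) (by positivity)
    _ = _ := by ring

/-- **the second moment** -/
theorem ES_bound (μ : Measure ℝ) [IsProbabilityMeasure μ] (C σ κ K : ℝ) (hσ0 : 0 < σ) (hσ1 : σ < 1) (hκ0 : 0 < κ) (hκ1 : κ ≤ 1 / 12)
    (hK : 0 ≤ K) (hdec : ∀ ξ : ℝ, 1 ≤ |ξ| → ‖charFun μ ξ‖ ≤ C * |ξ| ^ (-σ)) : ∃ M : ℝ, 0 < M ∧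
    ∀ A δ τ : ℝ, 0 ≤ A → 0 < δ → 0 < τ → ∀ c : ℕ → ℂ, (∀ m : ℕ, 1 ≤ m → ‖c m‖ ≤ A * (m : ℝ) ^ (-(3 / 4 - κ))) →
    (∀ m : ℕ, 1 ≤ m → ‖c m‖ ≤ A * (m : ℝ) ^ (-(3 / 4 - κ)) * (K * (√(m : ℝ) * δ) ^ (-(1 - σ + 6 * κ)))) →
    ∀ N : ℕ, ∫ α, ‖ES N c τ α‖ ^ 2 ∂μ ≤ M * A ^ 2 * (1 + τ ^ (-σ) * δ ^ (-(1 - σ + 6 * κ))) := by
  obtain ⟨p, hp⟩ : ∃ p : ℝ, p = 3 / 4 - κ := ⟨_, rfl⟩
  obtain ⟨e, he⟩ : ∃ e : ℝ, e = 1 - σ + 6 * κ := ⟨_, rfl⟩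
  obtain ⟨D, hD⟩ : ∃ D : ℝ, D = 2 * (|C| + 1) := ⟨_, rfl⟩
  obtain ⟨C₁, hC₁⟩ : ∃ C₁ : ℝ, C₁ = 2 / (1 - p) + 2 / (1 - σ) := ⟨_, rfl⟩
  obtain ⟨Z, hZ⟩ : ∃ Z : ℝ, Z = ∑' n : ℕ, (n : ℝ) ^ (-(1 + κ)) := ⟨_, rfl⟩
  have hp0 : 0 ≤ p := by rw [hp]; linarith
  have hp1 : p < 1 := by rw [hp]; linarith
  have hD0 : 0 ≤ D := by rw [hD]; positivity
  have hC10 : 0 ≤ C₁ := by
    rw [hC₁]
    have : 0 < 1 - p := by linarith
    have : 0 < 1 - σ := by linarith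
    positivity
  have hZs : Summable (fun n : ℕ => (n : ℝ) ^ (-(1 + κ))) := by
    rw [Real.summable_nat_rpow]
    linarith
  have hZ0 : 0 ≤ Z := by
    rw [hZ]
    exact tsum_nonneg fun n => by positivity
  refine ⟨2 * Z * (1 + K * C₁ * D) + 1, by positivity, fun A δ τ hA hδ hτ c h1 h2 N => ?_⟩
  rw [← hp] at h1 h2
  rw [← he] at h2 ⊢
  obtain ⟨b, hb⟩ : ∃ b : ℕ → ℝ, b = fun m => ‖c m‖ := ⟨_, rfl⟩
  have hb0 : ∀ m, 0 ≤ b m := by intro m; rw [hb]; exact norm_nonneg _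
  have hb1 : ∀ m : ℕ, 1 ≤ m → b m ≤ A * (m : ℝ) ^ (-p) := by rw [hb]; exact h1
  have hb2 : ∀ m : ℕ, 1 ≤ m → b m ≤ A * (m : ℝ) ^ (-p) * (K * (√(m : ℝ) * δ) ^ (-e)) := by rw [hb]; exact h2
  obtain ⟨G, hG⟩ : ∃ G : ℕ → ℕ → ℝ, G = fun m n => if m < n then b m * b n * (D * τ ^ (-σ) * ((n : ℝ) - m) ^ (-σ) * (n : ℝ) ^ (σ / 2))
    else 0 := ⟨_, rfl⟩
  obtain ⟨H, hH⟩ : ∃ H : ℕ → ℕ → ℝ, H = fun m n => if m = n then b n ^ 2 else 0 := ⟨_, rfl⟩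
  have hpt : ∀ m n : ℕ, ‖c m‖ * ‖c n‖ * ‖charFun μ (τ * √(m : ℝ) - τ * √(n : ℝ))‖ ≤ G m n + G n m + H m n := by
    intro m n
    have e1 : ‖c m‖ = b m := by rw [hb]
    have e2 : ‖c n‖ = b n := by rw [hb]
    rw [e1, e2]
    rcases lt_trichotomy m n with h | h | h
    · have h3 := char_gap μ hσ0.le hσ1 hdec τ hτ m n h (τ * √(m : ℝ) - τ * √(n : ℝ)) (by
        rw [abs_sub_comm, abs_of_nonneg]
        have : √(m : ℝ) ≤ √(n : ℝ) := Real.sqrt_le_sqrt (by exact_mod_cast h.le)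
        nlinarith)
      have hG1 : G m n = b m * b n * (D * τ ^ (-σ) * ((n : ℝ) - m) ^ (-σ) * (n : ℝ) ^ (σ / 2)) := by
        rw [hG]; simp only; rw [if_pos h]
      have hG2 : G n m = 0 := by rw [hG]; simp only; rw [if_neg (by omega)]
      have hH1 : H m n = 0 := by rw [hH]; simp only; rw [if_neg (by omega)]
      rw [hG1, hG2, hH1, add_zero, add_zero, hD]
      exact mul_le_mul_of_nonneg_left h3 (mul_nonneg (hb0 m) (hb0 n))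
    · subst h
      have hG1 : G m m = 0 := by rw [hG]; simp only; rw [if_neg (by omega)]
      have hH1 : H m m = b m ^ 2 := by rw [hH]; simp only; rw [if_pos trivial]
      rw [hG1, hH1, sub_self, zero_add, zero_add]
      have : ‖charFun μ 0‖ ≤ 1 := norm_charFun_le_one 0
      nlinarith [hb0 m, mul_nonneg (hb0 m) (hb0 m)]
    · have h3 := char_gap μ hσ0.le hσ1 hdec τ hτ n m h (τ * √(m : ℝ) - τ * √(n : ℝ)) (by
        rw [abs_of_nonneg]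
        have : √(n : ℝ) ≤ √(m : ℝ) := Real.sqrt_le_sqrt (by exact_mod_cast h.le)
        nlinarith)
      have hG1 : G n m = b n * b m * (D * τ ^ (-σ) * ((m : ℝ) - n) ^ (-σ) * (m : ℝ) ^ (σ / 2)) := by
        rw [hG]; simp only; rw [if_pos h]
      have hG2 : G m n = 0 := by rw [hG]; simp only; rw [if_neg (by omega)]
      have hH1 : H m n = 0 := by rw [hH]; simp only; rw [if_neg (by omega)]
      rw [hG1, hG2, hH1, add_zero, zero_add, hD, mul_comm (b n) (b m)]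
      exact mul_le_mul_of_nonneg_left h3 (mul_nonneg (hb0 m) (hb0 n))
  have hin : ∀ n ∈ Icc 1 N, ∑ m ∈ Icc 1 N, G m n ≤ A ^ 2 * (K * C₁ * D) * (τ ^ (-σ) * δ ^ (-e)) * (n : ℝ) ^ (-(1 + κ)) := by
    intro n hn
    rw [mem_Icc] at hn
    have hn0 : (0 : ℝ) < n := by exact_mod_cast hn.1
    have e1 : ∑ m ∈ Icc 1 N, G m n = ∑ m ∈ Ico 1 n, b m * b n * (D * τ ^ (-σ) * ((n : ℝ) - m) ^ (-σ) * (n : ℝ) ^ (σ / 2)) := by
      rw [hG]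
      simp only
      rw [← sum_filter]
      apply sum_congr _ fun _ _ => rfl
      ext m
      simp only [mem_filter, mem_Icc, mem_Ico]
      omega
    rw [e1]
    calc ∑ m ∈ Ico 1 n, b m * b n * (D * τ ^ (-σ) * ((n : ℝ) - m) ^ (-σ) * (n : ℝ) ^ (σ / 2))
        ≤ ∑ m ∈ Ico 1 n, (b n * A * D * τ ^ (-σ) * (n : ℝ) ^ (σ / 2)) * ((m : ℝ) ^ (-p) * ((n : ℝ) - m) ^ (-σ)) := by
          apply sum_le_sum
          intro m hm
          rw [mem_Ico] at hm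
          have hmn : (0 : ℝ) < (n : ℝ) - m := by
            have : (m : ℝ) < n := by exact_mod_cast hm.2
            linarith
          have h3 := mul_le_mul_of_nonneg_right (hb1 m hm.1)
            (show 0 ≤ b n * (D * τ ^ (-σ) * ((n : ℝ) - m) ^ (-σ) * (n : ℝ) ^ (σ / 2)) from mul_nonneg (hb0 n) (by positivity))
          calc _ = b m * (b n * (D * τ ^ (-σ) * ((n : ℝ) - m) ^ (-σ) * (n : ℝ) ^ (σ / 2))) := by ring
            _ ≤ _ := h3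
            _ = _ := by ring
      _ = (b n * A * D * τ ^ (-σ) * (n : ℝ) ^ (σ / 2)) * ∑ m ∈ Ico 1 n, (m : ℝ) ^ (-p) * ((n : ℝ) - m) ^ (-σ) := by rw [mul_sum]
      _ ≤ (b n * A * D * τ ^ (-σ) * (n : ℝ) ^ (σ / 2)) * (C₁ * (n : ℝ) ^ (1 - p - σ)) := by
          rw [hC₁]
          exact mul_le_mul_of_nonneg_left (inner_sum p σ hp0 hp1 hσ0.le hσ1 n hn.1)
            (mul_nonneg (mul_nonneg (mul_nonneg (mul_nonneg (hb0 n) hA) hD0) (by positivity)) (by positivity))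
      _ ≤ ((A * (n : ℝ) ^ (-p) * (K * (√(n : ℝ) * δ) ^ (-e))) * A * D * τ ^ (-σ) * (n : ℝ) ^ (σ / 2)) * (C₁ * (n : ℝ) ^ (1 - p - σ)) := by
          apply mul_le_mul_of_nonneg_right _ (by positivity)
          apply mul_le_mul_of_nonneg_right _ (by positivity)
          apply mul_le_mul_of_nonneg_right _ (by positivity)
          apply mul_le_mul_of_nonneg_right _ hD0
          exact mul_le_mul_of_nonneg_right (hb2 n hn.1) hA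
      _ = _ := by
          rw [Real.mul_rpow (Real.sqrt_nonneg _) hδ.le, Real.sqrt_eq_rpow, ← Real.rpow_mul hn0.le]
          have e2 : (n : ℝ) ^ (-(1 + κ)) = (n : ℝ) ^ (-p) * (n : ℝ) ^ (1 / 2 * -e) * (n : ℝ) ^ (σ / 2) * (n : ℝ) ^ (1 - p - σ) := by
            rw [← Real.rpow_add hn0, ← Real.rpow_add hn0, ← Real.rpow_add hn0]
            congr 1
            rw [hp, he]
            ring
          rw [e2]
          ring
  have hdi : ∀ n ∈ Icc 1 N, ∑ m ∈ Icc 1 N, H m n ≤ A ^ 2 * (n : ℝ) ^ (-(1 + κ)) := by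
    intro n hn
    have hn' := mem_Icc.1 hn
    have hn0 : (0 : ℝ) < n := by exact_mod_cast hn'.1
    have hn1 : (1 : ℝ) ≤ n := by exact_mod_cast hn'.1
    have e1 : ∑ m ∈ Icc 1 N, H m n = b n ^ 2 := by
      rw [hH]
      simp only
      rw [sum_ite_eq', if_pos hn]
    rw [e1]
    calc b n ^ 2 ≤ (A * (n : ℝ) ^ (-p)) ^ 2 := pow_le_pow_left₀ (hb0 n) (hb1 n hn'.1) 2
      _ = A ^ 2 * ((n : ℝ) ^ (-p) * (n : ℝ) ^ (-p)) := by ring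
      _ ≤ A ^ 2 * (n : ℝ) ^ (-(1 + κ)) := by
          apply mul_le_mul_of_nonneg_left _ (by positivity)
          rw [← Real.rpow_add hn0]
          apply Real.rpow_le_rpow_of_exponent_le hn1
          rw [hp]
          linarith
  have hZN : ∑ n ∈ Icc 1 N, (n : ℝ) ^ (-(1 + κ)) ≤ Z := by
    rw [hZ]
    exact hZs.sum_le_tsum _ fun n _ => by positivity
  refine (ES_moment μ N c τ).trans ?_
  calc ∑ m ∈ Icc 1 N, ∑ n ∈ Icc 1 N, ‖c m‖ * ‖c n‖ * ‖charFun μ (τ * √(m : ℝ) - τ * √(n : ℝ))‖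
      ≤ ∑ m ∈ Icc 1 N, ∑ n ∈ Icc 1 N, (G m n + G n m + H m n) := sum_le_sum fun m _ => sum_le_sum fun n _ => hpt m n
    _ = (∑ m ∈ Icc 1 N, ∑ n ∈ Icc 1 N, G m n) + (∑ m ∈ Icc 1 N, ∑ n ∈ Icc 1 N, G n m) + ∑ m ∈ Icc 1 N, ∑ n ∈ Icc 1 N, H m n := by
        simp only [sum_add_distrib]
    _ = 2 * (∑ n ∈ Icc 1 N, ∑ m ∈ Icc 1 N, G m n) + ∑ n ∈ Icc 1 N, ∑ m ∈ Icc 1 N, H m n := by
        rw [sum_comm (f := fun m n => G m n), sum_comm (f := fun m n => H m n)]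
        ring
    _ ≤ 2 * (∑ n ∈ Icc 1 N, A ^ 2 * (K * C₁ * D) * (τ ^ (-σ) * δ ^ (-e)) * (n : ℝ) ^ (-(1 + κ))) +
          ∑ n ∈ Icc 1 N, A ^ 2 * (n : ℝ) ^ (-(1 + κ)) :=
        add_le_add (mul_le_mul_of_nonneg_left (sum_le_sum hin) (by norm_num)) (sum_le_sum hdi)
    _ = (2 * (A ^ 2 * (K * C₁ * D) * (τ ^ (-σ) * δ ^ (-e))) + A ^ 2) * ∑ n ∈ Icc 1 N, (n : ℝ) ^ (-(1 + κ)) := by
        rw [← mul_sum, ← mul_sum]
        ring
    _ ≤ (2 * (A ^ 2 * (K * C₁ * D) * (τ ^ (-σ) * δ ^ (-e))) + A ^ 2) * Z := mul_le_mul_of_nonneg_left hZN (by positivity)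
    _ ≤ _ := by
        have q1 : 0 ≤ τ ^ (-σ) * δ ^ (-e) := by positivity
        have q2 : 0 ≤ K * C₁ * D := by positivity
        have q3 : 0 ≤ A ^ 2 := by positivity
        nlinarith [mul_nonneg (mul_nonneg q3 hZ0) q1, mul_nonneg (mul_nonneg q3 hZ0) q2, mul_nonneg q3 q1, mul_nonneg q3 hZ0]

end Pool.Agent.V11290.VW
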